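import Mathlib

set_option autoImplicit false

/-!
Idempotent matrices that are compatible with a semilinear operator: the rank is divisible.
-/

namespace Pool.Agent.K1H5.PL

open Matrix

section lin

variable {K : Type*} [Field K] {N : Type*} [Fintype N] [DecidableEq N]

/-- rank factorization of idempotent matrices -/
lemma exists_rank_fact (X : Matrix N N K) (hX : X * X = X) :
    ∃ (r : ℕ) (Y : Matrix N (Fin r) K) (Z : Matrix (Fin r) N K), Y * Z = X ∧ Z * Y = 1 := by
  classical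
  let T := Matrix.toLin' X
  have hT : ∀ v, T (T v) = T v := by
    intro v
    simp only [T, Matrix.toLin'_apply, Matrix.mulVec_mulVec, hX]
  let R := LinearMap.range T
  let b : Module.Basis (Fin (Module.finrank K R)) K R := Module.finBasis K R
  let Y0 : (Fin (Module.finrank K R) → K) →ₗ[K] (N → K) :=
    R.subtype.comp b.equivFun.symm.toLinearMap
  let Z0 : (N → K) →ₗ[K] (Fin (Module.finrank K R) → K) :=
    b.equivFun.toLinearMap.comp T.rangeRestrict
  refine ⟨Module.finrank K R, LinearMap.toMatrix' Y0, LinearMap.toMatrix' Z0, ?_, ?_⟩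
  · rw [← LinearMap.toMatrix'_comp]
    have h : Y0 ∘ₗ Z0 = T := by
      ext1 i
      ext
      simp [Y0, Z0]
    rw [h]
    exact LinearMap.toMatrix'_toLin' X
  · rw [← LinearMap.toMatrix'_comp]
    have h : Z0 ∘ₗ Y0 = LinearMap.id := by
      apply LinearMap.ext
      intro v
      have h1 : T.rangeRestrict ((b.equivFun.symm v : R) : N → K) = b.equivFun.symm v := by
        apply Subtype.ext
        obtain ⟨w, hw⟩ := (b.equivFun.symm v).2
        change T ((b.equivFun.symm v : R) : N → K) = _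
        rw [← hw, hT]
      change b.equivFun (T.rangeRestrict ((b.equivFun.symm v : R) : N → K)) = v
      rw [h1, LinearEquiv.apply_symm_apply]
    rw [h, LinearMap.toMatrix'_id]

variable (σ : K →+* K) (v : K → ℤ)

/-- the iterated products -/
def NBm {r : ℕ} (B : Matrix (Fin r) (Fin r) K) : ℕ → Matrix (Fin r) (Fin r) K
  | 0 => 1
  | t + 1 => B.map (σ ^ t) * NBm B t

/-- **The rank is divisible.** -/
theorem rank_dvd {D : ℕ} (hσ : ∀ x, (σ ^ D) x = x) (hv : ∀ x y, x ≠ 0 → y ≠ 0 → v (x * y) = v x + v y)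
    (hvσ : ∀ x, v (σ x) = v x) {z : K} (hz : z ≠ 0) (hvz : v z = 1) (X U : Matrix N N K)
    (hX : X * X = X) (hU : U * X = X.map σ * U) (hσU : U.map σ = U)
    (hUD : U ^ D = z • (1 : Matrix N N K)) :
    ∃ r : ℕ, X.trace = r ∧ D ∣ r := by
  obtain ⟨r, Y, Z, hYZ, hZY⟩ := exists_rank_fact X hX
  set B : Matrix (Fin r) (Fin r) K := Z.map σ * U * Y with hB
  have hXY : X * Y = Y := by rw [← hYZ, Matrix.mul_assoc, hZY, Matrix.mul_one]
  have h1 : U * Y = Y.map σ * B := by
    calc U * Y = U * (X * Y) := by rw [hXY]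
      _ = X.map σ * U * Y := by rw [← Matrix.mul_assoc, hU]
      _ = (Y.map σ * Z.map σ) * U * Y := by rw [← Matrix.map_mul, hYZ]
      _ = Y.map σ * B := by rw [hB]; simp only [Matrix.mul_assoc]
  have hσt : ∀ t : ℕ, U.map (σ ^ t) = U := by
    intro t
    induction t with
    | zero => ext i j; simp
    | succ t ih =>
      have : U.map (σ ^ (t + 1)) = (U.map σ).map (σ ^ t) := by
        ext i j
        simp [pow_succ, Matrix.map_apply]
      rw [this, hσU, ih]
  have h2 : ∀ t : ℕ, U ^ t * Y = Y.map (σ ^ t) * NBm σ B t := by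
    intro t
    induction t with
    | zero =>
      have h3 : Y.map ((σ ^ 0 : K →+* K)) = Y := by ext i j; simp
      rw [h3, pow_zero, NBm, Matrix.one_mul, Matrix.mul_one]
    | succ t ih =>
      have h3 : U * Y.map (σ ^ t) = Y.map (σ ^ (t + 1)) * B.map (σ ^ t) := by
        calc U * Y.map (σ ^ t) = U.map (σ ^ t) * Y.map (σ ^ t) := by rw [hσt]
          _ = (U * Y).map (σ ^ t) := by rw [Matrix.map_mul]
          _ = (Y.map σ * B).map (σ ^ t) := by rw [h1]
          _ = (Y.map σ).map (σ ^ t) * B.map (σ ^ t) := by rw [Matrix.map_mul]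
          _ = Y.map (σ ^ (t + 1)) * B.map (σ ^ t) := by
            congr 1
      rw [pow_succ', Matrix.mul_assoc, ih, ← Matrix.mul_assoc, h3, NBm, Matrix.mul_assoc]
  have h4 : NBm σ B D = z • (1 : Matrix (Fin r) (Fin r) K) := by
    have h5 := h2 D
    have h6 : Y.map ((σ ^ D : K →+* K)) = Y := by
      ext i j
      rw [Matrix.map_apply, hσ]
    rw [h6, hUD] at h5
    calc NBm σ B D = Z * Y * NBm σ B D := by rw [hZY, Matrix.one_mul]
      _ = Z * (z • (1 : Matrix N N K) * Y) := by rw [Matrix.mul_assoc, ← h5]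
      _ = z • (Z * Y) := by rw [Matrix.smul_mul, Matrix.one_mul, Matrix.mul_smul]
      _ = z • (1 : Matrix (Fin r) (Fin r) K) := by rw [hZY]
  have hvσt : ∀ (t : ℕ) (x : K), v ((σ ^ t) x) = v x := by
    intro t
    induction t with
    | zero => intro x; simp
    | succ t ih => intro x; rw [pow_succ, RingHom.mul_def, RingHom.comp_apply, ih, hvσ]
  have hdet : ∀ t : ℕ, (NBm σ B t).det = ∏ s ∈ Finset.range t, (σ ^ s) B.det := by
    intro t
    induction t with
    | zero => simp [NBm]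
    | succ t ih =>
      rw [NBm, Matrix.det_mul, ih, Finset.prod_range_succ, mul_comm]
      congr 1
      exact ((σ ^ t).map_det B).symm
  have hv1 : v 1 = 0 := by
    have := hv 1 1 one_ne_zero one_ne_zero
    rw [mul_one] at this
    omega
  have hprod : z ^ r = ∏ s ∈ Finset.range D, (σ ^ s) B.det := by
    rw [← hdet, h4, Matrix.det_smul, Matrix.det_one, mul_one, Fintype.card_fin]
  have hvpow : ∀ n : ℕ, v (z ^ n) = n := by
    intro n
    induction n with
    | zero => simpa using hv1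
    | succ n ih =>
      rw [pow_succ, hv _ _ (pow_ne_zero _ hz) hz, ih, hvz]
      push_cast
      ring
  have hne : ∀ s ∈ Finset.range D, (σ ^ s) B.det ≠ 0 := by
    intro s hs h0
    have : z ^ r = 0 := by rw [hprod]; exact Finset.prod_eq_zero hs h0
    exact pow_ne_zero _ hz this
  have hvprod : ∀ t : ℕ, t ≤ D → v (∏ s ∈ Finset.range t, (σ ^ s) B.det) = t * v B.det := by
    intro t
    induction t with
    | zero => intro _; simpa using hv1
    | succ t ih =>
      intro ht
      rw [Finset.prod_range_succ, hv _ _ (Finset.prod_ne_zero_iff.2 fun s hs =>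
        hne s (Finset.mem_range.2 (by have := Finset.mem_range.1 hs; omega)))
        (hne t (Finset.mem_range.2 (by omega))), ih (by omega), hvσt]
      push_cast
      ring
  refine ⟨r, ?_, ?_⟩
  · rw [← hYZ, Matrix.trace_mul_comm, hZY, Matrix.trace_one, Fintype.card_fin]
  · have h5 := hvprod D le_rfl
    rw [← hprod, hvpow] at h5
    exact Int.natCast_dvd_natCast.1 ⟨_, h5⟩

end lin

section shift

variable {K : Type*} [Field K] (z : K) (m : ℕ)

/-- the shift matrices -/
def Sh (n : ℤ) : Matrix (Fin m) (Fin m) K :=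
  Matrix.of fun i j => if ((j : ℕ) : ℤ) = (((i : ℕ) : ℤ) + n) % m then
    z ^ ((((i : ℕ) : ℤ) + n) / m) else 0

/-- diagonal matrices of periodic functions -/
def Dg (d : ℤ → K) : Matrix (Fin m) (Fin m) K := Matrix.diagonal fun i => d ((i : ℕ) : ℤ)

/-- the residue modulo `m` -/
def rd (hm : 0 < m) (n : ℤ) : Fin m :=
  ⟨(n % m).toNat, by
    have h1 := Int.emod_nonneg n (b := (m : ℤ)) (by omega)
    have h2 := Int.emod_lt_of_pos n (b := (m : ℤ)) (by omega)
    omega⟩

lemma rd_val (hm : 0 < m) (n : ℤ) : (((rd m hm n : Fin m) : ℕ) : ℤ) = n % m := by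
  have h1 := Int.emod_nonneg n (b := (m : ℤ)) (by omega)
  simp only [rd]
  omega

lemma eq_rd_iff (hm : 0 < m) (j : Fin m) (n : ℤ) : ((j : ℕ) : ℤ) = n % m ↔ j = rd m hm n := by
  rw [← rd_val m hm n]
  constructor
  · intro h
    apply Fin.ext
    exact_mod_cast h
  · rintro rfl
    rfl

lemma Sh_apply (hm : 0 < m) (n : ℤ) (i j : Fin m) : Sh z m n i j =
    if j = rd m hm (((i : ℕ) : ℤ) + n) then z ^ ((((i : ℕ) : ℤ) + n) / m) else 0 := by
  simp only [Sh, Matrix.of_apply]
  by_cases h : ((j : ℕ) : ℤ) = (((i : ℕ) : ℤ) + n) % m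
  · rw [if_pos h, if_pos ((eq_rd_iff m hm j _).1 h)]
  · rw [if_neg h, if_neg (fun h' => h ((eq_rd_iff m hm j _).2 h'))]

lemma Sh_mul (hm : 0 < m) (hz : z ≠ 0) (n n' : ℤ) : Sh z m n * Sh z m n' = Sh z m (n + n') := by
  ext i l
  rw [Matrix.mul_apply, Finset.sum_eq_single (rd m hm (((i : ℕ) : ℤ) + n))]
  · rw [Sh_apply z m hm n, if_pos rfl, Sh_apply z m hm n', Sh_apply z m hm (n + n'), rd_val]
    have hm0 : (m : ℤ) ≠ 0 := by omega
    have e0 : ((i : ℕ) : ℤ) + (n + n') =
        (((i : ℕ) : ℤ) + n) % m + n' + m * ((((i : ℕ) : ℤ) + n) / m) := by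
      have := Int.emod_add_mul_ediv (((i : ℕ) : ℤ) + n) m
      linarith
    have e1 : (((i : ℕ) : ℤ) + (n + n')) / m =
        ((((i : ℕ) : ℤ) + n) % m + n') / m + (((i : ℕ) : ℤ) + n) / m := by
      rw [e0, Int.add_mul_ediv_left _ _ hm0]
    have e2 : rd m hm ((((i : ℕ) : ℤ) + n) % m + n') = rd m hm (((i : ℕ) : ℤ) + (n + n')) := by
      rw [← eq_rd_iff, rd_val, e0, Int.add_mul_emod_self_left]
    rw [e2, e1]
    by_cases h : l = rd m hm (((i : ℕ) : ℤ) + (n + n'))
    · rw [if_pos h, if_pos h, zpow_add₀ hz, mul_comm]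
    · rw [if_neg h, if_neg h, mul_zero]
  · intro j _ hj
    rw [Sh_apply z m hm n, if_neg hj, zero_mul]
  · intro h
    exact absurd (Finset.mem_univ _) h

lemma Sh_zero (hm : 0 < m) : Sh z m 0 = 1 := by
  ext i j
  rw [Sh_apply z m hm, add_zero]
  have h1 : rd m hm ((i : ℕ) : ℤ) = i := by
    apply Fin.ext
    have := rd_val m hm ((i : ℕ) : ℤ)
    have h2 : ((i : ℕ) : ℤ) % m = ((i : ℕ) : ℤ) :=
      Int.emod_eq_of_lt (by omega) (by have := i.2; omega)
    omega
  have h2 : ((i : ℕ) : ℤ) / m = 0 := Int.ediv_eq_zero_of_lt (by omega) (by have := i.2; omega)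
  rw [h1, h2, zpow_zero, Matrix.one_apply]
  by_cases h : j = i
  · rw [if_pos h, if_pos h.symm]
  · rw [if_neg h, if_neg (fun h' => h h'.symm)]

lemma Sh_m (hm : 0 < m) : Sh z m m = z • (1 : Matrix (Fin m) (Fin m) K) := by
  ext i j
  rw [Sh_apply z m hm]
  have hm0 : (m : ℤ) ≠ 0 := by omega
  have h1 : rd m hm (((i : ℕ) : ℤ) + m) = i := by
    apply Fin.ext
    have := rd_val m hm (((i : ℕ) : ℤ) + m)
    rw [Int.add_emod_right] at this
    have h2 : ((i : ℕ) : ℤ) % m = ((i : ℕ) : ℤ) :=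
      Int.emod_eq_of_lt (by omega) (by have := i.2; omega)
    omega
  have h2 : (((i : ℕ) : ℤ) + m) / m = 1 := by
    rw [Int.add_ediv_of_dvd_right dvd_rfl, Int.ediv_self hm0,
      Int.ediv_eq_zero_of_lt (by omega) (by have := i.2; omega), zero_add]
  rw [h1, h2, zpow_one, Matrix.smul_apply, Matrix.one_apply, smul_eq_mul]
  by_cases h : j = i
  · rw [if_pos h, if_pos h.symm, mul_one]
  · rw [if_neg h, if_neg (fun h' => h h'.symm), mul_zero]

lemma Sh_pow (hm : 0 < m) (hz : z ≠ 0) (n : ℤ) (t : ℕ) : Sh z m n ^ t = Sh z m (t * n) := by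
  induction t with
  | zero => rw [pow_zero, Nat.cast_zero, zero_mul, Sh_zero z m hm]
  | succ t ih =>
    rw [pow_succ, ih, Sh_mul z m hm hz]
    congr 1
    push_cast
    ring

omit [Field K] in
lemma per_mod {d : ℤ → K} (hd : ∀ i, d (i + m) = d i) (i : ℤ) : d (i % m) = d i := by
  have h1 : ∀ (n : ℕ) (i : ℤ), d (i + m * n) = d i := by
    intro n
    induction n with
    | zero => intro i; simp
    | succ n ih =>
      intro i
      have e : i + m * ((n + 1 : ℕ) : ℤ) = (i + m * n) + m := by push_cast; ring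
      rw [e, hd, ih]
  have h2 : ∀ (n : ℤ) (i : ℤ), d (i + m * n) = d i := by
    intro n i
    obtain ⟨k, rfl | rfl⟩ := n.eq_nat_or_neg
    · exact h1 k i
    · have := h1 k (i + m * (-(k : ℤ)))
      have e : i + m * (-(k : ℤ)) + m * k = i := by ring
      rw [e] at this
      exact this.symm
  have := h2 (i / m) (i % m)
  rw [Int.emod_add_mul_ediv] at this
  exact this.symm

lemma Sh_Dg (hm : 0 < m) (n : ℤ) {d : ℤ → K} (hd : ∀ i, d (i + m) = d i) :
    Sh z m n * Dg m d = Dg m (fun i => d (i + n)) * Sh z m n := by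
  ext i j
  rw [Dg, Dg, Matrix.mul_diagonal, Matrix.diagonal_mul, Sh_apply z m hm]
  by_cases h : j = rd m hm (((i : ℕ) : ℤ) + n)
  · rw [if_pos h, mul_comm]
    congr 1
    rw [h, rd_val, per_mod m hd]
  · rw [if_neg h, zero_mul, mul_zero]

lemma Dg_mul (d d' : ℤ → K) : Dg m d * Dg m d' = Dg m (fun i => d i * d' i) := by
  simp [Dg, Matrix.diagonal_mul_diagonal]

lemma Dg_one : Dg m (fun _ => (1 : K)) = 1 := by
  simp [Dg]

end shift

section rep

variable {K : Type*} [Field K] {H : Type*} [Group H]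

/-- data for a monomial representation: a homomorphism to the integers and a cocycle -/
structure Coc (K : Type*) [Field K] (H : Type*) [Group H] (m : ℕ) where
  /-- the degree -/
  nu : H → ℤ
  /-- the cocycle -/
  c : H → ℤ → K
  nu_one : nu 1 = 0
  nu_mul : ∀ f g, nu (f * g) = nu f + nu g
  c_one : ∀ i, c 1 i = 1
  c_mul : ∀ f g i, c (f * g) i = c f i * c g (i + nu f)
  c_per : ∀ f i, c f (i + m) = c f i

/-- the monomial representation -/
def Coc.rho {m : ℕ} (C : Coc K H m) (hm : 0 < m) {z : K} (hz : z ≠ 0) :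
    H →* Matrix (Fin m) (Fin m) K where
  toFun f := Dg m (C.c f) * Sh z m (C.nu f)
  map_one' := by
    rw [C.nu_one, Sh_zero z m hm, Matrix.mul_one]
    have : C.c 1 = fun _ => 1 := funext C.c_one
    rw [this, Dg_one]
  map_mul' f g := by
    rw [C.nu_mul, ← Sh_mul z m hm hz]
    have : C.c (f * g) = fun i => C.c f i * C.c g (i + C.nu f) := funext fun i => C.c_mul f g i
    rw [this, ← Dg_mul]
    calc Dg m (C.c f) * Dg m (fun i => C.c g (i + C.nu f)) * (Sh z m (C.nu f) * Sh z m (C.nu g)) =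
        Dg m (C.c f) * (Dg m (fun i => C.c g (i + C.nu f)) * Sh z m (C.nu f)) * Sh z m (C.nu g) := by
          simp only [Matrix.mul_assoc]
      _ = Dg m (C.c f) * (Sh z m (C.nu f) * Dg m (C.c g)) * Sh z m (C.nu g) := by
          rw [Sh_Dg z m hm _ (C.c_per g)]
      _ = Dg m (C.c f) * Sh z m (C.nu f) * (Dg m (C.c g) * Sh z m (C.nu g)) := by
          simp only [Matrix.mul_assoc]

lemma Coc.rho_apply {m : ℕ} (C : Coc K H m) (hm : 0 < m) {z : K} (hz : z ≠ 0) (f : H) :
    C.rho hm hz f = Dg m (C.c f) * Sh z m (C.nu f) := rfl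

lemma Coc.trace_zero {m : ℕ} (C : Coc K H m) (hm : 0 < m) {z : K} (hz : z ≠ 0) {f : H}
    (hf : C.nu f = 0) : (C.rho hm hz f).trace = ∑ i : Fin m, C.c f ((i : ℕ) : ℤ) := by
  rw [Coc.rho_apply, hf, Sh_zero z m hm, Matrix.mul_one, Dg, Matrix.trace_diagonal]

lemma Sh_map (σ : K →+* K) {z : K} (hσz : σ z = z) (m : ℕ) (n : ℤ) :
    (Sh z m n).map σ = Sh z m n := by
  ext i j
  simp only [Sh, Matrix.map_apply, Matrix.of_apply]
  split_ifs
  · rw [map_zpow₀, hσz]
  · exact map_zero σ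

lemma Coc.semi {m : ℕ} (C : Coc K H m) (hm : 0 < m) {z : K} (hz : z ≠ 0) (σ : K →+* K)
    (hσz : σ z = z) {I : ℕ} (hI : ∀ f i, C.c f (i + I) = σ (C.c f i)) (f : H) :
    Sh z m I * C.rho hm hz f = (C.rho hm hz f).map σ * Sh z m I := by
  rw [Coc.rho_apply, Matrix.map_mul, Sh_map σ hσz, ← Matrix.mul_assoc, Sh_Dg z m hm _ (C.c_per f),
    Matrix.mul_assoc, Matrix.mul_assoc, Sh_mul z m hm hz, Sh_mul z m hm hz, add_comm (I : ℤ)]
  congr 1
  simp only [Dg, hI]
  ext i j
  simp only [Matrix.map_apply, Matrix.diagonal_apply]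
  split_ifs
  · rfl
  · exact (map_zero σ).symm

end rep

end Pool.Agent.K1H5.PL
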