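import Mathlib
import Pool.Agent.K1H5.PL.KL
import Pool.Agent.H26R2.Bass.Main

set_option autoImplicit false

/-!
The rank of an idempotent matrix over a group algebra in a representation that is compatible with a
semilinear operator.
-/

namespace Pool.Agent.K1H5.PL

open Matrix MonoidAlgebra
open Pool.Agent.H23R2.Cyc (ell ell_single ell_mul_comm ell_eq_sum tf tf_apply tf_eq_zero)
open Pool.Agent.H26R2.IdemLI (ch ch_coeff)

section

variable {k K H : Type*} [Field k] [Field K] [Algebra k K] [Group H] {m : ℕ}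

/-- the representation of the group algebra -/
noncomputable def rh (C : Coc K H m) (hm : 0 < m) {z : K} (hz : z ≠ 0) :
    MonoidAlgebra k H →ₐ[k] Matrix (Fin m) (Fin m) K :=
  MonoidAlgebra.lift k (Matrix (Fin m) (Fin m) K) H (C.rho hm hz)

lemma rh_single (C : Coc K H m) (hm : 0 < m) {z : K} (hz : z ≠ 0) (f : H) (r : k) :
    rh C hm hz (single f r) = r • C.rho hm hz f := by
  unfold rh
  rw [MonoidAlgebra.lift_single]

lemma rh_trace (C : Coc K H m) (hm : 0 < m) {z : K} (hz : z ≠ 0) (x : MonoidAlgebra k H) :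
    (rh C hm hz x).trace = ell (fun f => (C.rho hm hz f).trace) (ch (algebraMap k K) H x) := by
  classical
  induction x using MonoidAlgebra.induction_linear with
  | zero => simp
  | add x y hx hy => rw [map_add, Matrix.trace_add, hx, hy, map_add, map_add]
  | single f r =>
    rw [rh_single]
    have h1 : ch (algebraMap k K) H (single f r) = single f (algebraMap k K r) := by
      ext g
      rw [ch_coeff, coeff_single, coeff_single, Finsupp.single_apply, Finsupp.single_apply]
      split_ifs
      · rfl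
      · exact map_zero _
    rw [h1, ell_single, Matrix.trace_smul, Algebra.smul_def]

lemma rh_semi (C : Coc K H m) (hm : 0 < m) {z : K} (hz : z ≠ 0) (σ : K →+* K)
    (hσz : σ z = z) (hσk : ∀ a : k, σ (algebraMap k K a) = algebraMap k K a)
    {I : ℕ} (hI : ∀ f i, C.c f (i + I) = σ (C.c f i)) (x : MonoidAlgebra k H) :
    Sh z m I * rh C hm hz x = (rh C hm hz x).map σ * Sh z m I := by
  induction x using MonoidAlgebra.induction_linear with
  | zero => simp
  | add x y hx hy =>
    rw [map_add, Matrix.mul_add, hx, hy]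
    rw [← Matrix.add_mul]
    congr 1
    ext i j
    simp
  | single f r =>
    rw [rh_single, Matrix.mul_smul, C.semi hm hz σ hσz hI f, ← Matrix.smul_mul]
    congr 1
    ext i j
    rw [Matrix.smul_apply, Matrix.map_apply, Matrix.map_apply, Matrix.smul_apply,
      Algebra.smul_def, Algebra.smul_def, map_mul, hσk]

/-- **Key lemma.** -/
theorem key (C : Coc K H m) (hm : 0 < m) {I D : ℕ} (hmD : m = D * I) {z : K} (hz : z ≠ 0)
    (σ : K →+* K) (v : K → ℤ) (hσz : σ z = z)
    (hσk : ∀ a : k, σ (algebraMap k K a) = algebraMap k K a) (hσ : ∀ x, (σ ^ D) x = x)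
    (hv : ∀ x y, x ≠ 0 → y ≠ 0 → v (x * y) = v x + v y) (hvσ : ∀ x, v (σ x) = v x)
    (hvz : v z = 1) (hI : ∀ f i, C.c f (i + I) = σ (C.c f i)) {n : ℕ}
    (X : Matrix (Fin n) (Fin n) (MonoidAlgebra k H)) (hX : X * X = X) :
    ∃ r : ℕ, D ∣ r ∧
      tf (fun f => (C.rho hm hz f).trace) (X.map (ch (algebraMap k K) H)) = r := by
  classical
  let Φ : Matrix (Fin n) (Fin n) (Matrix (Fin m) (Fin m) K) ≃+*
    Matrix (Fin n × Fin m) (Fin n × Fin m) K := Matrix.compRingEquiv (Fin n) (Fin m) K
  let Xρ : Matrix (Fin n) (Fin n) (Matrix (Fin m) (Fin m) K) := X.map (rh (k := k) C hm hz)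
  let Uρ : Matrix (Fin n) (Fin n) (Matrix (Fin m) (Fin m) K) := Matrix.diagonal fun _ => Sh z m I
  have hXρ : Xρ * Xρ = Xρ := by
    have : (X * X).map (rh (k := k) C hm hz) = Xρ * Xρ := Matrix.map_mul
    rw [← this, hX]
  have hUρ : Uρ * Xρ = (Xρ.map fun M => M.map σ) * Uρ := by
    ext1 i j
    simp only [Uρ, Xρ, Matrix.diagonal_mul, Matrix.mul_diagonal, Matrix.map_apply]
    exact rh_semi C hm hz σ hσz hσk hI (X i j)
  obtain ⟨r, hr, hDr⟩ := rank_dvd σ v hσ hv hvσ hz hvz (Φ Xρ) (Φ Uρ)
    (by rw [← map_mul, hXρ])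
    (by
      rw [← map_mul, hUρ, map_mul]
      rfl)
    (by
      ext ⟨i, a⟩ ⟨j, b⟩
      simp only [Φ, Uρ, Matrix.map_apply, Matrix.compRingEquiv_apply, Matrix.comp_apply,
        Matrix.diagonal_apply]
      split_ifs
      · have := congrFun (congrFun (Sh_map σ hσz m I) a) b
        rw [Matrix.map_apply] at this
        exact this
      · simp)
    (by
      rw [← map_pow]
      have h1 : Uρ ^ D = z • (1 : Matrix (Fin n) (Fin n) (Matrix (Fin m) (Fin m) K)) := by
        simp only [Uρ]
        rw [Matrix.diagonal_pow]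
        have h2 : (fun _ : Fin n => Sh z m (I : ℤ)) ^ D = fun _ : Fin n => z • (1 : Matrix (Fin m) (Fin m) K) := by
          funext i
          rw [Pi.pow_apply, Sh_pow z m hm hz, ← Sh_m z m hm, hmD]
          push_cast
          rfl
        rw [h2]
        ext1 i j
        rw [Matrix.diagonal_apply, Matrix.smul_apply, Matrix.one_apply]
        split_ifs
        · rfl
        · simp
      rw [h1]
      ext ⟨i, a⟩ ⟨j, b⟩
      simp only [Φ, Matrix.compRingEquiv_apply, Matrix.comp_apply, Matrix.smul_apply,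
        Matrix.one_apply, Prod.mk.injEq]
      by_cases h : i = j
      · subst h
        simp [Matrix.one_apply]
      · simp [h])
  refine ⟨r, hDr, ?_⟩
  rw [← hr, tf_apply]
  have h1 : (Φ Xρ).trace = ∑ i, (rh (k := k) C hm hz (X i i)).trace := by
    simp only [Matrix.trace, Matrix.diag_apply, Fintype.sum_prod_type]
    rfl
  rw [h1]
  refine Finset.sum_congr rfl fun i _ => ?_
  rw [rh_trace]
  rfl

end

end Pool.Agent.K1H5.PL
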