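import Mathlib

set_option autoImplicit false

/-!
The action of an endomorphism of the coefficients on rational functions, and finite fields.
-/

namespace Pool.Agent.K1H5.PL

open Polynomial

section

variable {E : Type*} [Field E]

/-- the action on the coefficients -/
noncomputable def sg (φ : E →+* E) : RatFunc E →+* RatFunc E :=
  RatFunc.mapRingHom (Polynomial.mapRingHom φ)
    (nonZeroDivisors_le_comap_nonZeroDivisors_of_injective _ (Polynomial.map_injective φ φ.injective))

lemma sg_div (φ : E →+* E) (p q : E[X]) :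
    sg φ (algebraMap E[X] (RatFunc E) p / algebraMap E[X] (RatFunc E) q) =
      algebraMap E[X] (RatFunc E) (p.map φ) / algebraMap E[X] (RatFunc E) (q.map φ) :=
  RatFunc.map_apply_div (Polynomial.mapRingHom φ)
    (nonZeroDivisors_le_comap_nonZeroDivisors_of_injective _
      (Polynomial.map_injective φ φ.injective)) p q

lemma sg_poly (φ : E →+* E) (p : E[X]) :
    sg φ (algebraMap E[X] (RatFunc E) p) = algebraMap E[X] (RatFunc E) (p.map φ) := by
  have := sg_div φ p 1
  simpa using this

lemma sg_X (φ : E →+* E) : sg φ (RatFunc.X : RatFunc E) = RatFunc.X := by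
  rw [← RatFunc.algebraMap_X, sg_poly, Polynomial.map_X]

lemma sg_C (φ : E →+* E) (a : E) : sg φ (RatFunc.C a : RatFunc E) = RatFunc.C (φ a) := by
  rw [← RatFunc.algebraMap_C, sg_poly, Polynomial.map_C, RatFunc.algebraMap_C]

lemma sg_comp (φ ψ : E →+* E) (x : RatFunc E) : sg φ (sg ψ x) = sg (φ.comp ψ) x := by
  induction x using RatFunc.induction_on with
  | f p q hq => rw [sg_div, sg_div, sg_div, Polynomial.map_map, Polynomial.map_map]

lemma sg_id (x : RatFunc E) : sg (RingHom.id E) x = x := by
  induction x using RatFunc.induction_on with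
  | f p q hq => rw [sg_div, Polynomial.map_id, Polynomial.map_id]

lemma sg_pow (φ : E →+* E) (t : ℕ) (x : RatFunc E) : (sg φ ^ t) x = sg (φ ^ t) x := by
  induction t generalizing x with
  | zero => exact (sg_id x).symm
  | succ t ih => rw [pow_succ, RingHom.mul_def, RingHom.comp_apply, ih, sg_comp]; rfl

lemma sg_deg (φ : E →+* E) (x : RatFunc E) : (sg φ x).intDegree = x.intDegree := by
  induction x using RatFunc.induction_on with
  | f p q hq =>
    by_cases hp : p = 0
    · subst hp
      simp
    · have hp' : p.map φ ≠ 0 := (Polynomial.map_ne_zero_iff φ.injective).2 hp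
      have hq' : q.map φ ≠ 0 := (Polynomial.map_ne_zero_iff φ.injective).2 hq
      rw [sg_div, RatFunc.intDegree_div (RatFunc.algebraMap_ne_zero hp')
        (RatFunc.algebraMap_ne_zero hq'), RatFunc.intDegree_div (RatFunc.algebraMap_ne_zero hp)
        (RatFunc.algebraMap_ne_zero hq), RatFunc.intDegree_polynomial,
        RatFunc.intDegree_polynomial, RatFunc.intDegree_polynomial, RatFunc.intDegree_polynomial,
        Polynomial.natDegree_map, Polynomial.natDegree_map]

end

/-- finite extensions with a power of the Frobenius map -/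
lemma exists_ext (k : Type*) [Field k] [Finite k] {j D : ℕ} (hj : 1 ≤ j) (hD : 1 ≤ D) :
    ∃ (E : Type) (_ : Field E) (_ : Finite E) (_ : Algebra k E) (φ : E →+* E),
      Nat.card E = (Nat.card k ^ j) ^ D ∧ ∀ x, φ x = x ^ (Nat.card k ^ j) := by
  obtain ⟨p, hp⟩ := CharP.exists k
  have hfp : Fact p.Prime := ⟨CharP.char_is_prime k p⟩
  have hne : NeZero (j * D) := ⟨by positivity⟩
  refine ⟨FiniteField.Extension k p (j * D), inferInstance, inferInstance, inferInstance, ?_⟩
  have hcard : ∃ n : ℕ, Nat.card k = p ^ n := by
    have := Fintype.ofFinite k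
    obtain ⟨n, _, hn⟩ := FiniteField.card k p
    exact ⟨n, by rw [Nat.card_eq_fintype_card, hn]⟩
  obtain ⟨n, hn⟩ := hcard
  have hch : CharP (FiniteField.Extension k p (j * D)) p :=
    charP_of_injective_algebraMap (algebraMap k (FiniteField.Extension k p (j * D))).injective p
  refine ⟨iterateFrobenius (FiniteField.Extension k p (j * D)) p (n * j), ?_, fun x => ?_⟩
  · rw [FiniteField.natCard_extension, pow_mul]
  · rw [iterateFrobenius_def, hn, ← pow_mul]

end Pool.Agent.K1H5.PL
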