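import Mathlib

set_option autoImplicit false

/-!
Separation of orbits in finite quotients.
-/

namespace Pool.Agent.K1H5.PL

section

variable (l : ℝ) (I : ℕ) (F : Finset ℝ)

/-- the lattice spanned by the `l ^ i a` -/
def BB : AddSubgroup ℝ := AddSubgroup.closure {x | ∃ a ∈ F, ∃ i < I, x = l ^ i * a}

/-- its localization -/
def AA : AddSubgroup ℝ where
  carrier := {x | ∃ n : ℕ, ∀ n' ≥ n, l ^ n' * x ∈ BB l I F}
  zero_mem' := ⟨0, fun n' _ => by rw [mul_zero]; exact zero_mem _⟩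
  add_mem' := by
    rintro x y ⟨n, hn⟩ ⟨m, hm⟩
    refine ⟨max n m, fun n' hn' => ?_⟩
    rw [mul_add]
    exact add_mem (hn n' ((le_max_left _ _).trans hn')) (hm n' ((le_max_right _ _).trans hn'))
  neg_mem' := by
    rintro x ⟨n, hn⟩
    refine ⟨n, fun n' hn' => ?_⟩
    rw [mul_neg]
    exact neg_mem (hn n' hn')

variable {l I F}

lemma mem_BB {a : ℝ} (ha : a ∈ F) {i : ℕ} (hi : i < I) : l ^ i * a ∈ BB l I F :=
  AddSubgroup.subset_closure ⟨a, ha, i, hi, rfl⟩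

lemma nat_BB {x : ℝ} (hx : x ∈ BB l I F) (n : ℕ) : (n : ℝ) * x ∈ BB l I F := by
  have := AddSubgroup.nsmul_mem _ hx n
  rwa [nsmul_eq_mul] at this

lemma l_BB {Q : ℕ} (hI : 1 ≤ I) (hl : l ^ I = Q) {x : ℝ} (hx : x ∈ BB l I F) :
    l * x ∈ BB l I F := by
  induction hx using AddSubgroup.closure_induction with
  | mem x hx =>
    obtain ⟨a, ha, i, hi, rfl⟩ := hx
    by_cases h : i + 1 < I
    · have := mem_BB (l := l) ha h
      rwa [pow_succ', mul_assoc] at this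
    · have e : i + 1 = I := by omega
      have h1 : l * (l ^ i * a) = (Q : ℝ) * (l ^ 0 * a) := by
        rw [← mul_assoc, ← pow_succ', e, hl, pow_zero, one_mul]
      rw [h1]
      exact nat_BB (mem_BB ha (by omega)) Q
  | zero => rw [mul_zero]; exact zero_mem _
  | add x y _ _ hx hy => rw [mul_add]; exact add_mem hx hy
  | neg x _ hx => rw [mul_neg]; exact neg_mem hx

lemma lpow_BB {Q : ℕ} (hI : 1 ≤ I) (hl : l ^ I = Q) {x : ℝ} (hx : x ∈ BB l I F) (n : ℕ) :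
    l ^ n * x ∈ BB l I F := by
  induction n with
  | zero => simpa using hx
  | succ n ih => rw [pow_succ', mul_assoc]; exact l_BB hI hl ih

lemma BB_le_AA {Q : ℕ} (hI : 1 ≤ I) (hl : l ^ I = Q) {x : ℝ} (hx : x ∈ BB l I F) :
    x ∈ AA l I F := ⟨0, fun n' _ => lpow_BB hI hl hx n'⟩

lemma mem_AA {Q : ℕ} (hI : 1 ≤ I) (hl : l ^ I = Q) {a : ℝ} (ha : a ∈ F) : a ∈ AA l I F := by
  have := BB_le_AA hI hl (mem_BB (l := l) ha (show 0 < I by omega))
  simpa using this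

lemma l_AA {x : ℝ} (hx : x ∈ AA l I F) : l * x ∈ AA l I F := by
  obtain ⟨n, hn⟩ := hx
  refine ⟨n, fun n' hn' => ?_⟩
  have := hn (n' + 1) (by omega)
  rwa [pow_succ, mul_assoc] at this

lemma linv_AA (hl0 : l ≠ 0) {x : ℝ} (hx : x ∈ AA l I F) : l⁻¹ * x ∈ AA l I F := by
  obtain ⟨n, hn⟩ := hx
  refine ⟨n + 1, fun n' hn' => ?_⟩
  obtain ⟨m, rfl⟩ : ∃ m, n' = m + 1 := ⟨n' - 1, by omega⟩
  have := hn m (by omega)
  rwa [pow_succ, mul_assoc, mul_inv_cancel_left₀ hl0]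

lemma zpow_AA (hl0 : l ≠ 0) {x : ℝ} (hx : x ∈ AA l I F) (n : ℤ) : l ^ n * x ∈ AA l I F := by
  have h1 : ∀ n : ℕ, l ^ n * x ∈ AA l I F := by
    intro n
    induction n with
    | zero => simpa using hx
    | succ n ih => rw [pow_succ', mul_assoc]; exact l_AA ih
  have h2 : ∀ n : ℕ, (l ^ n)⁻¹ * x ∈ AA l I F := by
    intro n
    induction n with
    | zero => simpa using hx
    | succ n ih =>
      rw [pow_succ, mul_inv, mul_comm (l ^ n)⁻¹, mul_assoc]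
      exact linv_AA hl0 ih
  obtain ⟨k, rfl | rfl⟩ := n.eq_nat_or_neg
  · rw [zpow_natCast]; exact h1 k
  · rw [zpow_neg, zpow_natCast]; exact h2 k

/-- `(M + 1) ^ n` is `1` modulo `M` -/
lemma pow_mod (M n : ℕ) : ∃ c : ℕ, (M + 1) ^ n = 1 + M * c := by
  induction n with
  | zero => exact ⟨0, by simp⟩
  | succ n ih =>
    obtain ⟨c, hc⟩ := ih
    exact ⟨c * (M + 1) + 1, by rw [pow_succ, hc]; ring⟩

lemma AA_eq {Q D M : ℕ} (hI : 1 ≤ I) (hD : 1 ≤ D) (hl : l ^ I = Q) (hM : Q ^ D = M + 1) {y : ℝ}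
    (hy : y ∈ AA l I F) : ∃ c : ℕ, y + (M * c : ℕ) * y ∈ BB l I F := by
  obtain ⟨n, hn⟩ := hy
  obtain ⟨c, hc⟩ := pow_mod M n
  refine ⟨c, ?_⟩
  have h1 := hn (I * D * n) (by nlinarith [Nat.mul_pos hI hD])
  have h2 : l ^ (I * D * n) = ((1 + M * c : ℕ) : ℝ) := by
    rw [mul_assoc, pow_mul, hl, ← hc, ← hM, pow_mul]
    push_cast
    rfl
  rw [h2] at h1
  have e : ((1 + M * c : ℕ) : ℝ) * y = y + (M * c : ℕ) * y := by push_cast; ring
  rwa [e] at h1

lemma mem_of_mul_mem {Q D M : ℕ} (hI : 1 ≤ I) (hD : 1 ≤ D) (hl : l ^ I = Q)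
    (hM : Q ^ D = M + 1) {y : ℝ} (hy : y ∈ AA l I F) (h : (M : ℝ) * y ∈ BB l I F) :
    y ∈ BB l I F := by
  obtain ⟨c, hc⟩ := AA_eq hI hD hl hM hy
  have h2 := nat_BB h c
  have e : y = (y + (M * c : ℕ) * y) - (c : ℝ) * (M * y) := by push_cast; ring
  rw [e]
  exact sub_mem hc h2

lemma BB_fg : (BB l I F).FG := by
  classical
  refine ⟨(F ×ˢ Finset.range I).image fun q => l ^ q.2 * q.1, ?_⟩
  unfold BB
  congr 1
  ext x
  simp only [Finset.coe_image, Set.mem_image, Finset.mem_coe, Finset.mem_product,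
    Finset.mem_range, Prod.exists, Set.mem_ofPred_eq]
  constructor
  · rintro ⟨a, i, ⟨ha, hi⟩, rfl⟩
    exact ⟨a, ha, i, hi, rfl⟩
  · rintro ⟨a, ha, i, hi, rfl⟩
    exact ⟨a, i, ⟨ha, hi⟩, rfl⟩

/-- bounded coordinates -/
lemma exists_coord (U : Finset ℝ) (hU : ∀ u ∈ U, u ∈ BB l I F) :
    ∃ (d : ℕ) (κ : BB l I F →+ (Fin d → ℤ)) (R : ℕ), Function.Injective κ ∧
      ∀ u (hu : u ∈ U) j, |κ ⟨u, hU u hu⟩ j| ≤ R := by
  classical
  have h1 : AddGroup.FG (BB l I F) := (AddGroup.fg_iff_addSubgroup_fg _).2 BB_fg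
  have h2 : Module.Finite ℤ (BB l I F) := Module.Finite.iff_addGroup_fg.2 h1
  have h3 : Module.Free ℤ (BB l I F) := inferInstance
  let b := Module.finBasis ℤ (BB l I F)
  let κ : BB l I F →+ (Fin (Module.finrank ℤ (BB l I F)) → ℤ) := b.equivFun.toLinearMap.toAddMonoidHom
  have h4 : ∀ u : U, ∃ R : ℕ, ∀ j, |κ ⟨u.1, hU u.1 u.2⟩ j| ≤ R := by
    intro u
    refine ⟨∑ j, (κ ⟨u.1, hU u.1 u.2⟩ j).natAbs, fun j => ?_⟩
    have := Finset.single_le_sum (f := fun j => (κ ⟨u.1, hU u.1 u.2⟩ j).natAbs)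
      (fun _ _ => Nat.zero_le _) (Finset.mem_univ j)
    rw [Int.abs_eq_natAbs]
    exact_mod_cast this
  choose R hR using h4
  refine ⟨_, κ, ∑ u, R u, b.equivFun.injective, fun u hu j => ?_⟩
  refine (hR ⟨u, hu⟩ j).trans ?_
  have := Finset.single_le_sum (f := R) (fun _ _ => Nat.zero_le _) (Finset.mem_univ ⟨u, hu⟩)
  exact_mod_cast this

/-- **Separation.** -/
lemma sep {Q : ℕ} (hI : 1 ≤ I) (hQ : 2 ≤ Q) (hl : l ^ I = Q) :
    ∃ D0 : ℕ, 1 ≤ D0 ∧ ∀ D ≥ D0, ∀ M : ℕ, Q ^ D = M + 1 → ∀ a ∈ F, ∀ a0 ∈ F, ∀ i < D * I,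
      (∃ y ∈ AA l I F, l ^ i * a - a0 = M * y) → l ^ i * a = a0 ∨ l ^ i * a = l ^ (D * I) * a0 := by
  classical
  let U : Finset ℝ := (F ×ˢ Finset.range I).image fun q => l ^ q.2 * q.1
  have hU : ∀ u ∈ U, u ∈ BB l I F := by
    intro u hu
    obtain ⟨⟨a, i⟩, h, rfl⟩ := Finset.mem_image.1 hu
    obtain ⟨ha, hi⟩ := Finset.mem_product.1 h
    exact mem_BB ha (Finset.mem_range.1 hi)
  obtain ⟨d, κ, R, hκ, hR⟩ := exists_coord U hU
  refine ⟨2 * (2 * R + 2), by omega, fun D hD M hM a ha a0 ha0 i hi => ?_⟩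
  rintro ⟨y, hy, hye⟩
  have hI0 : 0 < I := by omega
  have hr : i % I < I := Nat.mod_lt _ hI0
  have hq : i / I < D := (Nat.div_lt_iff_lt_mul hI0).2 hi
  set r := i % I with hrd
  set q := i / I with hqd
  have hi' : i = I * q + r := (Nat.div_add_mod i I).symm
  have huU : l ^ r * a ∈ U := Finset.mem_image.2 ⟨(a, r), Finset.mem_product.2
    ⟨ha, Finset.mem_range.2 hr⟩, rfl⟩
  have ha0U : a0 ∈ U := Finset.mem_image.2 ⟨(a0, 0), Finset.mem_product.2
    ⟨ha0, Finset.mem_range.2 hI0⟩, by simp⟩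
  have hpow : l ^ i * a = (Q : ℝ) ^ q * (l ^ r * a) := by
    rw [hi', pow_add, pow_mul, hl, mul_assoc]
  set u := l ^ r * a with hu
  -- the element `y` lies in `B`
  have hM1 : 1 ≤ M := by
    have : 2 ≤ Q ^ D := hQ.trans (Nat.le_self_pow (by omega) Q)
    omega
  have hyB : y ∈ BB l I F := by
    apply mem_of_mul_mem hI (by omega : 1 ≤ D) hl hM hy
    rw [← hye, hpow]
    refine sub_mem ?_ (hU a0 ha0U)
    have := nat_BB (hU u huU) (Q ^ q)
    push_cast at this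
    exact this
  -- small multiples of `M` vanish
  have hsmall : ∀ (e : ℕ), e ≤ D / 2 → ∀ (s t : ℝ) (hs : s ∈ U) (ht : t ∈ U) (w : ℝ),
      w ∈ BB l I F → (Q : ℝ) ^ e * s - t = M * w → (Q : ℝ) ^ e * s = t := by
    intro e he s t hs ht w hw hst
    have h1 : κ ⟨w, hw⟩ = 0 := by
      have h2 : (M : ℤ) • κ ⟨w, hw⟩ = ((Q : ℤ) ^ e) • κ ⟨s, hU s hs⟩ - κ ⟨t, hU t ht⟩ := by
        rw [← map_zsmul, ← map_zsmul, ← map_sub]
        congr 1
        apply Subtype.ext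
        simp only [AddSubgroup.coe_zsmul, AddSubgroup.coe_sub, zsmul_eq_mul]
        push_cast
        exact hst.symm
      funext j
      have h3 := congrFun h2 j
      simp only [Pi.smul_apply, Pi.sub_apply, smul_eq_mul] at h3
      have h4 := hR s hs j
      have h5 := hR t ht j
      have h6 : (Q : ℤ) ^ e ≤ (Q : ℤ) ^ (D / 2) := by
        exact_mod_cast Nat.pow_le_pow_right (by omega) he
      have h7 : (0 : ℤ) < (Q : ℤ) ^ e := by positivity
      have h8 : |(M : ℤ) * κ ⟨w, hw⟩ j| ≤ (Q : ℤ) ^ (D / 2) * R + R := by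
        rw [h3]
        refine (abs_sub _ _).trans ?_
        rw [abs_mul, abs_of_pos h7]
        have h9 : (Q : ℤ) ^ e * |κ ⟨s, hU s hs⟩ j| ≤ (Q : ℤ) ^ (D / 2) * R :=
          mul_le_mul h6 h4 (abs_nonneg _) (by positivity)
        linarith
      have h10 : (2 * R + 2 : ℤ) ≤ (Q : ℤ) ^ (D / 2) := by
        have h11 : 2 * R + 2 ≤ D / 2 := by omega
        have h12 : D / 2 < 2 ^ (D / 2) := Nat.lt_two_pow_self
        have h13 : 2 ^ (D / 2) ≤ Q ^ (D / 2) := Nat.pow_le_pow_left hQ _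
        have h14 : 2 * R + 2 ≤ Q ^ (D / 2) := by omega
        exact_mod_cast h14
      have h15 : (Q : ℤ) ^ (D / 2) * (Q : ℤ) ^ (D / 2) ≤ M + 1 := by
        have h16 : Q ^ (D / 2) * Q ^ (D / 2) ≤ Q ^ D := by
          rw [← pow_add]
          exact Nat.pow_le_pow_right (by omega) (by omega)
        rw [hM] at h16
        exact_mod_cast h16
      have h17 : (Q : ℤ) ^ (D / 2) * R + R < M := by nlinarith
      by_contra hne
      have hne' : κ ⟨w, hw⟩ j ≠ 0 := hne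
      have h18 : (1 : ℤ) ≤ |κ ⟨w, hw⟩ j| := Int.one_le_abs hne'
      rw [abs_mul, Nat.abs_cast] at h8
      nlinarith
    have h2 : (⟨w, hw⟩ : BB l I F) = 0 := hκ (by rw [h1, map_zero])
    have h3 : w = 0 := congrArg Subtype.val h2
    rw [h3, mul_zero] at hst
    linarith
  by_cases hcase : q ≤ D / 2
  · left
    rw [hpow]
    refine hsmall q hcase u a0 huU ha0U y hyB ?_
    rw [← hpow]
    exact hye
  · right
    have hQD : (Q : ℝ) ^ (D - q) * (Q : ℝ) ^ q = M + 1 := by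
      rw [← pow_add, Nat.sub_add_cancel hq.le]
      exact_mod_cast hM
    have h1 : (Q : ℝ) ^ (D - q) * a0 = u := by
      refine hsmall (D - q) (by omega) a0 u ha0U huU (u - (Q : ℝ) ^ (D - q) * y) ?_ ?_
      · refine sub_mem (hU u huU) ?_
        have := nat_BB hyB (Q ^ (D - q))
        push_cast at this
        exact this
      · rw [hpow] at hye
        have h2 : (Q : ℝ) ^ (D - q) * ((Q : ℝ) ^ q * u - a0) = (Q : ℝ) ^ (D - q) * (M * y) := by
          rw [hye]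
        have h3 : (Q : ℝ) ^ (D - q) * ((Q : ℝ) ^ q * u) = (M + 1) * u := by
          rw [← mul_assoc, hQD]
        rw [mul_sub, h3] at h2
        linear_combination -h2
    rw [hpow, ← h1, ← mul_assoc, mul_comm D I, pow_mul, hl, ← pow_add, Nat.add_sub_cancel' hq.le]

/-- the number of solutions of the congruence -/
lemma sep_count {Q : ℕ} (hI : 1 ≤ I) (hQ : 2 ≤ Q) (hl : l ^ I = Q) (hl1 : 1 < l) {a0 : ℝ}
    (ha0 : a0 ∈ F) (hne : a0 ≠ 0) :
    ∃ D0 : ℕ, 1 ≤ D0 ∧ ∀ D ≥ D0, ∀ M : ℕ, Q ^ D = M + 1 → ∀ a ∈ F,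
      ((∃ n : ℤ, a = l ^ n * a0) → ∃! i : Fin (D * I), ∃ y ∈ AA l I F, l ^ (i : ℕ) * a - a0 = M * y) ∧
      ((¬ ∃ n : ℤ, a = l ^ n * a0) → ∀ i : Fin (D * I), ¬ ∃ y ∈ AA l I F,
        l ^ (i : ℕ) * a - a0 = M * y) := by
  classical
  obtain ⟨D0, hD0, h0⟩ := sep (F := F) hI hQ hl
  have hl0 : 0 < l := by linarith
  have hex : ∃ N : ℕ, ∀ a ∈ F, (∃ n : ℤ, a = l ^ n * a0) → ∃ n : ℤ, a = l ^ n * a0 ∧ |n| < N := by
    have h1 : ∀ a : F, ∃ N : ℕ, (∃ n : ℤ, (a : ℝ) = l ^ n * a0) →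
        ∃ n : ℤ, (a : ℝ) = l ^ n * a0 ∧ |n| < N := by
      intro a
      by_cases h : ∃ n : ℤ, (a : ℝ) = l ^ n * a0
      · obtain ⟨n, hn⟩ := h
        exact ⟨n.natAbs + 1, fun _ => ⟨n, hn, by rw [Int.abs_eq_natAbs]; push_cast; omega⟩⟩
      · exact ⟨0, fun h' => absurd h' h⟩
    choose N hN using h1
    refine ⟨∑ a, N a, fun a ha h => ?_⟩
    obtain ⟨n, hn, hn'⟩ := hN ⟨a, ha⟩ h
    refine ⟨n, hn, hn'.trans_le ?_⟩
    have := Finset.single_le_sum (f := N) (fun _ _ => Nat.zero_le _) (Finset.mem_univ ⟨a, ha⟩)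
    exact_mod_cast this
  obtain ⟨N, hN⟩ := hex
  have hinj : ∀ n n' : ℤ, l ^ n * a0 = l ^ n' * a0 → n = n' := by
    intro n n' h
    have h2 := mul_right_cancel₀ hne h
    exact zpow_right_injective₀ hl0 (by linarith : l ≠ 1) h2
  refine ⟨max D0 N, hD0.trans (le_max_left _ _), fun D hD M hM a ha => ⟨fun hn => ?_, ?_⟩⟩
  · obtain ⟨n, hn, hnN⟩ := hN a ha hn
    have hDN : (N : ℤ) ≤ (D * I : ℕ) := by
      have h1 : N ≤ D := (le_max_right _ _).trans hD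
      have h2 : D ≤ D * I := Nat.le_mul_of_pos_right D (by omega)
      exact_mod_cast h1.trans h2
    rw [abs_lt] at hnN
    -- the solution
    have hi : ∃ i : Fin (D * I), (((i : ℕ) : ℤ) + n = 0 ∨ ((i : ℕ) : ℤ) + n = (D * I : ℕ)) := by
      by_cases hn0 : n ≤ 0
      · exact ⟨⟨(-n).toNat, by omega⟩, Or.inl (by simp only; omega)⟩
      · exact ⟨⟨((D * I : ℕ) - n).toNat, by omega⟩, Or.inr (by simp only; omega)⟩
    obtain ⟨i, hi⟩ := hi
    refine ⟨i, ?_, ?_⟩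
    · simp only
      have e1 : l ^ (i : ℕ) * a = l ^ (((i : ℕ) : ℤ) + n) * a0 := by
        rw [hn, zpow_add₀ hl0.ne', zpow_natCast, mul_assoc]
      rcases hi with hi | hi
      · refine ⟨0, zero_mem _, ?_⟩
        rw [e1, hi, zpow_zero, one_mul, sub_self, mul_zero]
      · refine ⟨a0, mem_AA hI hl ha0, ?_⟩
        rw [e1, hi, zpow_natCast, mul_comm D I, pow_mul, hl]
        have : (Q : ℝ) ^ D = M + 1 := by exact_mod_cast hM
        rw [this]
        ring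
    · intro i' hi'
      have h2 := h0 D ((le_max_left _ _).trans hD) M hM a ha a0 ha0 i' i'.2 hi'
      have e1 : l ^ (i' : ℕ) * a = l ^ (((i' : ℕ) : ℤ) + n) * a0 := by
        rw [hn, zpow_add₀ hl0.ne', zpow_natCast, mul_assoc]
      rw [e1] at h2
      have h3 : ((i' : ℕ) : ℤ) + n = 0 ∨ ((i' : ℕ) : ℤ) + n = (D * I : ℕ) := by
        rcases h2 with h2 | h2
        · left
          apply hinj
          rw [h2, zpow_zero, one_mul]
        · right
          apply hinj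
          rw [h2, zpow_natCast]
      have h4 := i.2
      have h5 := i'.2
      apply Fin.ext
      omega
  · intro hno i hi
    apply hno
    have h2 := h0 D ((le_max_left _ _).trans hD) M hM a ha a0 ha0 i i.2 hi
    rcases h2 with h2 | h2
    · refine ⟨-((i : ℕ) : ℤ), ?_⟩
      rw [zpow_neg, zpow_natCast, ← h2, inv_mul_cancel_left₀ (pow_ne_zero _ hl0.ne')]
    · refine ⟨(D * I : ℕ) - ((i : ℕ) : ℤ), ?_⟩
      rw [zpow_sub₀ hl0.ne', zpow_natCast, zpow_natCast, div_mul_eq_mul_div, ← h2,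
        mul_div_cancel_left₀ _ (pow_ne_zero _ hl0.ne')]

end

end Pool.Agent.K1H5.PL
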