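import Mathlib
import Pool.Agent.K1H5.PL.Key
import Pool.Agent.K1H5.PL.RF
import Pool.Agent.K1H5.PL.Sep

set_option autoImplicit false

/-!
Vanishing of the rank at elements of a normal subgroup on which some element acts as a power map.
-/

namespace Pool.Agent.K1H5.PL

open Matrix MonoidAlgebra
open Pool.Agent.H23R2.Cyc (ell ell_single ell_mul_comm ell_eq_sum tf tf_apply tf_eq_zero)
open Pool.Agent.H26R2.IdemLI (ch ch_coeff)
open Pool.Agent.H26R2.Bass

section four

variable {V E : Type*} [AddCommGroup V] [Finite V] [Field E] [Finite E] {M : ℕ}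

open Classical in
/-- orthogonality -/
lemma four (hM1 : 1 ≤ M) (hM : Nat.card E = M + 1) (hV : ∀ v : V, M • v = 0) :
    ((Nat.card V : ℕ) : E) ≠ 0 ∧ ∃ S : Finset (Multiplicative V →* Eˣ), ∀ w : V,
      ∑ χ ∈ S, ((χ (Multiplicative.ofAdd w) : Eˣ) : E) = if w = 0 then ((Nat.card V : ℕ) : E) else 0 := by
  classical
  have hFE : Fintype E := Fintype.ofFinite E
  have hM0 : NeZero M := ⟨by omega⟩
  have hcard : Nat.card Eˣ = M := by
    rw [Nat.card_eq_fintype_card, Fintype.card_units, ← Nat.card_eq_fintype_card, hM]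
    omega
  have hroots : HasEnoughRootsOfUnity E M := by
    apply HasEnoughRootsOfUnity.of_card_le
    have : rootsOfUnity M E = ⊤ := by
      rw [eq_top_iff]
      intro x _
      rw [mem_rootsOfUnity, ← hcard]
      exact pow_card_eq_one'
    rw [this, Nat.card_congr (Subgroup.topEquiv.toEquiv), hcard]
  have hexp : Monoid.exponent (Multiplicative V) ∣ M := by
    apply Monoid.exponent_dvd_of_forall_pow_eq_one
    intro g
    have := hV (Multiplicative.toAdd g)
    exact this
  have hroots' : HasEnoughRootsOfUnity E (Monoid.exponent (Multiplicative V)) :=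
    HasEnoughRootsOfUnity.of_dvd E hexp
  have hfin : Finite (Multiplicative V →* Eˣ) := by
    obtain ⟨e⟩ := CommGroup.monoidHom_mulEquiv_of_hasEnoughRootsOfUnity (Multiplicative V) E
    exact Finite.of_equiv _ e.symm.toEquiv
  have hft : Fintype (Multiplicative V →* Eˣ) := Fintype.ofFinite _
  have hcardχ : Fintype.card (Multiplicative V →* Eˣ) = Nat.card V := by
    rw [← Nat.card_eq_fintype_card,
      CommGroup.card_monoidHom_of_hasEnoughRootsOfUnity (Multiplicative V) E]
    exact Nat.card_congr Multiplicative.toAdd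
  refine ⟨?_, Finset.univ, fun w => ?_⟩
  · intro h0
    obtain ⟨p, hp⟩ := CharP.exists E
    have hpp : Fact p.Prime := ⟨CharP.char_is_prime E p⟩
    have h1 : p ∣ Nat.card V := (CharP.cast_eq_zero_iff E p _).1 h0
    obtain ⟨v, hv⟩ := exists_prime_addOrderOf_dvd_card' p h1
    have h2 : p ∣ M := by
      rw [← hv]
      exact addOrderOf_dvd_of_nsmul_eq_zero (hV v)
    have h3 : p ∣ M + 1 := by
      rw [← hM, Nat.card_eq_fintype_card]
      obtain ⟨n, _, hn⟩ := FiniteField.card E p
      rw [hn]
      exact dvd_pow_self _ n.ne_zero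
    have h4 : p ∣ 1 := (Nat.dvd_add_right h2).1 h3
    exact hpp.out.one_lt.ne' (Nat.dvd_one.1 h4)
  · by_cases hw : w = 0
    · subst hw
      simp [hcardχ]
    · rw [if_neg hw]
      obtain ⟨φ, hφ⟩ := CommGroup.exists_apply_ne_one_of_hasEnoughRootsOfUnity
        (Multiplicative V) E (a := Multiplicative.ofAdd w) (by
          intro h
          exact hw (Multiplicative.ofAdd.injective h))
      set s := ∑ χ : Multiplicative V →* Eˣ, ((χ (Multiplicative.ofAdd w) : Eˣ) : E) with hs
      have h1 : ((φ (Multiplicative.ofAdd w) : Eˣ) : E) * s = s := by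
        rw [hs, Finset.mul_sum]
        refine Fintype.sum_equiv (Equiv.mulLeft φ) _ _ (fun χ => ?_)
        simp
      by_contra hs0
      apply hφ
      apply Units.ext
      have h2 : ((φ (Multiplicative.ofAdd w) : Eˣ) : E) * s = 1 * s := by rw [h1, one_mul]
      rw [mul_right_cancel₀ hs0 h2]
      rfl

end four

section quot

variable (l : ℝ) (I : ℕ) (F : Finset ℝ) (M : ℕ)

/-- the multiples of `M` -/
def NM : AddSubgroup (AA l I F) := (nsmulAddMonoidHom M : AA l I F →+ AA l I F).range

/-- the finite quotient -/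
abbrev VV := AA l I F ⧸ NM l I F M

variable {l I F M}

lemma mk_eq_iff (x y : AA l I F) : (QuotientAddGroup.mk x : VV l I F M) = QuotientAddGroup.mk y ↔
    ∃ w ∈ AA l I F, (x : ℝ) - y = M * w := by
  rw [QuotientAddGroup.eq]
  constructor
  · rintro ⟨w, hw⟩
    refine ⟨-(w : ℝ), neg_mem w.2, ?_⟩
    have := congrArg (fun z : AA l I F => (z : ℝ)) hw
    simp only [nsmulAddMonoidHom_apply, AddSubgroup.coe_nsmul, nsmul_eq_mul, AddSubgroup.coe_add,
      AddSubgroup.coe_neg] at this
    linarith
  · rintro ⟨w, hw, h⟩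
    refine ⟨-⟨w, hw⟩, ?_⟩
    apply Subtype.ext
    simp only [nsmulAddMonoidHom_apply, AddSubgroup.coe_nsmul, nsmul_eq_mul, AddSubgroup.coe_add,
      AddSubgroup.coe_neg]
    linarith

lemma M_smul (v : VV l I F M) : M • v = 0 := by
  induction v using QuotientAddGroup.induction_on with
  | H x =>
    rw [← QuotientAddGroup.mk_nsmul, QuotientAddGroup.eq_zero_iff]
    exact ⟨x, rfl⟩

lemma finite_VV {Q D : ℕ} (hI : 1 ≤ I) (hD : 1 ≤ D) (hl : l ^ I = Q) (hM : Q ^ D = M + 1)
    (hM1 : 1 ≤ M) : Finite (VV l I F M) := by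
  have h1 : AddGroup.FG (BB l I F) := (AddGroup.fg_iff_addSubgroup_fg _).2 BB_fg
  let ι : BB l I F →+ AA l I F := AddSubgroup.inclusion (fun x hx => BB_le_AA hI hl hx)
  let π : BB l I F →+ VV l I F M := (QuotientAddGroup.mk' (NM l I F M)).comp ι
  have hsurj : Function.Surjective π := by
    intro v
    induction v using QuotientAddGroup.induction_on with
    | H x =>
      obtain ⟨c, hc⟩ := AA_eq hI hD hl hM x.2
      refine ⟨⟨_, hc⟩, ?_⟩
      change (QuotientAddGroup.mk (ι ⟨_, hc⟩) : VV l I F M) = QuotientAddGroup.mk x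
      rw [mk_eq_iff]
      refine ⟨(c : ℝ) * x, ?_, ?_⟩
      · have := AddSubgroup.nsmul_mem _ x.2 c
        rwa [nsmul_eq_mul] at this
      · change ((x : ℝ) + (M * c : ℕ) * x) - x = _
        push_cast
        ring
  have h2 : AddGroup.FG (VV l I F M) := AddGroup.fg_of_surjective hsurj
  refine AddCommGroup.finite_of_fg_isAddTorsion _ (fun v => ?_)
  rw [isOfFinAddOrder_iff_nsmul_eq_zero]
  exact ⟨M, by omega, M_smul v⟩

end quot

lemma ell_add' {R H : Type*} [CommRing R] [Group H] (f g : H → R) (x : MonoidAlgebra R H) :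
    ell (fun h => f h + g h) x = ell f x + ell g x := by
  induction x using MonoidAlgebra.induction_linear with
  | zero => simp
  | add x y hx hy => rw [map_add, map_add, map_add, hx, hy]; ring
  | single h r => rw [ell_single, ell_single, ell_single]; ring

lemma ell_smul' {R H : Type*} [CommRing R] [Group H] (c : R) (g : H → R) (x : MonoidAlgebra R H) :
    ell (fun h => c * g h) x = c * ell g x := by
  induction x using MonoidAlgebra.induction_linear with
  | zero => simp
  | add x y hx hy => rw [map_add, map_add, hx, hy]; ring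
  | single h r => rw [ell_single, ell_single]; ring

lemma ell_sum' {R H ι : Type*} [CommRing R] [Group H] (S : Finset ι) (g : ι → H → R)
    (x : MonoidAlgebra R H) :
    ell (fun h => ∑ i ∈ S, g i h) x = ∑ i ∈ S, ell (g i) x := by
  induction x using MonoidAlgebra.induction_linear with
  | zero => simp
  | add x y hx hy =>
    rw [map_add, hx, hy, ← Finset.sum_add_distrib]
    exact Finset.sum_congr rfl fun i _ => (map_add _ _ _).symm
  | single h r =>
    rw [ell_single, Finset.mul_sum]
    exact Finset.sum_congr rfl fun i _ => (ell_single _ _ _).symm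

/-- **The base case.** -/
theorem base {k : Type*} [Field k] [Finite k] {p : ℕ} [hp : Fact p.Prime] [CharP k p]
    {H : Type*} [Group H] (nu : H → ℤ) (tr : H → ℝ) {l : ℝ} {I j : ℕ} (hl1 : 1 < l) (hI : 1 ≤ I)
    (hj : 1 ≤ j) (hl : l ^ I = ((Nat.card k ^ j : ℕ) : ℝ)) (F : Finset ℝ)
    (htr : ∀ f, tr f ∈ AA l I F) (nu_mul : ∀ f g, nu (f * g) = nu f + nu g)
    (tr_mul : ∀ f g, tr (f * g) = tr f + l ^ nu f * tr g) {n : ℕ}
    (X : Matrix (Fin n) (Fin n) (MonoidAlgebra k H)) (hX : X * X = X)
    (hF : ∀ i f, (X i i).coeff f ≠ 0 → nu f = 0 → tr f ∈ F) (h0 : H)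
    (hn0 : nu h0 = 0) (ha0 : tr h0 ∈ F) (hne : tr h0 ≠ 0)
    (hconj : ∀ f, nu f = 0 → (IsConj f h0 ↔ ∃ n : ℤ, tr f = l ^ n * tr h0)) :
    tf (ind k h0) X = 0 := by
  classical
  set Q : ℕ := Nat.card k ^ j with hQdef
  have hQ : 2 ≤ Q := by
    have h1 : 1 < Nat.card k := Finite.one_lt_card
    exact le_trans h1 (Nat.le_self_pow (by omega : j ≠ 0) _)
  have hl0 : l ≠ 0 := by linarith
  obtain ⟨D0, hD0, hsep⟩ := sep_count (F := F) hI hQ hl hl1 ha0 hne
  set D : ℕ := p * D0 with hD
  have hD1 : 1 ≤ D := Nat.mul_pos hp.out.pos hD0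
  have hDD0 : D ≥ D0 := Nat.le_mul_of_pos_left D0 hp.out.pos
  obtain ⟨M, hM⟩ : ∃ M, Q ^ D = M + 1 := ⟨Q ^ D - 1, by
    have := Nat.one_le_pow D Q (by omega)
    omega⟩
  have hM1 : 1 ≤ M := by
    have : 2 ≤ Q ^ D := hQ.trans (Nat.le_self_pow (by omega) Q)
    omega
  obtain ⟨E, _, _, _, φ, hcard, hφ⟩ := exists_ext k hj hD1
  have hFE : Fintype E := Fintype.ofFinite E
  have hφk : ∀ a : k, φ (algebraMap k E a) = algebraMap k E a := by
    intro a
    have hFk : Fintype k := Fintype.ofFinite k
    have h1 : ∀ (t : ℕ), a ^ (Nat.card k ^ t) = a := by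
      intro t
      rw [Nat.card_eq_fintype_card]
      exact FiniteField.pow_card_pow t a
    rw [hφ, ← map_pow, h1]
  have hφD : ∀ x, (φ ^ D) x = x := by
    intro x
    have h1 : ∀ (t : ℕ) (x : E), (φ ^ t) x = x ^ (Q ^ t) := by
      intro t
      induction t with
      | zero => intro x; simp
      | succ t ih =>
        intro x
        rw [pow_succ, RingHom.mul_def, RingHom.comp_apply, ih, hφ, ← pow_mul, pow_succ, mul_comm]
    rw [h1]
    have h2 : Q ^ D = Fintype.card E := by rw [← Nat.card_eq_fintype_card, hcard]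
    rw [h2]
    exact FiniteField.pow_card x
  -- the algebra
  let Kf := RatFunc E
  letI alg : Algebra k Kf := ((RatFunc.C : E →+* RatFunc E).comp (algebraMap k E)).toAlgebra
  have halg : ∀ a : k, algebraMap k Kf a = RatFunc.C (algebraMap k E a) := fun a => rfl
  have hchar : CharP Kf p := charP_of_injective_algebraMap (algebraMap k Kf).injective p
  -- the finite group
  have hfinV := finite_VV (F := F) hI hD1 hl hM hM1
  obtain ⟨hV0, S, hS⟩ := four (V := VV l I F M) (E := E) hM1
    (by rw [hcard]; exact hM) (fun v => M_smul v)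
  let w : H → ℤ → VV l I F M := fun f i => QuotientAddGroup.mk ⟨l ^ i * tr f, zpow_AA hl0 (htr f) i⟩
  have hnu1 : nu 1 = 0 := by
    have := nu_mul 1 1
    rw [mul_one] at this
    omega
  have htr1 : tr 1 = 0 := by
    have := tr_mul 1 1
    rw [mul_one, hnu1, zpow_zero, one_mul] at this
    linarith
  have hw1 : ∀ i, w 1 i = 0 := by
    intro i
    have : (⟨l ^ i * tr 1, zpow_AA hl0 (htr 1) i⟩ : AA l I F) = 0 := by
      apply Subtype.ext
      simp [htr1]
    change (QuotientAddGroup.mk (⟨l ^ i * tr 1, zpow_AA hl0 (htr 1) i⟩ : AA l I F) : VV l I F M) = 0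
    rw [this]
    rfl
  have hwmul : ∀ f g i, w (f * g) i = w f i + w g (i + nu f) := by
    intro f g i
    change (QuotientAddGroup.mk (⟨l ^ i * tr (f * g), _⟩ : AA l I F) : VV l I F M) =
      QuotientAddGroup.mk ((⟨l ^ i * tr f, _⟩ : AA l I F) + ⟨l ^ (i + nu f) * tr g, _⟩)
    congr 1
    apply Subtype.ext
    simp only [AddSubgroup.coe_add]
    rw [tr_mul, zpow_add₀ hl0]
    ring
  have hwI : ∀ f i, w f (i + I) = Q • w f i := by
    intro f i
    change (QuotientAddGroup.mk (⟨l ^ (i + (I : ℤ)) * tr f, _⟩ : AA l I F) : VV l I F M) =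
      QuotientAddGroup.mk (Q • (⟨l ^ i * tr f, _⟩ : AA l I F))
    congr 1
    apply Subtype.ext
    simp only [AddSubgroup.coe_nsmul, nsmul_eq_mul]
    rw [zpow_add₀ hl0, zpow_natCast, hl]
    ring
  have hwm : ∀ f i, w f (i + (D * I : ℕ)) = w f i := by
    intro f i
    change (QuotientAddGroup.mk (⟨l ^ (i + ((D * I : ℕ) : ℤ)) * tr f, _⟩ : AA l I F) : VV l I F M) =
      QuotientAddGroup.mk (⟨l ^ i * tr f, _⟩ : AA l I F)
    rw [mk_eq_iff]
    refine ⟨l ^ i * tr f, zpow_AA hl0 (htr f) i, ?_⟩
    simp only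
    have h1 : l ^ (D * I) = (M : ℝ) + 1 := by
      rw [mul_comm, pow_mul, hl]
      exact_mod_cast hM
    rw [zpow_add₀ hl0, zpow_natCast, h1]
    ring
  let C : (Multiplicative (VV l I F M) →* Eˣ) → Coc Kf H (D * I) := fun χ =>
    { nu := nu
      c := fun f i => RatFunc.C ((χ (Multiplicative.ofAdd (w f i)) : Eˣ) : E)
      nu_one := hnu1
      nu_mul := nu_mul
      c_one := by
        intro i
        rw [hw1]
        simp
      c_mul := by
        intro f g i
        rw [hwmul, ofAdd_add, map_mul, Units.val_mul, map_mul]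
      c_per := by
        intro f i
        rw [hwm] }
  have hm : 0 < D * I := Nat.mul_pos hD1 hI
  have hz : (RatFunc.X : Kf) ≠ 0 := RatFunc.X_ne_zero
  -- the matrix over the large field
  set Y := X.map (ch (algebraMap k Kf) H) with hY
  have hYY : Y * Y = Y := by rw [hY, ← Matrix.map_mul, hX]
  set x := ∑ i, Y i i with hx
  have hpu : ¬ IsUnit ((p : ℕ) : Kf) := by
    rw [CharP.cast_eq_zero]
    exact not_isUnit_zero
  have hnuconj : ∀ a b, IsConj a b → nu a = nu b := by
    intro a b hab
    obtain ⟨c, hc⟩ := isConj_iff.1 hab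
    have h1 := nu_mul c c⁻¹
    rw [mul_inv_cancel, hnu1] at h1
    rw [← hc, nu_mul, nu_mul]
    omega
  have hnupow : ∀ (f : H) (t : ℕ), nu (f ^ t) = t * nu f := by
    intro f t
    induction t with
    | zero => simp [hnu1]
    | succ t ih => rw [pow_succ, nu_mul, ih]; push_cast; ring
  have hF0 : ∀ χ, ell (fun f => if nu f = 0 then ((C χ).rho hm hz f).trace else 0) x = 0 := by
    intro χ
    obtain ⟨r, hDr, hr⟩ := key (k := k) (C χ) hm (I := I) (D := D) rfl hz (sg φ)
      (fun y : Kf => y.intDegree) (sg_X φ) (fun a => by rw [halg, sg_C, hφk])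
      (fun y => by
        rw [sg_pow]
        have : φ ^ D = RingHom.id E := RingHom.ext hφD
        rw [this, sg_id])
      (fun a b ha hb => RatFunc.intDegree_mul ha hb) (sg_deg φ) RatFunc.intDegree_X
      (fun f i => by
        simp only [C]
        rw [hwI, sg_C, hφ, ofAdd_nsmul, map_pow, Units.val_pow_eq_pow_val]) X hX
    have hr0 : ((r : ℕ) : Kf) = 0 := (CharP.cast_eq_zero_iff Kf p r).2
      ((Dvd.intro _ rfl : p ∣ D).trans hDr)
    rw [hr0, tf_apply, ← map_sum] at hr
    have h1 : ell (fun f => if nu f = 0 then 0 else ((C χ).rho hm hz f).trace) x = 0 := by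
      apply ell_class
      · intro a b hab
        have h2 := hnuconj a b hab
        have h3 : ((C χ).rho hm hz a).trace = ((C χ).rho hm hz b).trace := by
          obtain ⟨c, hc⟩ := isConj_iff.1 hab
          rw [← hc, map_mul, Matrix.trace_mul_comm, ← map_mul]
          congr 2
          group
        simp only [h2, h3]
      · intro f hf
        have hnf : nu f ≠ 0 := by
          intro h
          apply hf
          simp [h]
        have h2 := tf_zero_of_prime hp.out hpu Y hYY f (by
          intro t ht hc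
          have h3 := hnuconj _ _ hc
          rw [hnupow] at h3
          have h4 : (1 : ℤ) < ((p ^ t : ℕ) : ℤ) := by
            exact_mod_cast Nat.one_lt_pow (by omega) hp.out.one_lt
          have h5 : (((p ^ t : ℕ) : ℤ) - 1) * nu f = 0 := by linarith
          rcases mul_eq_zero.1 h5 with h6 | h6
          · omega
          · exact hnf h6)
        rw [tf_apply, ← map_sum] at h2
        exact h2
    have h2 : (fun f => ((C χ).rho hm hz f).trace) =
        fun f => (if nu f = 0 then ((C χ).rho hm hz f).trace else 0) +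
          if nu f = 0 then 0 else ((C χ).rho hm hz f).trace := by
      funext f
      split_ifs <;> simp
    rw [h2, ell_add', h1, add_zero] at hr
    exact hr
  -- summing over the characters
  let v0 : VV l I F M := w h0 0
  have hsum : ell (fun f => ∑ χ ∈ S, RatFunc.C ((χ (Multiplicative.ofAdd (-v0)) : Eˣ) : E) *
      (if nu f = 0 then ((C χ).rho hm hz f).trace else 0)) x = 0 := by
    rw [ell_sum']
    apply Finset.sum_eq_zero
    intro χ _
    rw [ell_smul', hF0, mul_zero]
  have hval : ∀ f, nu f = 0 → ∑ χ ∈ S, RatFunc.C ((χ (Multiplicative.ofAdd (-v0)) : Eˣ) : E) *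
      (if nu f = 0 then ((C χ).rho hm hz f).trace else 0) =
      ∑ i : Fin (D * I), if w f ((i : ℕ) : ℤ) = v0 then
        (RatFunc.C ((Nat.card (VV l I F M) : ℕ) : E) : Kf) else 0 := by
    intro f hf
    have h1 : ∀ χ ∈ S, RatFunc.C ((χ (Multiplicative.ofAdd (-v0)) : Eˣ) : E) *
        (if nu f = 0 then ((C χ).rho hm hz f).trace else 0) =
        ∑ i : Fin (D * I), (RatFunc.C ((χ (Multiplicative.ofAdd
          (w f ((i : ℕ) : ℤ) - v0)) : Eˣ) : E) : Kf) := by
      intro χ _
      rw [if_pos hf, Coc.trace_zero _ _ _ hf, Finset.mul_sum]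
      refine Finset.sum_congr rfl fun i _ => ?_
      simp only [C]
      rw [← map_mul, ← Units.val_mul, ← map_mul, ← ofAdd_add, sub_eq_neg_add]
    rw [Finset.sum_congr rfl h1, Finset.sum_comm]
    refine Finset.sum_congr rfl fun i _ => ?_
    rw [← map_sum, hS]
    by_cases h2 : w f ((i : ℕ) : ℤ) = v0
    · rw [if_pos h2, if_pos (sub_eq_zero.2 h2)]
    · rw [if_neg h2, if_neg (fun h3 => h2 (sub_eq_zero.1 h3)), map_zero]
  have hcount : ∀ f, nu f = 0 → tr f ∈ F →
      (∑ i : Fin (D * I), if w f ((i : ℕ) : ℤ) = v0 then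
        (RatFunc.C ((Nat.card (VV l I F M) : ℕ) : E) : Kf) else 0) =
      RatFunc.C ((Nat.card (VV l I F M) : ℕ) : E) * ind Kf h0 f := by
    intro f hf hfF
    have hiff : ∀ i : Fin (D * I), w f ((i : ℕ) : ℤ) = v0 ↔ ∃ y ∈ AA l I F,
        l ^ (i : ℕ) * tr f - tr h0 = M * y := by
      intro i
      change (QuotientAddGroup.mk (⟨l ^ (((i : ℕ) : ℤ)) * tr f, _⟩ : AA l I F) : VV l I F M) =
        QuotientAddGroup.mk (⟨l ^ (0 : ℤ) * tr h0, _⟩ : AA l I F) ↔ _
      rw [mk_eq_iff]
      simp only [zpow_natCast, zpow_zero, one_mul]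
    obtain ⟨hs1, hs2⟩ := hsep D hDD0 M hM (tr f) hfF
    unfold ind
    by_cases hc : IsConj f h0
    · obtain ⟨i0, hi0, huniq⟩ := hs1 ((hconj f hf).1 hc)
      rw [if_pos hc, mul_one, Finset.sum_eq_single i0]
      · rw [if_pos ((hiff i0).2 hi0)]
      · intro i _ hi
        rw [if_neg]
        intro h3
        exact hi (huniq i ((hiff i).1 h3))
      · intro h
        exact absurd (Finset.mem_univ _) h
    · have hno := hs2 (fun h => hc ((hconj f hf).2 h))
      rw [if_neg hc, mul_zero]
      apply Finset.sum_eq_zero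
      intro i _
      rw [if_neg]
      intro h3
      exact hno i ((hiff i).1 h3)
  have hfinal : ell (fun f => RatFunc.C ((Nat.card (VV l I F M) : ℕ) : E) * ind Kf h0 f) x = 0 := by
    have hs : ∀ y, x.coeff y ≠ 0 → y ∈ x.coeff.support := fun y hy => Finsupp.mem_support_iff.2 hy
    rw [ell_eq_sum _ _ _ hs] at hsum ⊢
    rw [← hsum]
    refine Finset.sum_congr rfl fun f hf => ?_
    congr 1
    by_cases hnf : nu f = 0
    · have hfF : tr f ∈ F := by
        have h1 : x.coeff f ≠ 0 := Finsupp.mem_support_iff.1 hf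
        have h2 : ∃ i, (X i i).coeff f ≠ 0 := by
          by_contra hcon
          push Not at hcon
          apply h1
          rw [hx, coeff_sum, Finsupp.finsetSum_apply]
          apply Finset.sum_eq_zero
          intro i _
          rw [hY, Matrix.map_apply, ch_coeff, hcon i, map_zero]
        obtain ⟨i, hi⟩ := h2
        exact hF i f hi hnf
      rw [hval f hnf, hcount f hnf hfF]
    · have h1 : ind Kf h0 f = 0 := by
        unfold ind
        rw [if_neg]
        intro hc
        exact hnf ((hnuconj _ _ hc).trans hn0)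
      rw [h1, mul_zero]
      symm
      apply Finset.sum_eq_zero
      intro χ _
      rw [if_neg hnf, mul_zero]
  rw [ell_smul'] at hfinal
  have hV1 : (RatFunc.C ((Nat.card (VV l I F M) : ℕ) : E) : Kf) ≠ 0 := by
    intro h
    apply hV0
    exact RatFunc.C_injective (by rw [h, map_zero])
  have h1 : ell (ind Kf h0) x = 0 := (mul_eq_zero.1 hfinal).resolve_left hV1
  have h2 : tf (ind Kf h0) Y = 0 := by
    rw [tf_apply, ← map_sum]
    exact h1
  rw [hY, tf_ch] at h2
  exact (algebraMap k Kf).injective (by rw [h2, map_zero])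

end Pool.Agent.K1H5.PL
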