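import Mathlib

set_option autoImplicit false

/-!
Germs of piecewise linear homeomorphisms of the line: one-sided slopes, and fixed points of
homeomorphisms that are conjugate to a proper power.
-/

namespace Pool.Agent.K1H5.PL

open Set

/-- `f` is affine on `[x, y]`. -/
def AffOn (f : ℝ → ℝ) (x y : ℝ) : Prop := ∃ a b : ℝ, ∀ z ∈ Icc x y, f z = a * z + b

/-- One-sided slope: `f (x + s u) = f x + s a u` for small `u ≥ 0` (`s = 1` or `s = -1`). -/
def SG (s : ℝ) (f : ℝ → ℝ) (x a : ℝ) : Prop :=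
  0 < a ∧ ∃ ε : ℝ, 0 < ε ∧ ∀ u : ℝ, 0 ≤ u → u ≤ ε → f (x + s * u) = f x + s * (a * u)

lemma SG.unique {s : ℝ} (hs : s ≠ 0) {f : ℝ → ℝ} {x a b : ℝ} (h1 : SG s f x a) (h2 : SG s f x b) :
    a = b := by
  obtain ⟨_, ε, hε, h1⟩ := h1
  obtain ⟨_, δ, hδ, h2⟩ := h2
  have hm : 0 < min ε δ := lt_min hε hδ
  have e1 := h1 (min ε δ) hm.le (min_le_left _ _)
  have e2 := h2 (min ε δ) hm.le (min_le_right _ _)
  rw [e1] at e2
  have e3 : s * (a * min ε δ) = s * (b * min ε δ) := by linarith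
  exact mul_right_cancel₀ hm.ne' (mul_left_cancel₀ hs e3)

lemma SG.comp {s : ℝ} {f g : ℝ → ℝ} {x a b : ℝ} (hg : SG s g x a) (hf : SG s f (g x) b) :
    SG s (f ∘ g) x (b * a) := by
  obtain ⟨ha, ε, hε, h1⟩ := hg
  obtain ⟨hb, δ, hδ, h2⟩ := hf
  refine ⟨mul_pos hb ha, min ε (δ / a), lt_min hε (div_pos hδ ha), fun u hu hu' => ?_⟩
  have e1 := h1 u hu (hu'.trans (min_le_left _ _))
  have e2 : a * u ≤ δ := by
    have := hu'.trans (min_le_right _ _)
    rw [le_div_iff₀ ha] at this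
    linarith
  have e3 := h2 (a * u) (mul_nonneg ha.le hu) e2
  simp only [Function.comp]
  rw [e1, e3]
  ring

lemma SG.one (s x : ℝ) : SG s id x 1 := ⟨one_pos, 1, one_pos, fun u _ _ => by simp⟩

lemma SG.mul {s : ℝ} {f g : ℝ ≃o ℝ} {x a b : ℝ} (hg : SG s g x a) (hf : SG s f (g x) b) :
    SG s (f * g : ℝ ≃o ℝ) x (b * a) := by
  have h := SG.comp (f := f) (g := g) hg hf
  exact h

lemma SG.inv {s : ℝ} {f : ℝ ≃o ℝ} {x a : ℝ} (hf : SG s f x a) :
    SG s (f⁻¹ : ℝ ≃o ℝ) (f x) a⁻¹ := by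
  obtain ⟨ha, ε, hε, h1⟩ := hf
  refine ⟨inv_pos.2 ha, a * ε, mul_pos ha hε, fun u hu hu' => ?_⟩
  have e1 := h1 (a⁻¹ * u) (mul_nonneg (inv_pos.2 ha).le hu) (by
    rw [inv_mul_le_iff₀ ha]
    exact hu')
  have e2 : a * (a⁻¹ * u) = u := by field_simp
  rw [e2] at e1
  rw [← e1, RelIso.inv_apply_self, RelIso.inv_apply_self]

lemma SG.pow {s : ℝ} {f : ℝ ≃o ℝ} {x a : ℝ} (hx : f x = x) (hf : SG s f x a) (m : ℕ) :
    SG s (f ^ m : ℝ ≃o ℝ) x (a ^ m) := by
  induction m with
  | zero => simpa using SG.one s x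
  | succ m ih =>
    rw [pow_succ, pow_succ]
    refine SG.mul hf ?_
    rw [hx]
    exact ih

lemma pow_fix {f : ℝ ≃o ℝ} {x : ℝ} (hx : f x = x) (m : ℕ) : (f ^ m) x = x := by
  induction m with
  | zero => rfl
  | succ m ih => rw [pow_succ, RelIso.mul_apply, hx, ih]

/-- one-sided slopes exist at all points -/
def HasG (f : ℝ ≃o ℝ) : Prop := ∀ x : ℝ, (∃ a, SG 1 f x a) ∧ ∃ a, SG (-1) f x a

/-- the set of one-sided slopes at fixed points -/
def Lam (s : ℝ) (f : ℝ ≃o ℝ) : Set ℝ := {a | ∃ x : ℝ, f x = x ∧ SG s f x a}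

/-- a finite set of positive numbers that is closed under taking `m`-th powers, `m ≥ 2`, is
contained in `{1}` -/
lemma eq_one_of_pow_mem {Λ : Set ℝ} (hf : Λ.Finite) {m : ℕ} (hm : 2 ≤ m)
    (h : ∀ a ∈ Λ, a ^ m ∈ Λ) {a : ℝ} (ha : a ∈ Λ) (h0 : 0 < a) : a = 1 := by
  by_contra hne
  have h1 : ∀ k : ℕ, a ^ m ^ k ∈ Λ := by
    intro k
    induction k with
    | zero => simpa using ha
    | succ k ih =>
      rw [pow_succ, pow_mul]
      exact h _ ih
  have h2 : Function.Injective fun k : ℕ => a ^ m ^ k := by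
    intro k l hkl
    have h3 : m ^ k = m ^ l := pow_right_injective₀ h0 hne hkl
    exact Nat.pow_right_injective hm h3
  exact Set.infinite_of_injective_forall_mem h2 h1 hf

/-- slopes at fixed points are `1` for a homeomorphism conjugate to a proper power -/
lemma lam_eq_one {s : ℝ} {g t : ℝ ≃o ℝ} {m : ℕ} (hm : 2 ≤ m)
    (htg : t * g * t⁻¹ = g ^ m) (ht : ∀ x, ∃ a, SG s t x a) (hfin : (Lam s g).Finite) {x a : ℝ}
    (hx : g x = x) (ha : SG s g x a) : a = 1 := by
  refine eq_one_of_pow_mem hfin hm ?_ (a := a) ⟨x, hx, ha⟩ ha.1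
  rintro b ⟨y, hy, hb⟩
  have h1 : SG s (g ^ m : ℝ ≃o ℝ) y (b ^ m) := SG.pow hy hb m
  have h2 : (g ^ m) y = y := pow_fix hy m
  have e : g = t⁻¹ * g ^ m * t := by rw [← htg]; group
  refine ⟨t⁻¹ y, ?_, ?_⟩
  · have h3 : (t * g * t⁻¹) y = y := by rw [htg, h2]
    rw [RelIso.mul_apply, RelIso.mul_apply] at h3
    calc g (t⁻¹ y) = t⁻¹ (t (g (t⁻¹ y))) := (RelIso.inv_apply_self _ _).symm
      _ = t⁻¹ y := by rw [h3]
  · obtain ⟨c, hc⟩ := ht (t⁻¹ y)
    have h5 : t (t⁻¹ y) = y := RelIso.apply_inv_self _ _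
    have h6 : SG s (g ^ m * t : ℝ ≃o ℝ) (t⁻¹ y) (b ^ m * c) := SG.mul hc (by rw [h5]; exact h1)
    have h7 : (g ^ m * t : ℝ ≃o ℝ) (t⁻¹ y) = t (t⁻¹ y) := by
      rw [RelIso.mul_apply, h5, h2]
    have h8 : SG s (t⁻¹ * (g ^ m * t) : ℝ ≃o ℝ) (t⁻¹ y) (c⁻¹ * (b ^ m * c)) :=
      SG.mul h6 (by rw [h7]; exact hc.inv)
    have h9 : c⁻¹ * (b ^ m * c) = b ^ m := by
      have := hc.1.ne'
      field_simp
    rw [h9] at h8
    rw [e, mul_assoc]
    exact h8

/-- a homeomorphism conjugate to a proper power and with finitely many slopes at fixed points has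
no fixed points or is trivial -/
lemma eq_one_of_fix {g t : ℝ ≃o ℝ} {m : ℕ} (hm : 2 ≤ m)
    (htg : t * g * t⁻¹ = g ^ m) (hg : HasG g) (ht : HasG t) (h1 : (Lam 1 g).Finite)
    (h2 : (Lam (-1) g).Finite) {x : ℝ} (hx : g x = x) : g = 1 := by
  have key : ∀ y, g y = y → ∃ ε : ℝ, 0 < ε ∧ ∀ z, |z - y| < ε → g z = z := by
    intro y hy
    obtain ⟨⟨a, ha⟩, ⟨b, hb⟩⟩ := hg y
    have ea := lam_eq_one hm htg (fun x => (ht x).1) h1 hy ha
    have eb := lam_eq_one hm htg (fun x => (ht x).2) h2 hy hb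
    subst ea eb
    obtain ⟨_, ε, hε, h3⟩ := ha
    obtain ⟨_, δ, hδ, h4⟩ := hb
    refine ⟨min ε δ, lt_min hε hδ, fun z hz => ?_⟩
    rcases le_total y z with h | h
    · have h5 := h3 (z - y) (by linarith) (by
        have := hz.le.trans (min_le_left _ _)
        exact (le_abs_self _).trans this)
      rw [hy] at h5
      have e1 : y + 1 * (z - y) = z := by ring
      have e2 : y + 1 * (1 * (z - y)) = z := by ring
      rw [e1, e2] at h5
      exact h5
    · have h5 := h4 (y - z) (by linarith) (by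
        have := hz.le.trans (min_le_right _ _)
        rw [abs_sub_comm] at this
        exact (le_abs_self _).trans this)
      rw [hy] at h5
      have e1 : y + -1 * (y - z) = z := by ring
      have e2 : y + -1 * (1 * (y - z)) = z := by ring
      rw [e1, e2] at h5
      exact h5
  have hcl : IsClopen {y : ℝ | g y = y} := by
    refine ⟨isClosed_eq g.continuous continuous_id, ?_⟩
    rw [Metric.isOpen_iff]
    intro y hy
    obtain ⟨ε, hε, h⟩ := key y hy
    refine ⟨ε, hε, fun z hz => h z ?_⟩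
    rwa [Metric.mem_ball, Real.dist_eq] at hz
  have huniv := hcl.eq_univ ⟨x, hx⟩
  ext y
  have : y ∈ {y : ℝ | g y = y} := by rw [huniv]; trivial
  exact this

/-- an interval that has no point of a finite set near its left end point -/
lemma exists_right (S : Finset ℝ) (x : ℝ) : ∃ ε : ℝ, 0 < ε ∧ ∀ s ∈ S, s ∉ Ioo x (x + ε) := by
  induction S using Finset.induction_on with
  | empty => exact ⟨1, one_pos, by simp⟩
  | insert a S _ ih =>
    obtain ⟨ε, hε, h⟩ := ih
    by_cases ha : x < a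
    · refine ⟨min ε (a - x), lt_min hε (by linarith), ?_⟩
      intro s hs hs'
      rcases Finset.mem_insert.1 hs with rfl | hs
      · have := hs'.2
        have h3 := min_le_right ε (s - x)
        linarith
      · exact h s hs ⟨hs'.1, hs'.2.trans_le (by linarith [min_le_left ε (a - x)])⟩
    · refine ⟨ε, hε, ?_⟩
      intro s hs hs'
      rcases Finset.mem_insert.1 hs with rfl | hs
      · exact ha hs'.1
      · exact h s hs hs'

lemma exists_left (S : Finset ℝ) (x : ℝ) : ∃ ε : ℝ, 0 < ε ∧ ∀ s ∈ S, s ∉ Ioo (x - ε) x := by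
  induction S using Finset.induction_on with
  | empty => exact ⟨1, one_pos, by simp⟩
  | insert a S _ ih =>
    obtain ⟨ε, hε, h⟩ := ih
    by_cases ha : a < x
    · refine ⟨min ε (x - a), lt_min hε (by linarith), ?_⟩
      intro s hs hs'
      rcases Finset.mem_insert.1 hs with rfl | hs
      · have := hs'.1
        have h3 := min_le_right ε (x - s)
        linarith
      · exact h s hs ⟨lt_of_le_of_lt (by linarith [min_le_left ε (x - a)]) hs'.1, hs'.2⟩
    · refine ⟨ε, hε, ?_⟩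
      intro s hs hs'
      rcases Finset.mem_insert.1 hs with rfl | hs
      · exact ha hs'.2
      · exact h s hs hs'

/-- the slope of an affine piece is positive and is the one-sided slope -/
lemma sg_of_affOn_right {f : ℝ ≃o ℝ} {x ε a b : ℝ} (hε : 0 < ε)
    (h : ∀ z ∈ Icc x (x + ε), f z = a * z + b) : SG 1 f x a := by
  have e0 := h x ⟨le_rfl, by linarith⟩
  have e1 := h (x + ε) ⟨by linarith, le_rfl⟩
  have h1 : f x < f (x + ε) := f.strictMono (by linarith)
  have ha : 0 < a := by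
    rw [e0, e1] at h1
    have : 0 < a * ε := by nlinarith
    exact (pos_iff_pos_of_mul_pos this).2 hε
  refine ⟨ha, ε, hε, fun u hu hu' => ?_⟩
  rw [h (x + 1 * u) ⟨by linarith, by linarith⟩, e0]
  ring

lemma sg_of_affOn_left {f : ℝ ≃o ℝ} {x ε a b : ℝ} (hε : 0 < ε)
    (h : ∀ z ∈ Icc (x - ε) x, f z = a * z + b) : SG (-1) f x a := by
  have e0 := h x ⟨by linarith, le_rfl⟩
  have e1 := h (x - ε) ⟨le_rfl, by linarith⟩
  have h1 : f (x - ε) < f x := f.strictMono (by linarith)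
  have ha : 0 < a := by
    rw [e0, e1] at h1
    have : 0 < a * ε := by nlinarith
    exact (pos_iff_pos_of_mul_pos this).2 hε
  refine ⟨ha, ε, hε, fun u hu hu' => ?_⟩
  rw [h (x + -1 * u) ⟨by linarith, by linarith⟩, e0]
  ring

/-- `f` is affine on the intervals in `D` whose interior contains no point of `S` -/
def PLOn (S : Finset ℝ) (D : Set ℝ) (f : ℝ → ℝ) : Prop :=
  ∀ x ∈ D, ∀ y ∈ D, (∀ s ∈ S, s ∉ Ioo x y) → AffOn f x y

lemma finite_right {S : Finset ℝ} {D : Set ℝ} (hD : IsOpen D) {f : ℝ ≃o ℝ}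
    (h : PLOn S D f) : {a | ∃ x ∈ D, SG 1 f x a}.Finite := by
  classical
  choose! X hX hXa using fun a (ha : a ∈ {a | ∃ x ∈ D, SG 1 f x a}) => ha
  have key : ∀ a ∈ {a | ∃ x ∈ D, SG 1 f x a}, ∀ b ∈ {a | ∃ x ∈ D, SG 1 f x a},
      (S.filter (· ≤ X a)) = (S.filter (· ≤ X b)) → X a ≤ X b → a = b := by
    intro a ha b hb hab hle
    obtain ⟨δ, hδ, hδD⟩ := Metric.isOpen_iff.1 hD (X b) (hX b hb)
    obtain ⟨ε, hε, hεS⟩ := exists_right S (X b)
    set η := min (δ / 2) ε with hη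
    have hη0 : 0 < η := lt_min (by linarith) hε
    have hy : X b + η ∈ D := hδD (by
      rw [Metric.mem_ball, Real.dist_eq]
      have := min_le_left (δ / 2) ε
      rw [abs_of_pos (by linarith)]
      linarith)
    obtain ⟨c, d, hcd⟩ := h (X a) (hX a ha) (X b + η) hy (by
      intro s hs hs'
      rcases le_or_gt s (X b) with h1 | h1
      · have h2 : s ∈ S.filter (· ≤ X b) := Finset.mem_filter.2 ⟨hs, h1⟩
        rw [← hab] at h2
        exact absurd hs'.1 (not_lt.2 (Finset.mem_filter.1 h2).2)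
      · exact hεS s hs ⟨h1, hs'.2.trans_le (by linarith [min_le_right (δ / 2) ε])⟩)
    have h3 : SG 1 f (X a) c := sg_of_affOn_right (ε := X b + η - X a) (b := d)
      (by linarith) (fun z hz => hcd z ⟨hz.1, by linarith [hz.2]⟩)
    have h4 : SG 1 f (X b) c := sg_of_affOn_right (ε := η) (b := d)
      hη0 (fun z hz => hcd z ⟨by linarith [hz.1], hz.2⟩)
    rw [(hXa a ha).unique one_ne_zero h3, (hXa b hb).unique one_ne_zero h4]
  refine Set.Finite.of_injOn (f := fun a => S.filter (· ≤ X a)) (t := (S.powerset : Set (Finset ℝ)))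
    (fun a _ => Finset.mem_coe.2 (Finset.mem_powerset.2 (Finset.filter_subset _ _))) ?_
    (Finset.finite_toSet _)
  intro a ha b hb hab
  rcases le_total (X a) (X b) with hle | hle
  · exact key a ha b hb hab hle
  · exact (key b hb a ha hab.symm hle).symm

lemma finite_left {S : Finset ℝ} {D : Set ℝ} (hD : IsOpen D) {f : ℝ ≃o ℝ}
    (h : PLOn S D f) : {a | ∃ x ∈ D, SG (-1) f x a}.Finite := by
  classical
  choose! X hX hXa using fun a (ha : a ∈ {a | ∃ x ∈ D, SG (-1) f x a}) => ha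
  have key : ∀ a ∈ {a | ∃ x ∈ D, SG (-1) f x a}, ∀ b ∈ {a | ∃ x ∈ D, SG (-1) f x a},
      (S.filter (X a ≤ ·)) = (S.filter (X b ≤ ·)) → X a ≤ X b → a = b := by
    intro a ha b hb hab hle
    obtain ⟨δ, hδ, hδD⟩ := Metric.isOpen_iff.1 hD (X a) (hX a ha)
    obtain ⟨ε, hε, hεS⟩ := exists_left S (X a)
    set η := min (δ / 2) ε with hη
    have hη0 : 0 < η := lt_min (by linarith) hε
    have hy : X a - η ∈ D := hδD (by
      rw [Metric.mem_ball, Real.dist_eq]
      have := min_le_left (δ / 2) ε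
      rw [abs_of_neg (by linarith)]
      linarith)
    obtain ⟨c, d, hcd⟩ := h (X a - η) hy (X b) (hX b hb) (by
      intro s hs hs'
      rcases le_or_gt (X a) s with h1 | h1
      · have h2 : s ∈ S.filter (X a ≤ ·) := Finset.mem_filter.2 ⟨hs, h1⟩
        rw [hab] at h2
        exact absurd hs'.2 (not_lt.2 (Finset.mem_filter.1 h2).2)
      · exact hεS s hs ⟨lt_of_le_of_lt (by linarith [min_le_right (δ / 2) ε]) hs'.1, h1⟩)
    have h3 : SG (-1) f (X b) c := sg_of_affOn_left (ε := X b - (X a - η)) (b := d)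
      (by linarith) (fun z hz => hcd z ⟨by linarith [hz.1], hz.2⟩)
    have h4 : SG (-1) f (X a) c := sg_of_affOn_left (ε := η) (b := d)
      hη0 (fun z hz => hcd z ⟨hz.1, by linarith [hz.2]⟩)
    rw [(hXa a ha).unique (by norm_num) h4, (hXa b hb).unique (by norm_num) h3]
  refine Set.Finite.of_injOn (f := fun a => S.filter (X a ≤ ·)) (t := (S.powerset : Set (Finset ℝ)))
    (fun a _ => Finset.mem_coe.2 (Finset.mem_powerset.2 (Finset.filter_subset _ _))) ?_
    (Finset.finite_toSet _)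
  intro a ha b hb hab
  rcases le_total (X a) (X b) with hle | hle
  · exact key a ha b hb hab hle
  · exact (key b hb a ha hab.symm hle).symm

lemma hasG_of_plOn {S : Finset ℝ} {D : Set ℝ} (hD : IsOpen D) {f : ℝ ≃o ℝ} (h : PLOn S D f)
    {x : ℝ} (hx : x ∈ D) : (∃ a, SG 1 f x a) ∧ ∃ a, SG (-1) f x a := by
  obtain ⟨δ, hδ, hδD⟩ := Metric.isOpen_iff.1 hD x hx
  constructor
  · obtain ⟨ε, hε, hεS⟩ := exists_right S x
    set η := min (δ / 2) ε with hη
    have hη0 : 0 < η := lt_min (by linarith) hε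
    have hy : x + η ∈ D := hδD (by
      rw [Metric.mem_ball, Real.dist_eq]
      have := min_le_left (δ / 2) ε
      rw [abs_of_pos (by linarith)]
      linarith)
    obtain ⟨c, d, hcd⟩ := h x hx (x + η) hy (fun s hs hs' => hεS s hs
      ⟨hs'.1, hs'.2.trans_le (by linarith [min_le_right (δ / 2) ε])⟩)
    exact ⟨c, sg_of_affOn_right hη0 hcd⟩
  · obtain ⟨ε, hε, hεS⟩ := exists_left S x
    set η := min (δ / 2) ε with hη
    have hη0 : 0 < η := lt_min (by linarith) hε
    have hy : x - η ∈ D := hδD (by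
      rw [Metric.mem_ball, Real.dist_eq]
      have := min_le_left (δ / 2) ε
      rw [abs_of_neg (by linarith)]
      linarith)
    obtain ⟨c, d, hcd⟩ := h (x - η) hy x hx (fun s hs hs' => hεS s hs
      ⟨lt_of_le_of_lt (by linarith [min_le_right (δ / 2) ε]) hs'.1, hs'.2⟩)
    exact ⟨c, sg_of_affOn_left hη0 hcd⟩

end Pool.Agent.K1H5.PL
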