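import Mathlib
import Pool.Agent.K1H5.PL.Germ
import Pool.Agent.H26R2.Bass.Main

set_option autoImplicit false

/-!
Groups of piecewise linear homeomorphisms of the line: germs at the two ends.
-/

namespace Pool.Agent.K1H5.PL

open Set

/-- `f` is affine near the end `s * ∞` -/
def AE (s : ℝ) (f : ℝ → ℝ) (a b : ℝ) : Prop :=
  0 < a ∧ ∃ M : ℝ, ∀ z : ℝ, M ≤ z → f (s * z) = a * (s * z) + b

lemma AE.unique {s : ℝ} (hs : s ≠ 0) {f : ℝ → ℝ} {a b a' b' : ℝ} (h1 : AE s f a b)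
    (h2 : AE s f a' b') : a = a' ∧ b = b' := by
  obtain ⟨_, M, h1⟩ := h1
  obtain ⟨_, N, h2⟩ := h2
  have e1 := h1 (max M N) (le_max_left _ _)
  have e2 := h2 (max M N) (le_max_right _ _)
  have e3 := h1 (max M N + 1) (by linarith [le_max_left M N])
  have e4 := h2 (max M N + 1) (by linarith [le_max_right M N])
  rw [e1] at e2
  rw [e3] at e4
  have h3 : a * s = a' * s := by linarith
  have h4 := mul_right_cancel₀ hs h3
  subst h4
  exact ⟨rfl, by linarith⟩

lemma AE.one (s : ℝ) : AE s ((1 : ℝ ≃o ℝ) : ℝ → ℝ) 1 0 := ⟨one_pos, 0, fun z _ => by simp⟩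

lemma AE.mul {s : ℝ} (hs : s * s = 1) {f g : ℝ ≃o ℝ} {a b c d : ℝ} (hf : AE s f a b)
    (hg : AE s g c d) : AE s (f * g : ℝ ≃o ℝ) (a * c) (a * d + b) := by
  obtain ⟨ha, M, hf⟩ := hf
  obtain ⟨hc, N, hg⟩ := hg
  refine ⟨mul_pos ha hc, max N ((M - s * d) / c), fun z hz => ?_⟩
  have h1 : N ≤ z := (le_max_left _ _).trans hz
  have h2 : M ≤ c * z + s * d := by
    have := (le_max_right N ((M - s * d) / c)).trans hz
    rw [div_le_iff₀ hc] at this
    linarith
  have h3 : c * (s * z) + d = s * (c * z + s * d) := by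
    linear_combination (-d) * hs
  rw [RelIso.mul_apply, hg z h1, h3, hf _ h2, ← h3]
  ring

lemma AE.pow {s : ℝ} (hs : s * s = 1) {g : ℝ ≃o ℝ} {a b : ℝ} (hg : AE s g a b) (m : ℕ) :
    ∃ b', AE s (g ^ m : ℝ ≃o ℝ) (a ^ m) b' := by
  induction m with
  | zero => exact ⟨0, by simpa using AE.one s⟩
  | succ m ih =>
    obtain ⟨b', hb'⟩ := ih
    rw [pow_succ, pow_succ]
    exact ⟨_, hb'.mul hs hg⟩

lemma AE.pow_one {s : ℝ} (hs : s * s = 1) {g : ℝ ≃o ℝ} {b : ℝ} (hg : AE s g 1 b) (m : ℕ) :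
    AE s (g ^ m : ℝ ≃o ℝ) 1 (m * b) := by
  induction m with
  | zero => simpa using AE.one s
  | succ m ih =>
    rw [pow_succ]
    have := ih.mul hs hg
    have e : (1 : ℝ) * b + m * b = ((m + 1 : ℕ) : ℝ) * b := by push_cast; ring
    rw [e, mul_one] at this
    exact this

/-- The homeomorphism `f` of the line is piecewise linear with finitely many breakpoints. -/
def IsPL (f : ℝ ≃o ℝ) : Prop :=
  ∃ S : Finset ℝ, ∀ x y : ℝ, (∀ s ∈ S, s ∉ Ioo x y) → ∃ a b : ℝ, ∀ z ∈ Icc x y, f z = a * z + b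

lemma IsPL.plOn {f : ℝ ≃o ℝ} (h : IsPL f) : ∃ S : Finset ℝ, PLOn S univ f := by
  obtain ⟨S, hS⟩ := h
  exact ⟨S, fun x _ y _ => hS x y⟩

lemma IsPL.hasG {f : ℝ ≃o ℝ} (h : IsPL f) : HasG f := by
  obtain ⟨S, hS⟩ := h.plOn
  exact fun x => hasG_of_plOn isOpen_univ hS (mem_univ x)

lemma IsPL.lam_right {f : ℝ ≃o ℝ} (h : IsPL f) : (Lam 1 f).Finite := by
  obtain ⟨S, hS⟩ := h.plOn
  refine (finite_right isOpen_univ hS).subset ?_
  rintro a ⟨x, _, hx⟩
  exact ⟨x, mem_univ x, hx⟩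

lemma IsPL.lam_left {f : ℝ ≃o ℝ} (h : IsPL f) : (Lam (-1) f).Finite := by
  obtain ⟨S, hS⟩ := h.plOn
  refine (finite_left isOpen_univ hS).subset ?_
  rintro a ⟨x, _, hx⟩
  exact ⟨x, mem_univ x, hx⟩

lemma IsPL.exists_pos {f : ℝ ≃o ℝ} (h : IsPL f) : ∃ a b, AE 1 f a b := by
  obtain ⟨S, hS⟩ := h
  obtain ⟨M, hM⟩ := S.bddAbove
  obtain ⟨a, b, hab⟩ := hS M (M + 1) (fun s hs hs' => by
    have := hM hs
    exact absurd hs'.1 (not_lt.2 this))
  have e0 := hab M ⟨le_rfl, by linarith⟩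
  have e1 := hab (M + 1) ⟨by linarith, le_rfl⟩
  have ha : 0 < a := by
    have h1 : f M < f (M + 1) := f.strictMono (by linarith)
    rw [e0, e1] at h1
    linarith
  refine ⟨a, b, ha, M, fun z hz => ?_⟩
  obtain ⟨a', b', hab'⟩ := hS M (max z (M + 1)) (fun s hs hs' => by
    have := hM hs
    exact absurd hs'.1 (not_lt.2 this))
  have e2 := hab' M ⟨le_rfl, hz.trans (le_max_left _ _)⟩
  have e3 := hab' (M + 1) ⟨by linarith, le_max_right _ _⟩
  have e4 := hab' z ⟨hz, le_max_left _ _⟩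
  have h1 : a' = a := by
    rw [e0] at e2
    rw [e1] at e3
    linarith
  subst h1
  have h2 : b' = b := by linarith
  subst h2
  rw [one_mul]
  exact e4

lemma IsPL.exists_neg {f : ℝ ≃o ℝ} (h : IsPL f) : ∃ a b, AE (-1) f a b := by
  obtain ⟨S, hS⟩ := h
  obtain ⟨M, hM⟩ := S.bddBelow
  obtain ⟨a, b, hab⟩ := hS (M - 1) M (fun s hs hs' => by
    have := hM hs
    exact absurd hs'.2 (not_lt.2 this))
  have e0 := hab M ⟨by linarith, le_rfl⟩
  have e1 := hab (M - 1) ⟨le_rfl, by linarith⟩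
  have ha : 0 < a := by
    have h1 : f (M - 1) < f M := f.strictMono (by linarith)
    rw [e0, e1] at h1
    linarith
  refine ⟨a, b, ha, -M, fun z hz => ?_⟩
  obtain ⟨a', b', hab'⟩ := hS (min (-z) (M - 1)) M (fun s hs hs' => by
    have := hM hs
    exact absurd hs'.2 (not_lt.2 this))
  have e2 := hab' M ⟨by linarith [min_le_right (-z) (M - 1)], le_rfl⟩
  have e3 := hab' (M - 1) ⟨min_le_right _ _, by linarith⟩
  have e4 := hab' (-z) ⟨min_le_left _ _, by linarith⟩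
  have h1 : a' = a := by
    rw [e0] at e2
    rw [e1] at e3
    linarith
  subst h1
  have h2 : b' = b := by linarith
  subst h2
  have e5 : -1 * z = -z := by ring
  rw [e5]
  exact e4

/-- If `t g t⁻¹ = g ^ m`, `m ≥ 2`, `g ≠ 1`, then `g` is a translation near each end, and `t` has
slope `m` near each end. -/
lemma slope_eq {g t : ℝ ≃o ℝ} {m : ℕ} (hm : 2 ≤ m) (htg : t * g * t⁻¹ = g ^ m) (hg : IsPL g)
    (ht : IsPL t) (hne : g ≠ 1) (s : ℝ) (hs : s = 1 ∨ s = -1) {a b c d : ℝ} (h1 : AE s g a b)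
    (h2 : AE s t c d) : a = 1 ∧ b ≠ 0 ∧ c = m := by
  have hs2 : s * s = 1 := by rcases hs with rfl | rfl <;> norm_num
  have hs0 : s ≠ 0 := by
    rintro rfl
    norm_num at hs2
  have e : t * g = g ^ m * t := by rw [← htg]; group
  obtain ⟨b', hb'⟩ := h1.pow hs2 m
  have h3 := h2.mul hs2 h1
  have h4 := hb'.mul hs2 h2
  rw [e] at h3
  obtain ⟨e1, _⟩ := h3.unique hs0 h4
  have ha : a = 1 := by
    have e2 : a ^ m = a := by
      have : c * a = c * a ^ m := by rw [e1, mul_comm]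
      exact (mul_left_cancel₀ h2.1.ne' this).symm
    by_contra hne'
    have h5 : a ^ m = a ^ 1 := by rw [e2, _root_.pow_one]
    have := pow_right_injective₀ h1.1 hne' h5
    omega
  subst ha
  have hb : b ≠ 0 := by
    rintro rfl
    obtain ⟨_, M, hM⟩ := h1
    apply hne
    refine eq_one_of_fix hm htg hg.hasG ht.hasG hg.lam_right hg.lam_left (x := s * M) ?_
    rw [hM M le_rfl]
    ring
  refine ⟨rfl, hb, ?_⟩
  have h5 := (h1.pow_one hs2 m).mul hs2 h2
  obtain ⟨_, e3⟩ := h3.unique hs0 h5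
  have e4 : c * b = m * b := by linarith
  exact mul_right_cancel₀ hb e4

section hom

variable (Γ : Subgroup (ℝ ≃o ℝ)) (hΓ : ∀ f ∈ Γ, IsPL f)

/-- the slope at the end `+∞` -/
noncomputable def slope (f : Γ) : ℝ := (hΓ f f.2).exists_pos.choose

lemma slope_spec (f : Γ) : ∃ b, AE 1 (f : ℝ ≃o ℝ) (slope Γ hΓ f) b :=
  (hΓ f f.2).exists_pos.choose_spec

lemma slope_of {f : Γ} {a b : ℝ} (h : AE 1 (f : ℝ ≃o ℝ) a b) : slope Γ hΓ f = a := by
  obtain ⟨b', hb'⟩ := slope_spec Γ hΓ f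
  exact (hb'.unique one_ne_zero h).1

/-- the slope at the end `+∞` as a homomorphism -/
noncomputable def slopeHom : Γ →* ℝˣ :=
  MonoidHom.toHomUnits
    { toFun := slope Γ hΓ
      map_one' := slope_of Γ hΓ (b := 0) (AE.one 1)
      map_mul' := by
        intro f g
        obtain ⟨b, hb⟩ := slope_spec Γ hΓ f
        obtain ⟨d, hd⟩ := slope_spec Γ hΓ g
        exact slope_of Γ hΓ (hb.mul (by norm_num) hd) }

lemma slopeHom_val (f : Γ) : ((slopeHom Γ hΓ f : ℝˣ) : ℝ) = slope Γ hΓ f := by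
  simp [slopeHom, MonoidHom.toHomUnits]

end hom

/-- auxiliary sequence -/
def cs (m : ℕ) : ℕ → ℕ
  | 0 => m
  | i + 1 => cs m i * (cs m i + 1)

lemma cs_dvd (m : ℕ) {i j : ℕ} (h : i ≤ j) : cs m i ∣ cs m j := by
  induction j, h using Nat.le_induction with
  | base => exact dvd_rfl
  | succ j _ ih => exact ih.trans (Dvd.intro _ rfl)

lemma cs_dvd' (m : ℕ) {i j : ℕ} (h : i < j) : cs m i + 1 ∣ cs m j :=
  (Dvd.intro_left _ rfl : cs m i + 1 ∣ cs m (i + 1)).trans (cs_dvd m h)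

lemma cs_pos {m : ℕ} (hm : 2 ≤ m) (i : ℕ) : 2 ≤ cs m i + 1 := by
  have : 0 < cs m i := by
    induction i with
    | zero => exact (by omega : 0 < m)
    | succ i ih => exact Nat.mul_pos ih (by omega)
  omega

/-- a finitely generated group of real numbers does not contain the `J`-th powers of all natural
numbers prime to `m` -/
lemma not_all_powers {P : Subgroup ℝˣ} (hP : P.FG) {m J : ℕ} (hm : 2 ≤ m) (hJ : 1 ≤ J)
    (h : ∀ n : ℕ, n.Coprime m → 2 ≤ n → ∃ u ∈ P, (u : ℝ) = (n : ℝ) ^ J) : False := by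
  classical
  have h1 : ∀ i, ∃ u : P, ((u : ℝˣ) : ℝ) = ((cs m i + 1 : ℕ) : ℝ) ^ J := by
    intro i
    obtain ⟨u, hu, he⟩ := h (cs m i + 1) (by
      have h2 : Nat.Coprime (cs m i + 1) (cs m i) := by simp
      exact h2.coprime_dvd_right (cs_dvd m (Nat.zero_le i))) (cs_pos hm i)
    exact ⟨⟨u, hu⟩, he⟩
  choose u hu using h1
  have : Group.FG P := (Group.fg_iff_subgroup_fg P).2 hP
  have : AddGroup.FG (Additive P) := inferInstance
  have : Module.Finite ℤ (Additive P) := Module.Finite.iff_addGroup_fg.2 inferInstance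
  let W : ℕ →o Submodule ℤ (Additive P) :=
    { toFun := fun i => Submodule.span ℤ ((fun j => Additive.ofMul (u j)) '' {j | j < i})
      monotone' := fun i j hij => Submodule.span_mono (Set.image_mono fun k hk =>
        lt_of_lt_of_le hk hij) }
  obtain ⟨n, hn⟩ := monotone_stabilizes_iff_noetherian.2
    (inferInstance : IsNoetherian ℤ (Additive P)) W
  have h2 : Additive.ofMul (u n) ∈ W n := by
    rw [hn (n + 1) (Nat.le_succ n)]
    exact Submodule.subset_span ⟨n, Nat.lt_succ_self n, rfl⟩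
  have h3 : ∀ x ∈ W n, ∃ A B : ℕ, 0 < B ∧ 0 < A ∧ A.Coprime (cs m n + 1) ∧
      B.Coprime (cs m n + 1) ∧ (((Additive.toMul x : P) : ℝˣ) : ℝ) * B = A := by
    intro x hx
    have hx' : x ∈ AddSubgroup.closure ((fun j => Additive.ofMul (u j)) '' {j | j < n}) := by
      have : x ∈ (Submodule.span ℤ ((fun j => Additive.ofMul (u j)) '' {j | j < n})).toAddSubgroup :=
        hx
      rwa [Submodule.span_int_eq_addSubgroupClosure] at this
    induction hx' using AddSubgroup.closure_induction with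
    | mem x hx1 =>
      obtain ⟨j, hj, rfl⟩ := hx1
      refine ⟨(cs m j + 1) ^ J, 1, one_pos, pow_pos (by omega) _, ?_, by simp, ?_⟩
      · apply Nat.Coprime.pow_left
        have h4 : Nat.Coprime (cs m n) (cs m n + 1) := by simp
        exact h4.coprime_dvd_left (cs_dvd' m hj)
      · simp only [toMul_ofMul]
        rw [hu j]
        push_cast
        ring
    | zero => exact ⟨1, 1, one_pos, one_pos, by simp, by simp, by simp⟩
    | add x y hx1 hy1 ihx ihy =>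
      have e : ∀ z, z ∈ AddSubgroup.closure ((fun j => Additive.ofMul (u j)) '' {j | j < n}) →
          z ∈ W n := by
        intro z hz
        change z ∈ (Submodule.span ℤ
          ((fun j => Additive.ofMul (u j)) '' {j | j < n})).toAddSubgroup
        rwa [Submodule.span_int_eq_addSubgroupClosure]
      obtain ⟨A, B, hB, hA, h5, h6, h7⟩ := ihx (e x hx1)
      obtain ⟨A', B', hB', hA', h5', h6', h7'⟩ := ihy (e y hy1)
      refine ⟨A * A', B * B', Nat.mul_pos hB hB', Nat.mul_pos hA hA', Nat.Coprime.mul_left h5 h5',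
        Nat.Coprime.mul_left h6 h6', ?_⟩
      rw [toMul_add]
      push_cast
      rw [← h7, ← h7']
      push_cast
      ring
    | neg x hx1 ihx =>
      have e : ∀ z, z ∈ AddSubgroup.closure ((fun j => Additive.ofMul (u j)) '' {j | j < n}) →
          z ∈ W n := by
        intro z hz
        change z ∈ (Submodule.span ℤ
          ((fun j => Additive.ofMul (u j)) '' {j | j < n})).toAddSubgroup
        rwa [Submodule.span_int_eq_addSubgroupClosure]
      obtain ⟨A, B, hB, hA, h5, h6, h7⟩ := ihx (e x hx1)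
      refine ⟨B, A, hA, hB, h6, h5, ?_⟩
      rw [toMul_neg, ← h7]
      have : (((Additive.toMul x : P) : ℝˣ) : ℝ) ≠ 0 := Units.ne_zero _
      push_cast
      field_simp
  obtain ⟨A, B, hB, hA, h5, _, h7⟩ := h3 _ h2
  rw [toMul_ofMul, hu n] at h7
  have h8 : (cs m n + 1) ^ J * B = A := by exact_mod_cast h7
  have h9 : (cs m n + 1) ∣ A := by
    rw [← h8]
    exact (dvd_pow_self _ (by omega)).mul_right _
  have h10 := Nat.eq_one_of_dvd_coprimes h5 h9 dvd_rfl
  have := cs_pos hm n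
  omega

open Pool.Agent.H26R2.Bass

/-- The Bass conjecture for groups of piecewise linear homeomorphisms of the line. -/
theorem bass_line {R : Type*} [CommRing R] [IsDomain R] (Γ : Subgroup (ℝ ≃o ℝ))
    (hΓ : ∀ f ∈ Γ, IsPL f)
    (hR : CharZero R ∨ ∃ p : ℕ, p.Prime ∧ ¬ IsUnit (p : R) ∧ ∀ f ∈ Γ, ∀ j : ℕ, 1 ≤ j →
      (∃ b, AE 1 f ((p : ℝ) ^ j) b) → ¬ ∃ b, AE (-1) f ((p : ℝ) ^ j) b)
    {n : ℕ} (A : Matrix (Fin n) (Fin n) (MonoidAlgebra R Γ)) (hA : A * A = A) (g : Γ)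
    (hg : ¬ IsUnit ((orderOf g : ℕ) : R)) : tau A g = 0 := by
  refine bass_of_local ?_ A hA g hg
  intro H hH h hh
  have hne : ((h : Γ) : ℝ ≃o ℝ) ≠ 1 := by
    intro h1
    apply hh
    refine ⟨1, one_pos, ?_⟩
    rw [pow_one]
    exact Subtype.ext (Subtype.ext h1)
  have key : ∀ (q : ℕ), 2 ≤ q → IsConj h (h ^ q) → ∃ t : H, ∀ (s : ℝ), (s = 1 ∨ s = -1) →
      ∀ c d, AE s ((t : Γ) : ℝ ≃o ℝ) c d → c = q := by
    intro q hq hc
    obtain ⟨t, ht⟩ := isConj_iff.1 hc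
    refine ⟨t, fun s hs c d hcd => ?_⟩
    have e : ((t : Γ) : ℝ ≃o ℝ) * ((h : Γ) : ℝ ≃o ℝ) * (((t : Γ) : ℝ ≃o ℝ))⁻¹ =
        (((h : Γ) : ℝ ≃o ℝ)) ^ q := by
      have h2 := congrArg (fun x : H => ((x : Γ) : ℝ ≃o ℝ)) ht
      simpa using h2
    have hpl := hΓ _ (h : Γ).2
    have htl := hΓ _ (t : Γ).2
    obtain ⟨a, b, hab⟩ : ∃ a b, AE s ((h : Γ) : ℝ ≃o ℝ) a b := by
      rcases hs with rfl | rfl
      · exact hpl.exists_pos
      · exact hpl.exists_neg
    exact (slope_eq hq e hpl htl hne s hs hab hcd).2.2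
  rcases hR with hR | ⟨p, hp, hpR, hno⟩
  · refine Or.inr (Or.inr ⟨hR, ?_⟩)
    rintro ⟨m, J, hm, hJ, hmJ⟩
    have hFG : ((slopeHom Γ hΓ).comp H.subtype).range.FG := by
      have : Group.FG H := (Group.fg_iff_subgroup_fg H).2 hH
      exact (Group.fg_iff_subgroup_fg _).1 (Group.fg_range _)
    refine not_all_powers hFG hm hJ (fun q hqm hq => ?_)
    obtain ⟨t, ht⟩ := key (q ^ J) (hq.trans (Nat.le_self_pow (by omega) q)) (hmJ q hqm)
    refine ⟨_, ⟨t, rfl⟩, ?_⟩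
    rw [MonoidHom.comp_apply, slopeHom_val]
    obtain ⟨b, hb⟩ := slope_spec Γ hΓ (H.subtype t)
    rw [ht 1 (Or.inl rfl) _ _ hb]
    push_cast
    rfl
  · refine Or.inr (Or.inl ⟨p, hp, hpR, fun j hj hc => ?_⟩)
    obtain ⟨t, ht⟩ := key (p ^ j) (hp.two_le.trans (Nat.le_self_pow (by omega) p)) hc
    obtain ⟨a, b, hab⟩ := (hΓ _ (t : Γ).2).exists_pos
    obtain ⟨a', b', hab'⟩ := (hΓ _ (t : Γ).2).exists_neg
    have e1 := ht 1 (Or.inl rfl) _ _ hab
    have e2 := ht (-1) (Or.inr rfl) _ _ hab'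
    push_cast at e1 e2
    subst e1 e2
    exact hno _ (t : Γ).2 j hj ⟨b, hab⟩ ⟨b', hab'⟩

end Pool.Agent.K1H5.PL
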