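import Mathlib
import Pool.Agent.K1H5.PL.Line
import Pool.Agent.Y75.BF.Thm

set_option autoImplicit false

/-!
Groups of piecewise linear homeomorphisms of the circle.
-/

namespace Pool.Agent.K1H5.PL

open Set

/-- `f` commutes with the translation by `1` -/
def Deg1 (f : ℝ ≃o ℝ) : Prop := ∀ x : ℝ, f (x + 1) = f x + 1

lemma Deg1.nat {f : ℝ ≃o ℝ} (h : Deg1 f) (n : ℕ) (x : ℝ) : f (x + n) = f x + n := by
  induction n with
  | zero => simp
  | succ n ih =>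
    have e : x + ((n + 1 : ℕ) : ℝ) = x + n + 1 := by push_cast; ring
    rw [e, h, ih]
    push_cast
    ring

lemma Deg1.int {f : ℝ ≃o ℝ} (h : Deg1 f) (n : ℤ) (x : ℝ) : f (x + n) = f x + n := by
  obtain ⟨k, rfl | rfl⟩ := n.eq_nat_or_neg
  · simpa using h.nat k x
  · have h1 := h.nat k (x + ((-(k : ℤ) : ℤ) : ℝ))
    push_cast at h1 ⊢
    have e : x + -(k : ℝ) + k = x := by ring
    rw [e] at h1
    linarith

lemma Deg1.mul {f g : ℝ ≃o ℝ} (hf : Deg1 f) (hg : Deg1 g) : Deg1 (f * g) := by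
  intro x
  rw [RelIso.mul_apply, hg, hf, RelIso.mul_apply]

lemma Deg1.inv {f : ℝ ≃o ℝ} (hf : Deg1 f) : Deg1 f⁻¹ := by
  intro x
  apply f.injective
  rw [hf, RelIso.apply_inv_self, RelIso.apply_inv_self]

lemma Deg1.one : Deg1 (1 : ℝ ≃o ℝ) := fun _ => rfl

lemma Deg1.pow {f : ℝ ≃o ℝ} (hf : Deg1 f) (n : ℕ) : Deg1 (f ^ n) := by
  induction n with
  | zero => exact Deg1.one
  | succ n ih => rw [pow_succ]; exact ih.mul hf

lemma conj_pow_pow {G : Type*} [Group G] {h t : G} {m : ℕ} (e : t * h * t⁻¹ = h ^ m) (k : ℕ) :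
    t ^ k * h * (t ^ k)⁻¹ = h ^ m ^ k := by
  induction k with
  | zero => simp
  | succ k ih =>
    have e1 : t ^ (k + 1) * h * (t ^ (k + 1))⁻¹ = t ^ k * (t * h * t⁻¹) * (t ^ k)⁻¹ := by
      rw [pow_succ]
      group
    rw [e1, e, ← conj_pow, ih, ← pow_mul, pow_succ]

lemma fix_aux {h t : ℝ ≃o ℝ} (hh : Deg1 h) (ht : Deg1 t) {m : ℕ} (hm : 2 ≤ m)
    (e : t * h * t⁻¹ = h ^ m) (hpos : ∀ x, x < h x) : False := by
  have hcont : ContinuousOn (fun x => h x - x) (Icc 0 1) :=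
    (h.continuous.sub continuous_id).continuousOn
  obtain ⟨a, ha, hmin⟩ := isCompact_Icc.exists_isMinOn ⟨(0 : ℝ), by simp⟩ hcont
  obtain ⟨b, hb, hmax⟩ := isCompact_Icc.exists_isMaxOn ⟨(0 : ℝ), by simp⟩ hcont
  have hper : ∀ x, h x - x = h (Int.fract x) - Int.fract x := by
    intro x
    have h1 := hh.int ⌊x⌋ (Int.fract x)
    rw [Int.fract_add_floor] at h1
    have h2 := Int.fract_add_floor x
    linarith
  have hfr : ∀ x : ℝ, Int.fract x ∈ Icc (0 : ℝ) 1 := fun x =>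
    ⟨Int.fract_nonneg x, (Int.fract_lt_one x).le⟩
  set δ := h a - a with hδ
  have hδ0 : 0 < δ := by have := hpos a; linarith
  have h1 : ∀ x, x + δ ≤ h x := by
    intro x
    have h2 := hmin (hfr x)
    have h3 := hper x
    simp only [Set.mem_ofPred_eq] at h2
    linarith
  obtain ⟨N, hN⟩ := exists_nat_gt (h b - b)
  have h2 : ∀ x, h x < x + N := by
    intro x
    have h2 := hmax (hfr x)
    have h3 := hper x
    simp only [Set.mem_ofPred_eq] at h2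
    linarith
  have h3 : ∀ (n : ℕ) (x : ℝ), x + n * δ ≤ (h ^ n) x := by
    intro n
    induction n with
    | zero => intro x; simp
    | succ n ih =>
      intro x
      rw [pow_succ', RelIso.mul_apply]
      have := h1 ((h ^ n) x)
      have h4 := ih x
      push_cast
      linarith
  have h4 : ∀ (k : ℕ) (x : ℝ), (h ^ m ^ k) x < x + N := by
    intro k x
    rw [← conj_pow_pow e k, RelIso.mul_apply, RelIso.mul_apply]
    have h5 := h2 ((t ^ k)⁻¹ x)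
    have h6 := (t ^ k).strictMono h5
    rw [(ht.pow k).nat, RelIso.apply_inv_self] at h6
    exact h6
  obtain ⟨k, hk⟩ := exists_nat_gt ((N : ℝ) / δ)
  rw [div_lt_iff₀ hδ0] at hk
  have h5 := h3 (m ^ k) 0
  have h6 := h4 k 0
  have h7 : (k : ℝ) ≤ (m ^ k : ℕ) := by
    exact_mod_cast (Nat.lt_pow_self (by omega : 1 < m)).le
  have h8 : (k : ℝ) * δ ≤ (m ^ k : ℕ) * δ := mul_le_mul_of_nonneg_right h7 hδ0.le
  push_cast at h5 h6 h8
  linarith

lemma exists_fix {h t : ℝ ≃o ℝ} (hh : Deg1 h) (ht : Deg1 t) {m : ℕ} (hm : 2 ≤ m)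
    (e : t * h * t⁻¹ = h ^ m) : ∃ x, h x = x := by
  by_contra hcon
  push Not at hcon
  have hcont : Continuous (fun x => h x - x) := h.continuous.sub continuous_id
  rcases lt_or_gt_of_ne (hcon 0) with h0 | h0
  · -- `h 0 < 0`
    have hneg : ∀ x, h x < x := by
      intro x
      by_contra hx
      push Not at hx
      have hx' : x < h x := lt_of_le_of_ne hx (hcon x).symm
      obtain ⟨y, hy⟩ := mem_range_of_exists_le_of_exists_ge hcont ⟨0, by linarith⟩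
        ⟨x, by linarith⟩ (c := 0)
      exact hcon y (by linarith)
    refine fix_aux hh.inv ht hm (h := h⁻¹) ?_ ?_
    · rw [inv_pow, ← e]
      group
    · intro x
      have := hneg (h⁻¹ x)
      rwa [RelIso.apply_inv_self] at this
  · have hpos : ∀ x, x < h x := by
      intro x
      by_contra hx
      push Not at hx
      have hx' : h x < x := lt_of_le_of_ne hx (hcon x)
      obtain ⟨y, hy⟩ := mem_range_of_exists_le_of_exists_ge hcont ⟨x, by linarith⟩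
        ⟨0, by linarith⟩ (c := 0)
      exact hcon y (by linarith)
    exact fix_aux hh ht hm e hpos

/-- The homeomorphism `f` of the line is a lift of a piecewise linear homeomorphism of the circle. -/
def IsPLc (f : ℝ ≃o ℝ) : Prop :=
  (∀ x : ℝ, f (x + 1) = f x + 1) ∧ ∃ S : Finset ℝ, ∀ x y : ℝ,
    (∀ s ∈ S, ∀ n : ℤ, s + n ∉ Ioo x y) → ∃ a b : ℝ, ∀ z ∈ Icc x y, f z = a * z + b

lemma IsPLc.plOn {f : ℝ ≃o ℝ} (h : IsPLc f) (u v : ℝ) : ∃ S : Finset ℝ, PLOn S (Ioo u v) f := by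
  obtain ⟨_, S, hS⟩ := h
  have hfin : {z : ℝ | z ∈ Ioo u v ∧ ∃ s ∈ S, ∃ n : ℤ, z = s + n}.Finite := by
    have : {z : ℝ | z ∈ Ioo u v ∧ ∃ s ∈ S, ∃ n : ℤ, z = s + n} ⊆
        ⋃ s ∈ S, (fun n : ℤ => s + (n : ℝ)) '' {n : ℤ | ⌊u - s⌋ ≤ n ∧ n ≤ ⌈v - s⌉} := by
      rintro z ⟨hz, s, hs, n, rfl⟩
      refine mem_biUnion hs ⟨n, ⟨?_, ?_⟩, rfl⟩
      · have h1 : (⌊u - s⌋ : ℝ) ≤ n := by
          have := Int.floor_le (u - s)
          linarith [hz.1]
        exact_mod_cast h1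
      · have h1 : (n : ℝ) ≤ ⌈v - s⌉ := by
          have := Int.le_ceil (v - s)
          linarith [hz.2]
        exact_mod_cast h1
    refine Finite.subset (Finite.biUnion S.finite_toSet fun s _ => Finite.image _ ?_) this
    exact Set.finite_Icc _ _
  refine ⟨hfin.toFinset, fun x hx y hy hxy => ?_⟩
  refine hS x y (fun s hs n hn => ?_)
  refine hxy (s + n) ?_ hn
  rw [Set.Finite.mem_toFinset]
  exact ⟨⟨hx.1.trans hn.1, hn.2.trans hy.2⟩, s, hs, n, rfl⟩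

lemma IsPLc.hasG {f : ℝ ≃o ℝ} (h : IsPLc f) : HasG f := by
  intro x
  obtain ⟨S, hS⟩ := h.plOn (x - 1) (x + 1)
  exact hasG_of_plOn isOpen_Ioo hS ⟨by linarith, by linarith⟩

lemma SG.shift {s : ℝ} {f : ℝ ≃o ℝ} (hf : Deg1 f) {x a : ℝ} (n : ℤ) (h : SG s f x a) :
    SG s f (x + n) a := by
  obtain ⟨ha, ε, hε, h⟩ := h
  refine ⟨ha, ε, hε, fun u hu hu' => ?_⟩
  have e : x + n + s * u = x + s * u + n := by ring
  rw [e, hf.int, hf.int, h u hu hu']
  ring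

lemma IsPLc.lam {f : ℝ ≃o ℝ} (h : IsPLc f) {s : ℝ} (hs : s = 1 ∨ s = -1) : (Lam s f).Finite := by
  obtain ⟨S, hS⟩ := h.plOn (-1) 2
  have h1 : {a | ∃ x ∈ Ioo (-1 : ℝ) 2, SG s f x a}.Finite := by
    rcases hs with rfl | rfl
    · exact finite_right isOpen_Ioo hS
    · exact finite_left isOpen_Ioo hS
  refine h1.subset ?_
  rintro a ⟨x, _, hx⟩
  refine ⟨x + ((-⌊x⌋ : ℤ) : ℝ), ?_, SG.shift h.1 _ hx⟩
  push_cast
  have h2 := Int.fract_nonneg x
  have h3 := Int.fract_lt_one x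
  have h4 : x + -(⌊x⌋ : ℝ) = Int.fract x := by
    rw [← Int.self_sub_floor]
    ring
  rw [h4]
  exact ⟨by linarith, by linarith⟩

/-- In a group of piecewise linear homeomorphisms of the circle elements of infinite order are not
conjugate to proper powers. -/
theorem circle_noPow (Γ : Subgroup (ℝ ≃o ℝ)) (hΓ : ∀ f ∈ Γ, IsPLc f) {G : Type*} [Group G]
    (π : Γ →* G) (hπ : Function.Surjective π)
    (hker : ∀ f : Γ, π f = 1 → ∃ n : ℤ, ∀ x : ℝ, (f : ℝ ≃o ℝ) x = x + n) (g : G)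
    {m : ℕ} (hm : 2 ≤ m) (hg : IsConj g (g ^ m)) : g ^ (m - 1) = 1 := by
  obtain ⟨t, ht⟩ := isConj_iff.1 hg
  obtain ⟨g, rfl⟩ := hπ g
  obtain ⟨t, rfl⟩ := hπ t
  set T : Γ := t * g * t⁻¹ * (g ^ m)⁻¹ with hT
  have h1 : π T = 1 := by
    rw [hT, map_mul, map_inv, map_pow, map_mul, map_mul, map_inv, ht, mul_inv_cancel]
  obtain ⟨n, hn⟩ := hker T h1
  have hcomm : ∀ f : Γ, Commute T f := by
    intro f
    apply Subtype.ext
    ext x
    have hf := (hΓ f f.2).1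
    change ((T : ℝ ≃o ℝ)) ((f : ℝ ≃o ℝ) x) = (f : ℝ ≃o ℝ) ((T : ℝ ≃o ℝ) x)
    rw [hn, hn, Deg1.int hf]
  have e1 : t * g * t⁻¹ = T * g ^ m := by
    rw [hT]
    group
  set h : Γ := g ^ (m - 1) * T with hh
  have e2 : t * h * t⁻¹ = h ^ m := by
    have e3 : t * h * t⁻¹ = (t * g * t⁻¹) ^ (m - 1) * T := by
      rw [conj_pow, hh]
      have := (hcomm t⁻¹).eq
      calc t * (g ^ (m - 1) * T) * t⁻¹ = t * g ^ (m - 1) * (T * t⁻¹) := by group
        _ = t * g ^ (m - 1) * (t⁻¹ * T) := by rw [this]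
        _ = t * g ^ (m - 1) * t⁻¹ * T := by group
    rw [e3, e1, (hcomm (g ^ m)).mul_pow, hh, ((hcomm (g ^ (m - 1))).symm).mul_pow, ← pow_mul,
      ← pow_mul, mul_comm (m - 1) m]
    have e4 : T ^ (m - 1) * g ^ (m * (m - 1)) = g ^ (m * (m - 1)) * T ^ (m - 1) :=
      ((hcomm _).pow_left (m - 1)).eq
    rw [e4, mul_assoc, ← pow_succ, Nat.sub_add_cancel (by omega)]
  have e3 : (t : ℝ ≃o ℝ) * (h : ℝ ≃o ℝ) * (t : ℝ ≃o ℝ)⁻¹ = (h : ℝ ≃o ℝ) ^ m := by
    have := congrArg (fun x : Γ => (x : ℝ ≃o ℝ)) e2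
    simpa using this
  have ph := hΓ h h.2
  have pt := hΓ t t.2
  obtain ⟨x, hx⟩ := exists_fix ph.1 pt.1 hm e3
  have e4 := eq_one_of_fix hm e3 ph.hasG pt.hasG (ph.lam (Or.inl rfl)) (ph.lam (Or.inr rfl)) hx
  have e5 : h = 1 := Subtype.ext e4
  have e6 : π h = π g ^ (m - 1) := by rw [hh, map_mul, h1, mul_one, map_pow]
  rw [← e6, e5, map_one]

open Pool.Agent.H26R2.Bass

/-- The Bass conjecture for groups of piecewise linear homeomorphisms of the circle. -/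
theorem bass_circle {R : Type*} [CommRing R] [IsDomain R] (Γ : Subgroup (ℝ ≃o ℝ))
    (hΓ : ∀ f ∈ Γ, IsPLc f) {G : Type*} [Group G] (π : Γ →* G) (hπ : Function.Surjective π)
    (hker : ∀ f : Γ, π f = 1 → ∃ n : ℤ, ∀ x : ℝ, (f : ℝ ≃o ℝ) x = x + n)
    {n : ℕ} (A : Matrix (Fin n) (Fin n) (MonoidAlgebra R G)) (hA : A * A = A) (g : G)
    (hg : ¬ IsUnit ((orderOf g : ℕ) : R)) : tau A g = 0 := by
  refine bass_of_local ?_ A hA g hg
  intro H hH h hh
  apply Pool.Agent.Y75.BF.good_of_noPower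
  intro m hm hc
  apply hh
  have h1 : IsConj (h : G) ((h : G) ^ m) := by
    have := MonoidHom.map_isConj H.subtype hc
    simpa using this
  refine ⟨m - 1, by omega, ?_⟩
  have := circle_noPow Γ hΓ π hπ hker (h : G) hm h1
  exact Subtype.ext (by simpa using this)

end Pool.Agent.K1H5.PL
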