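import Mathlib
import Pool.Agent.K1H5.PL.Line

set_option autoImplicit false

/-!
Bieri–Strebel groups `G(ℝ; A, P)`: elements conjugate to a proper power are conjugate to
translations.
-/

namespace Pool.Agent.K1H5.PL

open Set

/-- `f` is a piecewise linear homeomorphism of the line with slopes in `P`, finitely many
breakpoints, all in `A`, and `f A = A`. -/
def IsBS (A : AddSubgroup ℝ) (P : Subgroup ℝˣ) (f : ℝ ≃o ℝ) : Prop :=
  (∃ S : Finset ℝ, (∀ s ∈ S, s ∈ A) ∧ ∀ x y : ℝ, (∀ s ∈ S, s ∉ Ioo x y) →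
    ∃ p ∈ P, ∃ b : ℝ, ∀ z ∈ Icc x y, f z = (p : ℝ) * z + b) ∧ ∀ x, f x ∈ A ↔ x ∈ A

lemma IsBS.isPL {A : AddSubgroup ℝ} {P : Subgroup ℝˣ} {f : ℝ ≃o ℝ} (h : IsBS A P f) : IsPL f := by
  obtain ⟨⟨S, _, hS⟩, _⟩ := h
  refine ⟨S, fun x y hxy => ?_⟩
  obtain ⟨p, _, b, hb⟩ := hS x y hxy
  exact ⟨p, b, hb⟩

/-- The Bieri–Strebel group `G(ℝ; A, P)`. -/
def BSG (A : AddSubgroup ℝ) (P : Subgroup ℝˣ) : Subgroup (ℝ ≃o ℝ) where
  carrier := {f | IsBS A P f}
  one_mem' := ⟨⟨∅, by simp, fun x y _ => ⟨1, one_mem _, 0, fun z _ => by simp⟩⟩, fun x => Iff.rfl⟩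
  mul_mem' := by
    classical
    rintro f g ⟨⟨S, hSA, hS⟩, hf⟩ ⟨⟨T, hTA, hT⟩, hg⟩
    refine ⟨⟨T ∪ S.image (g⁻¹ : ℝ ≃o ℝ), ?_, ?_⟩, fun x => ?_⟩
    · intro s hs
      rcases Finset.mem_union.1 hs with hs | hs
      · exact hTA s hs
      · obtain ⟨u, hu, rfl⟩ := Finset.mem_image.1 hs
        rw [← hg, RelIso.apply_inv_self]
        exact hSA u hu
    · intro x y hxy
      obtain ⟨p, hp, b, hb⟩ := hT x y (fun s hs => hxy s (Finset.mem_union_left _ hs))
      obtain ⟨q, hq, c, hc⟩ := hS (g x) (g y) (fun s hs hs' => by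
        refine hxy (g⁻¹ s) (Finset.mem_union_right _ (Finset.mem_image_of_mem _ hs)) ?_
        have h1 := (g⁻¹ : ℝ ≃o ℝ).strictMono hs'.1
        have h2 := (g⁻¹ : ℝ ≃o ℝ).strictMono hs'.2
        rw [RelIso.inv_apply_self] at h1 h2
        exact ⟨h1, h2⟩)
      refine ⟨q * p, mul_mem hq hp, q * b + c, fun z hz => ?_⟩
      rw [RelIso.mul_apply, hc (g z) ⟨g.monotone hz.1, g.monotone hz.2⟩, hb z hz]
      push_cast
      ring
    · rw [RelIso.mul_apply, hf, hg]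
  inv_mem' := by
    classical
    rintro f ⟨⟨S, hSA, hS⟩, hf⟩
    refine ⟨⟨S.image f, ?_, ?_⟩, fun x => ?_⟩
    · intro s hs
      obtain ⟨u, hu, rfl⟩ := Finset.mem_image.1 hs
      rw [hf]
      exact hSA u hu
    · intro x y hxy
      obtain ⟨p, hp, b, hb⟩ := hS (f⁻¹ x) (f⁻¹ y) (fun s hs hs' => by
        refine hxy (f s) (Finset.mem_image_of_mem _ hs) ?_
        have h1 := f.strictMono hs'.1
        have h2 := f.strictMono hs'.2
        rw [RelIso.apply_inv_self] at h1 h2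
        exact ⟨h1, h2⟩)
      refine ⟨p⁻¹, inv_mem hp, -((p⁻¹ : ℝˣ) : ℝ) * b, fun z hz => ?_⟩
      have h1 := hb (f⁻¹ z) ⟨(f⁻¹ : ℝ ≃o ℝ).monotone hz.1, (f⁻¹ : ℝ ≃o ℝ).monotone hz.2⟩
      rw [RelIso.apply_inv_self] at h1
      have h2 : ((p⁻¹ : ℝˣ) : ℝ) * (p : ℝ) = 1 := by
        rw [← Units.val_mul, inv_mul_cancel, Units.val_one]
      linear_combination (-((p⁻¹ : ℝˣ) : ℝ)) * h1 + (-(f⁻¹ z)) * h2
    · rw [← hf, RelIso.apply_inv_self]

/-- no breakpoint -/
def NB (f : ℝ ≃o ℝ) (x : ℝ) : Prop := ∃ a, SG 1 f x a ∧ SG (-1) f x a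

/-- the breakpoints -/
def Brk (f : ℝ ≃o ℝ) : Set ℝ := {x | ¬ NB f x}

lemma NB.mul {f g : ℝ ≃o ℝ} {x : ℝ} (hg : NB g x) (hf : NB f (g x)) : NB (f * g) x := by
  obtain ⟨a, h1, h2⟩ := hg
  obtain ⟨b, h3, h4⟩ := hf
  exact ⟨b * a, h1.mul h3, h2.mul h4⟩

lemma NB.inv {f : ℝ ≃o ℝ} {x : ℝ} (hf : NB f x) : NB f⁻¹ (f x) := by
  obtain ⟨a, h1, h2⟩ := hf
  exact ⟨a⁻¹, h1.inv, h2.inv⟩

lemma Brk_mul (f g : ℝ ≃o ℝ) : Brk (f * g) ⊆ Brk g ∪ (g⁻¹ : ℝ ≃o ℝ) '' Brk f := by
  intro x hx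
  by_cases hg : NB g x
  · right
    refine ⟨g x, fun hf => hx (hg.mul hf), RelIso.inv_apply_self _ _⟩
  · left
    exact hg

lemma Brk_inv (f : ℝ ≃o ℝ) : Brk f⁻¹ ⊆ f '' Brk f := by
  intro x hx
  refine ⟨f⁻¹ x, fun h => hx ?_, RelIso.apply_inv_self _ _⟩
  have := h.inv
  rwa [RelIso.apply_inv_self] at this

lemma Brk_subset {f : ℝ ≃o ℝ} {S : Finset ℝ}
    (hS : ∀ x y : ℝ, (∀ s ∈ S, s ∉ Ioo x y) → ∃ a b : ℝ, ∀ z ∈ Icc x y, f z = a * z + b) :
    Brk f ⊆ S := by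
  intro x hx
  by_contra hxS
  apply hx
  obtain ⟨ε, hε, h1⟩ := exists_right S x
  obtain ⟨δ, hδ, h2⟩ := exists_left S x
  obtain ⟨a, b, hab⟩ := hS (x - δ) (x + ε) (fun s hs hs' => by
    rcases lt_trichotomy s x with h | h | h
    · exact h2 s hs ⟨hs'.1, h⟩
    · rw [h] at hs
      exact hxS hs
    · exact h1 s hs ⟨h, hs'.2⟩)
  exact ⟨a, sg_of_affOn_right hε (fun z hz => hab z ⟨by linarith [hz.1], hz.2⟩),
    sg_of_affOn_left hδ (fun z hz => hab z ⟨hz.1, by linarith [hz.2]⟩)⟩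

lemma IsPL.brk_finite {f : ℝ ≃o ℝ} (h : IsPL f) : (Brk f).Finite := by
  obtain ⟨S, hS⟩ := h
  exact S.finite_toSet.subset (Brk_subset hS)

/-- pieces without breakpoints are affine -/
lemma affine_of_noBrk {A : AddSubgroup ℝ} {P : Subgroup ℝˣ} {f : ℝ ≃o ℝ} (h : IsBS A P f) :
    ∀ x y : ℝ, (∀ s ∈ Brk f, s ∉ Ioo x y) →
      ∃ p ∈ P, ∃ b : ℝ, ∀ z ∈ Icc x y, f z = (p : ℝ) * z + b := by
  classical
  obtain ⟨⟨S, _, hS⟩, _⟩ := h
  have key : ∀ (n : ℕ) (x y : ℝ), (S.filter (fun s => s ∈ Ioo x y)).card ≤ n →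
      (∀ s ∈ Brk f, s ∉ Ioo x y) →
      ∃ p ∈ P, ∃ b : ℝ, ∀ z ∈ Icc x y, f z = (p : ℝ) * z + b := by
    intro n
    induction n with
    | zero =>
      intro x y hc _
      apply hS
      intro s hs hs'
      have : s ∈ S.filter (fun s => s ∈ Ioo x y) := Finset.mem_filter.2 ⟨hs, hs'⟩
      rw [Finset.card_eq_zero.1 (Nat.le_zero.1 hc)] at this
      simp at this
    | succ n ih =>
      intro x y hc hB
      by_cases hex : ∃ s ∈ S, s ∈ Ioo x y
      · obtain ⟨s, hs, hsxy⟩ := hex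
        have hlt1 : (S.filter (fun u => u ∈ Ioo x s)).card < (S.filter (fun u => u ∈ Ioo x y)).card := by
          apply Finset.card_lt_card
          refine ⟨fun u hu => ?_, fun hcon => ?_⟩
          · obtain ⟨h1, h2⟩ := Finset.mem_filter.1 hu
            exact Finset.mem_filter.2 ⟨h1, h2.1, h2.2.trans hsxy.2⟩
          · have := hcon (Finset.mem_filter.2 ⟨hs, hsxy⟩)
            exact lt_irrefl _ (Finset.mem_filter.1 this).2.2
        have hlt2 : (S.filter (fun u => u ∈ Ioo s y)).card < (S.filter (fun u => u ∈ Ioo x y)).card := by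
          apply Finset.card_lt_card
          refine ⟨fun u hu => ?_, fun hcon => ?_⟩
          · obtain ⟨h1, h2⟩ := Finset.mem_filter.1 hu
            exact Finset.mem_filter.2 ⟨h1, hsxy.1.trans h2.1, h2.2⟩
          · have := hcon (Finset.mem_filter.2 ⟨hs, hsxy⟩)
            exact lt_irrefl _ (Finset.mem_filter.1 this).2.1
        obtain ⟨p, hp, b, hb⟩ := ih x s (by omega) (fun u hu hu' =>
          hB u hu ⟨hu'.1, hu'.2.trans hsxy.2⟩)
        obtain ⟨q, hq, c, hc'⟩ := ih s y (by omega) (fun u hu hu' =>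
          hB u hu ⟨hsxy.1.trans hu'.1, hu'.2⟩)
        have hNB : NB f s := by
          by_contra hcon
          exact hB s hcon hsxy
        obtain ⟨a, ha1, ha2⟩ := hNB
        have e1 : SG (-1) f s p := sg_of_affOn_left (ε := s - x) (b := b) (by linarith [hsxy.1])
          (fun z hz => hb z ⟨by linarith [hz.1], hz.2⟩)
        have e2 : SG 1 f s q := sg_of_affOn_right (ε := y - s) (b := c) (by linarith [hsxy.2])
          (fun z hz => hc' z ⟨hz.1, by linarith [hz.2]⟩)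
        have e3 : (p : ℝ) = q := by
          rw [e1.unique (by norm_num) ha2, e2.unique one_ne_zero ha1]
        refine ⟨p, hp, b, fun z hz => ?_⟩
        rcases le_total z s with h | h
        · exact hb z ⟨hz.1, h⟩
        · rw [hc' z ⟨h, hz.2⟩]
          have h1 := hb s ⟨hsxy.1.le, le_rfl⟩
          have h2 := hc' s ⟨le_rfl, hsxy.2.le⟩
          rw [h1] at h2
          rw [e3] at h2 ⊢
          linarith
      · push Not at hex
        exact hS x y hex
  intro x y hxy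
  exact key _ x y le_rfl hxy

lemma Brk_mul_finite {f g : ℝ ≃o ℝ} (hf : (Brk f).Finite) (hg : (Brk g).Finite) :
    (Brk (f * g)).Finite ∧ (Brk (f * g)).ncard ≤ (Brk f).ncard + (Brk g).ncard := by
  have h1 : (Brk g ∪ (g⁻¹ : ℝ ≃o ℝ) '' Brk f).Finite := hg.union (hf.image _)
  refine ⟨h1.subset (Brk_mul f g), (Set.ncard_le_ncard (Brk_mul f g) h1).trans ?_⟩
  refine (Set.ncard_union_le _ _).trans ?_
  have := Set.ncard_image_le hf (f := (g⁻¹ : ℝ ≃o ℝ))
  omega

lemma Brk_inv_finite {f : ℝ ≃o ℝ} (hf : (Brk f).Finite) :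
    (Brk f⁻¹).Finite ∧ (Brk f⁻¹).ncard ≤ (Brk f).ncard := by
  have h1 : (f '' Brk f).Finite := hf.image _
  exact ⟨h1.subset (Brk_inv f), (Set.ncard_le_ncard (Brk_inv f) h1).trans (Set.ncard_image_le hf)⟩

lemma Brk_one : Brk (1 : ℝ ≃o ℝ) = ∅ := by
  ext x
  simp only [Brk, mem_empty_iff_false, iff_false]
  exact fun h => h ⟨1, SG.one 1 x, SG.one (-1) x⟩

lemma Brk_pow_finite {f : ℝ ≃o ℝ} (hf : (Brk f).Finite) (n : ℕ) :
    (Brk (f ^ n)).Finite ∧ (Brk (f ^ n)).ncard ≤ n * (Brk f).ncard := by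
  induction n with
  | zero => rw [pow_zero, Brk_one]; simp
  | succ n ih =>
    rw [pow_succ]
    obtain ⟨h1, h2⟩ := Brk_mul_finite ih.1 hf
    refine ⟨h1, h2.trans ?_⟩
    rw [add_mul, one_mul]
    omega

lemma conj_pow_pow' {G : Type*} [Group G] {h t : G} {m : ℕ} (e : t * h * t⁻¹ = h ^ m) (k : ℕ) :
    t ^ k * h * (t ^ k)⁻¹ = h ^ m ^ k := by
  induction k with
  | zero => simp
  | succ k ih =>
    have e1 : t ^ (k + 1) * h * (t ^ (k + 1))⁻¹ = t ^ k * (t * h * t⁻¹) * (t ^ k)⁻¹ := by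
      rw [pow_succ]
      group
    rw [e1, e, ← conj_pow, ih, ← pow_mul, pow_succ]

/-- the number of breakpoints of `c ^ (m ^ i)` grows linearly in `i` -/
lemma brk_growth {c t : ℝ ≃o ℝ} {m : ℕ} (e : t * c * t⁻¹ = c ^ m) (hc : (Brk c).Finite)
    (ht : (Brk t).Finite) (i : ℕ) :
    (Brk (c ^ m ^ i)).ncard ≤ (Brk c).ncard + 2 * i * (Brk t).ncard := by
  rw [← conj_pow_pow' e i]
  obtain ⟨h1, h2⟩ := Brk_pow_finite ht i
  obtain ⟨h3, h4⟩ := Brk_inv_finite h1
  obtain ⟨h5, h6⟩ := Brk_mul_finite h1 hc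
  obtain ⟨_, h8⟩ := Brk_mul_finite h5 h3
  refine h8.trans ?_
  have : (Brk (t ^ i)).ncard + (Brk c).ncard + i * (Brk t).ncard ≤
    (Brk c).ncard + 2 * i * (Brk t).ncard := by nlinarith
  omega

lemma pow_beats (m : ℕ) (hm : 2 ≤ m) (C B : ℕ) : ∃ i : ℕ, C + 2 * i * B < m ^ i := by
  refine ⟨2 * (C + 4 * B + 1), ?_⟩
  set s := C + 4 * B + 1 with hs
  have h1 : s < 2 ^ s := Nat.lt_two_pow_self
  have h2 : 2 ^ (2 * s) ≤ m ^ (2 * s) := Nat.pow_le_pow_left hm _
  have h3 : 2 ^ (2 * s) = 2 ^ s * 2 ^ s := by rw [two_mul, pow_add]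
  nlinarith

section construct

variable {c : ℝ ≃o ℝ} {b M0 : ℝ}

lemma reach (hpos : ∀ x, x < c x) (M : ℝ) (x : ℝ) : ∃ n : ℕ, M ≤ (c ^ n) x := by
  by_contra hcon
  push Not at hcon
  have hxM : x ≤ M := by
    have := hcon 0
    simpa using this.le
  have hcont : ContinuousOn (fun z => c z - z) (Icc x M) :=
    (c.continuous.sub continuous_id).continuousOn
  obtain ⟨a, _, hmin⟩ := isCompact_Icc.exists_isMinOn ⟨x, by simp [hxM]⟩ hcont
  set δ := c a - a with hδ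
  have hδ0 : 0 < δ := by have := hpos a; linarith
  have h1 : ∀ n : ℕ, x + n * δ ≤ (c ^ n) x := by
    intro n
    induction n with
    | zero => simp
    | succ n ih =>
      have h2 : (c ^ n) x ∈ Icc x M := ⟨by
        have : 0 ≤ n * δ := by positivity
        linarith, (hcon n).le⟩
      have h3 := hmin h2
      simp only [Set.mem_ofPred_eq] at h3
      rw [pow_succ', RelIso.mul_apply]
      push_cast
      linarith
  obtain ⟨n, hn⟩ := exists_nat_gt ((M - x) / δ)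
  rw [div_lt_iff₀ hδ0] at hn
  have h2 := h1 n
  have h3 := hcon n
  linarith

lemma stay (hpos : ∀ x, x < c x) {x M : ℝ} {n : ℕ} (hn : M ≤ (c ^ n) x) {n' : ℕ} (h : n ≤ n') :
    M ≤ (c ^ n') x := by
  induction n', h using Nat.le_induction with
  | base => exact hn
  | succ k _ ih =>
    rw [pow_succ', RelIso.mul_apply]
    exact ih.trans (hpos _).le

lemma stable (hpos : ∀ x, x < c x) (hM : ∀ z, M0 ≤ z → c z = z + b) {x : ℝ} {n : ℕ}
    (hn : M0 ≤ (c ^ n) x) {n' : ℕ} (h : n ≤ n') : (c ^ n') x - n' * b = (c ^ n) x - n * b := by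
  induction n', h using Nat.le_induction with
  | base => rfl
  | succ k hk ih =>
    rw [← ih, pow_succ', RelIso.mul_apply, hM _ (stay hpos hn hk)]
    push_cast
    ring

/-- The conjugating homeomorphism. -/
lemma exists_conj (hpos : ∀ x, x < c x) (hb : 0 < b) (hM : ∀ z, M0 ≤ z → c z = z + b) :
    ∃ φ : ℝ ≃o ℝ, (∀ (x : ℝ) (n : ℕ), M0 ≤ (c ^ n) x → φ x = (c ^ n) x - n * b) ∧
      ∀ x, φ (c x) = φ x + b := by
  choose N hN using reach hpos M0
  let φ0 : ℝ → ℝ := fun x => (c ^ N x) x - N x * b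
  have h1 : ∀ (x : ℝ) (n : ℕ), M0 ≤ (c ^ n) x → φ0 x = (c ^ n) x - n * b := by
    intro x n hn
    rcases le_total (N x) n with h | h
    · exact (stable hpos hM (hN x) h).symm
    · exact stable hpos hM hn h
  have h2 : StrictMono φ0 := by
    intro x y hxy
    have hx := stay hpos (hN x) (le_max_left (N x) (N y))
    have hy := stay hpos (hN y) (le_max_right (N x) (N y))
    rw [h1 x _ hx, h1 y _ hy]
    have := (c ^ max (N x) (N y)).strictMono hxy
    linarith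
  have h3 : Function.Surjective φ0 := by
    intro w
    obtain ⟨n, hn⟩ := exists_nat_gt ((M0 - w) / b)
    rw [div_lt_iff₀ hb] at hn
    have h4 : (c ^ n) ((c ^ n)⁻¹ (w + n * b)) = w + n * b := RelIso.apply_inv_self _ _
    refine ⟨(c ^ n)⁻¹ (w + n * b), ?_⟩
    rw [h1 _ n (by rw [h4]; linarith), h4]
    ring
  refine ⟨h2.orderIsoOfSurjective φ0 h3, h1, fun x => ?_⟩
  change φ0 (c x) = φ0 x + b
  have h4 : (c ^ (N x + 1)) x = (c ^ N x) (c x) := by rw [pow_succ, RelIso.mul_apply]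
  have h5 : M0 ≤ (c ^ N x) (c x) := by
    rw [← h4]
    exact stay hpos (hN x) (Nat.le_succ _)
  rw [h1 (c x) (N x) h5, ← h4, h1 x (N x + 1) (by rw [h4]; exact h5)]
  push_cast
  ring

end construct

lemma SG_congr {s : ℝ} (hs : s = 1 ∨ s = -1) {f g : ℝ → ℝ} {x a d : ℝ} {δ : ℝ} (hδ : 0 < δ)
    (h : ∀ z, |z - x| ≤ δ → g z = f z + d) (hf : SG s f x a) : SG s g x a := by
  obtain ⟨ha, ε, hε, h1⟩ := hf
  have hs1 : |s| = 1 := by rcases hs with rfl | rfl <;> simp
  refine ⟨ha, min ε δ, lt_min hε hδ, fun u hu hu' => ?_⟩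
  have h2 : |x + s * u - x| ≤ δ := by
    have : x + s * u - x = s * u := by ring
    rw [this, abs_mul, hs1, one_mul, abs_of_nonneg hu]
    exact hu'.trans (min_le_right _ _)
  rw [h _ h2, h x (by rw [sub_self, abs_zero]; exact hδ.le), h1 u hu (hu'.trans (min_le_left _ _))]
  ring

lemma NB_congr {f g : ℝ ≃o ℝ} {x d : ℝ} {δ : ℝ} (hδ : 0 < δ)
    (h : ∀ z, |z - x| ≤ δ → g z = f z + d) (hf : NB f x) : NB g x := by
  obtain ⟨a, h1, h2⟩ := hf
  exact ⟨a, SG_congr (Or.inl rfl) hδ h h1, SG_congr (Or.inr rfl) hδ h h2⟩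

/-- translation by `b` -/
def Tr (b : ℝ) : ℝ ≃o ℝ := OrderIso.addRight b

lemma Tr_apply (b x : ℝ) : Tr b x = x + b := rfl

/-- **Elements conjugate to a proper power are conjugate to translations**, positive case. -/
lemma conj_tr_pos {A : AddSubgroup ℝ} {P : Subgroup ℝˣ} {c t : ℝ ≃o ℝ} (hc : IsBS A P c)
    (ht : IsBS A P t) {m : ℕ} (hm : 2 ≤ m) (e : t * c * t⁻¹ = c ^ m) (hne : c ≠ 1) {b : ℝ}
    (hb : AE 1 c 1 b) (hb0 : 0 < b) (hbA : b ∈ A) :
    ∃ φ, IsBS A P φ ∧ φ * c * φ⁻¹ = Tr b := by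
  classical
  obtain ⟨_, M0, hM0⟩ := id hb
  replace hM0 : ∀ z, M0 ≤ z → c z = z + b := by
    intro z hz
    have := hM0 z hz
    simpa using this
  -- no fixed points
  have hnf : ∀ x, c x ≠ x := by
    intro x hx
    exact hne (eq_one_of_fix hm e hc.isPL.hasG ht.isPL.hasG hc.isPL.lam_right hc.isPL.lam_left hx)
  have hcont : Continuous (fun x => c x - x) := c.continuous.sub continuous_id
  have hpos : ∀ x, x < c x := by
    intro x
    by_contra hx
    push Not at hx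
    have hx' : c x < x := lt_of_le_of_ne hx (hnf x)
    obtain ⟨y, hy⟩ := mem_range_of_exists_le_of_exists_ge hcont ⟨x, by linarith⟩
      ⟨M0, by rw [hM0 M0 le_rfl]; linarith⟩ (c := 0)
    exact hnf y (by linarith)
  obtain ⟨φ, hφ, hφc⟩ := exists_conj hpos hb0 hM0
  -- the other end
  obtain ⟨a', b', hab'⟩ := hc.isPL.exists_neg
  obtain ⟨c', d', hcd'⟩ := ht.isPL.exists_neg
  obtain ⟨ha', hb', _⟩ := slope_eq hm e hc.isPL ht.isPL hne (-1) (Or.inr rfl) hab' hcd'
  subst ha'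
  obtain ⟨_, M1', hM1'⟩ := hab'
  obtain ⟨M1, hM1⟩ : ∃ M1 : ℝ, ∀ z, z ≤ M1 → c z = z + b' := by
    refine ⟨-M1', fun z hz => ?_⟩
    have := hM1' (-z) (by linarith)
    simpa using this
  have hb'0 : 0 < b' := by
    have h1 := hpos M1
    rw [hM1 M1 le_rfl] at h1
    linarith
  -- breakpoints of `φ` and of `c ^ n`
  have hBiff : ∀ (x : ℝ) (n : ℕ), M0 < (c ^ n) x → (x ∈ Brk φ ↔ x ∈ Brk (c ^ n)) := by
    intro x n hn
    have hcn : Continuous (c ^ n : ℝ ≃o ℝ) := (c ^ n).continuous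
    have h1 : ∃ δ : ℝ, 0 < δ ∧ ∀ z, |z - x| ≤ δ → M0 ≤ (c ^ n) z := by
      have h2 : {z | M0 < (c ^ n) z} ∈ nhds x := (isOpen_lt continuous_const hcn).mem_nhds hn
      obtain ⟨ε, hε, h3⟩ := Metric.mem_nhds_iff.1 h2
      refine ⟨ε / 2, by linarith, fun z hz => ?_⟩
      have h4 : z ∈ Metric.ball x ε := by
        rw [Metric.mem_ball, Real.dist_eq]
        linarith
      exact (h3 h4).le
    obtain ⟨δ, hδ, h2⟩ := h1
    have h3 : ∀ z, |z - x| ≤ δ → φ z = (c ^ n) z + (-(n * b)) := by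
      intro z hz
      rw [hφ z n (h2 z hz)]
      ring
    have h4 : ∀ z, |z - x| ≤ δ → (c ^ n) z = φ z + (n * b) := by
      intro z hz
      rw [h3 z hz]
      ring
    exact ⟨fun h h' => h (NB_congr hδ h3 h'), fun h h' => h (NB_congr hδ h4 h')⟩
  have hcn : ∀ n : ℕ, IsBS A P (c ^ n) := fun n => (BSG A P).pow_mem hc n
  -- no breakpoints near `-∞`
  have hno : ∀ x ∈ Brk φ, ¬ x < M1 := by
    intro x0 hx0 hlt
    -- the sequence of breakpoints
    have hback : ∀ k : ℕ, x0 - k * b' ∈ Brk φ ∧ (c ^ k) (x0 - k * b') = x0 := by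
      intro k
      induction k with
      | zero => simpa using hx0
      | succ k ih =>
        set y := x0 - ((k + 1 : ℕ) : ℝ) * b' with hy
        have hkb : 0 ≤ (k : ℝ) * b' := by positivity
        have hyk : y + b' = x0 - k * b' := by rw [hy]; push_cast; ring
        have hyM : y < M1 - b' := by linarith
        have hcy : c y = x0 - k * b' := by rw [hM1 y (by linarith), hyk]
        refine ⟨?_, ?_⟩
        · intro hNB
          apply ih.1
          rw [← hyk]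
          -- `φ (z + b') = φ z + b` near `y`
          have h1 : NB (Tr b * φ * Tr (-b')) (y + b') := by
            have h2 : NB (Tr (-b')) (y + b') := by
              refine NB_congr (f := 1) (d := -b') one_pos (fun z _ => rfl)
                ⟨1, SG.one 1 _, SG.one (-1) _⟩
            have h3 : Tr (-b') (y + b') = y := by rw [Tr_apply]; ring
            have h4 : NB (Tr b * φ) y := by
              refine NB.mul hNB ?_
              exact NB_congr (f := 1) (d := b) one_pos (fun z _ => rfl)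
                ⟨1, SG.one 1 _, SG.one (-1) _⟩
            exact NB.mul h2 (by rw [h3]; exact h4)
          refine NB_congr (f := Tr b * φ * Tr (-b')) (d := 0) hb'0 (fun z hz => ?_) h1
          rw [RelIso.mul_apply, RelIso.mul_apply, Tr_apply, Tr_apply, add_zero]
          have h5 : z + -b' ≤ M1 := by
            have := (le_abs_self _).trans hz
            linarith
          rw [← hφc, hM1 _ h5]
          congr 1
          ring
        · rw [pow_succ, RelIso.mul_apply, hcy]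
          exact ih.2
    obtain ⟨N0, hN0⟩ := reach hpos (M0 + 1) x0
    obtain ⟨i, hi⟩ := pow_beats m hm ((Brk c).ncard + N0) (Brk t).ncard
    have hgrow := brk_growth e hc.isPL.brk_finite ht.isPL.brk_finite i
    have hsub : ((fun k : ℕ => x0 - k * b') '' {k | k + N0 ≤ m ^ i}) ⊆ Brk (c ^ m ^ i) := by
      rintro _ ⟨k, hk, rfl⟩
      have hk' : k + N0 ≤ m ^ i := hk
      rw [← hBiff]
      · exact (hback k).1
      · obtain ⟨r, hr⟩ : ∃ r, m ^ i = r + k := ⟨m ^ i - k, by omega⟩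
        rw [hr, pow_add, RelIso.mul_apply, (hback k).2]
        have h1 := stay hpos hN0 (show N0 ≤ r by omega)
        linarith
    have hfin : (Brk (c ^ m ^ i)).Finite := (hcn (m ^ i)).isPL.brk_finite
    have h1 := Set.ncard_le_ncard hsub hfin
    have hinj : Function.Injective (fun k : ℕ => x0 - (k : ℝ) * b') := by
      intro k k' h
      simp only at h
      have h2 : (k : ℝ) * b' = k' * b' := by linarith
      exact_mod_cast mul_right_cancel₀ hb'0.ne' h2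
    rw [Set.ncard_image_of_injective _ hinj] at h1
    have h2 : {k : ℕ | k + N0 ≤ m ^ i} = (Finset.range (m ^ i - N0 + 1) : Set ℕ) ∨ m ^ i < N0 := by
      by_cases h : m ^ i < N0
      · exact Or.inr h
      · left
        ext k
        simp only [Set.mem_ofPred_eq, Finset.coe_range, Set.mem_Iio]
        omega
    rcases h2 with h2 | h2
    · rw [h2, Set.ncard_coe_finset, Finset.card_range] at h1
      omega
    · omega
  -- finiteness
  obtain ⟨n1, hn1⟩ := reach hpos (M0 + 1) M1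
  have hBsub : Brk φ ⊆ Brk (c ^ n1) := by
    intro x hx
    rw [← hBiff x n1]
    · exact hx
    · have h1 := (c ^ n1).monotone (not_lt.1 (hno x hx))
      linarith
  have hBfin : (Brk φ).Finite := (hcn n1).isPL.brk_finite.subset hBsub
  have hBA : ∀ x ∈ Brk φ, x ∈ A := by
    intro x hx
    obtain ⟨⟨S, hSA, hS⟩, _⟩ := hcn n1
    exact hSA x (Brk_subset (fun x y hxy => by
      obtain ⟨p, _, b, hb⟩ := hS x y hxy
      exact ⟨p, b, hb⟩) (hBsub hx))
  refine ⟨φ, ⟨⟨hBfin.toFinset, fun s hs => hBA s (hBfin.mem_toFinset.1 hs), ?_⟩, ?_⟩, ?_⟩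
  · intro x y hxy
    obtain ⟨n, hn⟩ := reach hpos (M0 + 1) x
    have hmono : ∀ z, x ≤ z → M0 + 1 ≤ (c ^ n) z := fun z hz => hn.trans ((c ^ n).monotone hz)
    obtain ⟨p, hp, d, hd⟩ := affine_of_noBrk (hcn n) x y (fun s hs hs' => by
      refine hxy s (hBfin.mem_toFinset.2 ((hBiff s n ?_).2 hs)) hs'
      have := hmono s hs'.1.le
      linarith)
    refine ⟨p, hp, d - n * b, fun z hz => ?_⟩
    rw [hφ z n (by have := hmono z hz.1; linarith), hd z hz]
    ring
  · intro x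
    obtain ⟨n, hn⟩ := reach hpos M0 x
    rw [hφ x n hn]
    have h1 : (n : ℝ) * b ∈ A := by
      have := AddSubgroup.nsmul_mem _ hbA n
      rwa [nsmul_eq_mul] at this
    rw [sub_eq_add_neg, A.add_mem_cancel_right (neg_mem h1)]
    exact (hcn n).2 x
  · ext x
    rw [RelIso.mul_apply, RelIso.mul_apply, hφc, RelIso.apply_inv_self, Tr_apply]

/-- **Elements conjugate to a proper power are conjugate to translations.** -/
theorem conj_tr {A : AddSubgroup ℝ} {P : Subgroup ℝˣ} {c t : ℝ ≃o ℝ} (hc : IsBS A P c)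
    (ht : IsBS A P t) {m : ℕ} (hm : 2 ≤ m) (e : t * c * t⁻¹ = c ^ m) (hne : c ≠ 1) {b : ℝ}
    (hb : AE 1 c 1 b) (hbA : b ∈ A) : ∃ φ, IsBS A P φ ∧ φ * c * φ⁻¹ = Tr b := by
  obtain ⟨c', d', hcd'⟩ := ht.isPL.exists_pos
  obtain ⟨_, hb0, _⟩ := slope_eq hm e hc.isPL ht.isPL hne 1 (Or.inl rfl) hb hcd'
  rcases lt_or_gt_of_ne hb0 with h | h
  · -- negative case: pass to the inverse
    have hinv : IsBS A P c⁻¹ := (BSG A P).inv_mem hc
    have e' : t * c⁻¹ * t⁻¹ = c⁻¹ ^ m := by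
      rw [inv_pow, ← e]
      group
    have hb' : AE 1 (c⁻¹ : ℝ ≃o ℝ) 1 (-b) := by
      obtain ⟨_, M, hM⟩ := hb
      refine ⟨one_pos, M + |b|, fun z hz => ?_⟩
      have h1 := hM (z - b) (by
        have := le_abs_self b
        linarith)
      rw [one_mul, one_mul] at h1 ⊢
      apply c.injective
      rw [RelIso.apply_inv_self]
      have e2 : z + -b = z - b := by ring
      rw [e2, h1]
      ring
    obtain ⟨φ, hφ, hφ'⟩ := conj_tr_pos hinv ht hm e' (fun h1 => hne (inv_eq_one.1 h1)) hb'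
      (by linarith) (neg_mem hbA)
    refine ⟨φ, hφ, ?_⟩
    have h2 : (φ * c * φ⁻¹)⁻¹ = Tr (-b) := by
      rw [← hφ']
      group
    rw [inv_eq_iff_eq_inv] at h2
    rw [h2]
    rw [inv_eq_iff_mul_eq_one]
    ext x
    rw [RelIso.mul_apply, Tr_apply, Tr_apply]
    change x + b + -b = x
    ring
  · exact conj_tr_pos hc ht hm e hne hb h hbA

end Pool.Agent.K1H5.PL
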