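import Mathlib
import Pool.Agent.K1H5.PL.Mather
import Pool.Agent.K1H5.PL.Base
import Pool.Agent.K1H5.BassRed.Fld

set_option autoImplicit false

/-!
The Bass conjecture for the Bieri–Strebel groups `G(ℝ; A, P)` with `P` cyclic.
-/

namespace Pool.Agent.K1H5.PL

open Set MonoidAlgebra
open Pool.Agent.H23R2.Cyc (ell ell_single ell_mul_comm ell_eq_sum tf tf_apply tf_eq_zero)
open Pool.Agent.H26R2.IdemLI (ch ch_coeff)
open Pool.Agent.H26R2.Bass

/-- the affine maps `x ↦ l ^ n x + b` -/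
@[ext] structure AG (l : ℝ) where
  /-- the exponent -/
  n : ℤ
  /-- the translation part -/
  b : ℝ

namespace AG

variable {l : ℝ}

noncomputable instance : Mul (AG l) := ⟨fun x y => ⟨x.n + y.n, x.b + l ^ x.n * y.b⟩⟩
instance : One (AG l) := ⟨⟨0, 0⟩⟩
noncomputable instance : Inv (AG l) := ⟨fun x => ⟨-x.n, -(l ^ (-x.n) * x.b)⟩⟩

lemma mul_n (x y : AG l) : (x * y).n = x.n + y.n := rfl
lemma mul_b (x y : AG l) : (x * y).b = x.b + l ^ x.n * y.b := rfl
lemma one_n : (1 : AG l).n = 0 := rfl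
lemma one_b : (1 : AG l).b = 0 := rfl
lemma inv_n (x : AG l) : x⁻¹.n = -x.n := rfl
lemma inv_b (x : AG l) : x⁻¹.b = -(l ^ (-x.n) * x.b) := rfl

noncomputable instance [hl : Fact (0 < l)] : Group (AG l) :=
  Group.ofLeftAxioms
    (fun x y z => by
      ext
      · simp only [mul_n]; ring
      · simp only [mul_b, mul_n]
        rw [zpow_add₀ hl.out.ne']
        ring)
    (fun x => by
      ext
      · simp [mul_n, one_n]
      · simp [mul_b, one_n, one_b])
    (fun x => by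
      ext
      · simp [mul_n, one_n, inv_n]
      · simp [mul_b, inv_n, one_b, inv_b])

variable [hl : Fact (0 < l)]

lemma isConj_iff' (x y : AG l) (hx : x.n = 0) (hy : y.n = 0) :
    IsConj x y ↔ ∃ n : ℤ, x.b = l ^ n * y.b := by
  rw [isConj_iff]
  constructor
  · rintro ⟨c, hc⟩
    refine ⟨-c.n, ?_⟩
    rw [← hc]
    simp only [mul_b, mul_n, inv_b, hx, add_zero]
    have h1 : l ^ c.n * l ^ (-c.n) = 1 := by
      rw [← zpow_add₀ hl.out.ne', add_neg_cancel, zpow_zero]
    have h2 : l ^ (-c.n) * l ^ c.n = 1 := by rw [mul_comm]; exact h1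
    have e : c.b + l ^ c.n * x.b + l ^ c.n * -(l ^ (-c.n) * c.b) =
        l ^ c.n * x.b + c.b * (1 - l ^ c.n * l ^ (-c.n)) := by ring
    rw [e, h1, sub_self, mul_zero, add_zero, ← mul_assoc, h2, one_mul]
  · rintro ⟨n, hn⟩
    refine ⟨⟨-n, 0⟩, ?_⟩
    ext
    · simp only [mul_n, inv_n, hx, hy]
      ring
    · simp only [mul_b, mul_n, inv_b, hx, mul_zero, neg_zero, add_zero, zero_add, hn]
      rw [← mul_assoc, ← zpow_add₀ hl.out.ne', neg_add_cancel, zpow_zero, one_mul]

end AG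

section restrict

variable {R G : Type*} [CommRing R] [Group G] {n : ℕ}

lemma ell_delta (g : G) [DecidableEq G] (x : MonoidAlgebra R G) :
    ell (fun h => if h = g then (1 : R) else 0) x = x.coeff g := by
  induction x using MonoidAlgebra.induction_linear with
  | zero => simp
  | add x y hx hy => rw [map_add, hx, hy]; rfl
  | single h r =>
    rw [ell_single, coeff_single, Finsupp.single_apply]
    split_ifs <;> simp

lemma ell_map {G' : Type*} [Group G'] (φ : G' →* G) (f : G → R) (x : MonoidAlgebra R G') :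
    ell f (MonoidAlgebra.mapDomainRingHom R φ x) = ell (fun g => f (φ g)) x := by
  induction x using MonoidAlgebra.induction_linear with
  | zero => simp
  | add x y hx hy => simp only [map_add, hx, hy]
  | single g r => simp [ell_single]

lemma coeff_map_sub (H : Subgroup G) (x : MonoidAlgebra R H) (f : H) :
    (mapDomainRingHom R H.subtype x).coeff (f : G) = x.coeff f := by
  classical
  rw [← ell_delta, ← ell_delta, ell_map]
  congr 1
  ext h
  simp only [Subgroup.coe_subtype, SetLike.coe_eq_coe]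

/-- restriction to a subgroup that contains the support -/
lemma exists_restrict (A : Matrix (Fin n) (Fin n) (MonoidAlgebra R G)) (hA : A * A = A)
    (H : Subgroup G) (hT : ∀ i j h, (A i j).coeff h ≠ 0 → h ∈ H) :
    ∃ B : Matrix (Fin n) (Fin n) (MonoidAlgebra R H), B * B = B ∧
      B.map (mapDomainRingHom R H.subtype) = A := by
  classical
  have hres : ∀ i j, ∃ x : MonoidAlgebra R H, mapDomainRingHom R H.subtype x = A i j := by
    intro i j
    refine ⟨∑ y ∈ (A i j).coeff.support.attach,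
      single ⟨y.1, hT i j y.1 (Finsupp.mem_support_iff.1 y.2)⟩ ((A i j).coeff y.1), ?_⟩
    rw [map_sum]
    have h1 : ∀ y ∈ (A i j).coeff.support.attach, mapDomainRingHom R H.subtype
        (single (⟨y.1, hT i j y.1 (Finsupp.mem_support_iff.1 y.2)⟩ : H) ((A i j).coeff y.1)) =
        single y.1 ((A i j).coeff y.1) := by
      intro y _
      simp
    rw [Finset.sum_congr rfl h1, Finset.sum_attach _ (fun y => single y ((A i j).coeff y))]
    ext h
    rw [coeff_sum, Finsupp.finsetSum_apply]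
    have h2 : ∀ y ∈ (A i j).coeff.support, (single y ((A i j).coeff y) : MonoidAlgebra R G).coeff h =
        if y = h then (A i j).coeff y else 0 := by
      intro y _
      rw [coeff_single, Finsupp.single_apply]
    rw [Finset.sum_congr rfl h2, Finset.sum_ite_eq']
    split_ifs with h3
    · rfl
    · exact (Finsupp.notMem_support_iff.1 h3).symm
  choose B hB using hres
  let B' : Matrix (Fin n) (Fin n) (MonoidAlgebra R H) := Matrix.of B
  have hmap : B'.map (mapDomainRingHom R H.subtype) = A := by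
    ext1 i j
    exact hB i j
  have hinj : Function.Injective (mapDomainRingHom R H.subtype) := by
    intro x y hxy
    exact mapDomain_injective H.subtype_injective hxy
  refine ⟨B', ?_, hmap⟩
  have h2 : (B' * B').map (mapDomainRingHom R H.subtype) =
      B'.map (mapDomainRingHom R H.subtype) := by
    rw [Matrix.map_mul, hmap, hA]
  ext1 i j
  exact hinj (congrFun (congrFun h2 i) j)

end restrict

/-- the base case on the affine group -/
lemma base_AG {k : Type*} [Field k] [Finite k] {p : ℕ} [hp : Fact p.Prime] [CharP k p]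
    {l : ℝ} [hl0 : Fact (0 < l)] {I j : ℕ} (hl1 : 1 < l) (hI : 1 ≤ I)
    (hj : 1 ≤ j) (hl : l ^ I = ((Nat.card k ^ j : ℕ) : ℝ)) {n : ℕ}
    (X : Matrix (Fin n) (Fin n) (MonoidAlgebra k (AG l))) (hX : X * X = X) (h0 : AG l)
    (hn0 : h0.n = 0) (hne : h0.b ≠ 0) : tf (ind k h0) X = 0 := by
  classical
  let F : Finset ℝ := insert h0.b (Finset.univ.biUnion fun q : Fin n × Fin n =>
    (X q.1 q.2).coeff.support.image AG.b)
  have hlne : l ≠ 0 := hl0.out.ne'
  let T : Subgroup (AG l) :=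
    { carrier := {h | h.b ∈ AA l I F}
      mul_mem' := by
        intro x y hx hy
        exact add_mem hx (zpow_AA hlne hy _)
      one_mem' := by
        change (1 : AG l).b ∈ AA l I F
        rw [AG.one_b]
        exact zero_mem _
      inv_mem' := by
        intro x hx
        exact neg_mem (zpow_AA hlne hx _) }
  have hFsupp : ∀ i j h, (X i j).coeff h ≠ 0 → h.b ∈ F := by
    intro i j h hh
    apply Finset.mem_insert_of_mem
    exact Finset.mem_biUnion.2 ⟨(i, j), Finset.mem_univ _,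
      Finset.mem_image_of_mem _ (Finsupp.mem_support_iff.2 hh)⟩
  obtain ⟨B, hB, hBX⟩ := exists_restrict X hX T (fun i j h hh => mem_AA hI hl (hFsupp i j h hh))
  have h0F : h0.b ∈ F := Finset.mem_insert_self _ _
  let h1 : T := ⟨h0, mem_AA hI hl h0F⟩
  have hconj : ∀ f : T, (f : AG l).n = 0 → (IsConj f h1 ↔ ∃ n : ℤ, (f : AG l).b = l ^ n * h0.b) := by
    intro f hf
    constructor
    · intro h
      have := MonoidHom.map_isConj T.subtype h
      exact (AG.isConj_iff' _ _ hf hn0).1 this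
    · rintro ⟨n, hn⟩
      rw [isConj_iff]
      refine ⟨⟨⟨-n, 0⟩, (zero_mem (AA l I F) : (0 : ℝ) ∈ AA l I F)⟩, ?_⟩
      apply Subtype.ext
      ext
      · simp only [Subgroup.coe_mul, Subgroup.coe_inv, AG.mul_n, AG.inv_n, hf, h1, hn0]
        ring
      · simp only [Subgroup.coe_mul, Subgroup.coe_inv, AG.mul_b, AG.mul_n, AG.inv_b, hf, mul_zero,
          neg_zero, add_zero, zero_add, hn, h1]
        rw [← mul_assoc, ← zpow_add₀ hlne, neg_add_cancel, zpow_zero, one_mul]
  have hbase := base (k := k) (p := p) (fun f : T => (f : AG l).n) (fun f : T => (f : AG l).b)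
    hl1 hI hj hl F (fun f => f.2) (fun f g => rfl) (fun f g => rfl) B hB
    (fun i f hf _ => by
      apply hFsupp i i
      rw [← hBX, Matrix.map_apply, coeff_map_sub]
      exact hf) h1 hn0 h0F hne hconj
  rw [← hBX, tf_apply]
  rw [tf_apply] at hbase
  rw [← hbase]
  refine Finset.sum_congr rfl fun i _ => ?_
  rw [Matrix.map_apply, ell_map]
  congr 2
  funext f
  unfold ind
  have : IsConj (T.subtype f) h0 ↔ IsConj f h1 := by
    constructor
    · intro h
      have hfn : (f : AG l).n = 0 := by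
        obtain ⟨c, hc⟩ := isConj_iff.1 h
        have h2 : (c * (f : AG l) * c⁻¹).n = 0 := by
          rw [← hn0, ← hc]
          rfl
        simp only [AG.mul_n, AG.inv_n] at h2
        omega
      exact (hconj f hfn).2 ((AG.isConj_iff' _ _ hfn hn0).1 h)
    · intro h
      exact MonoidHom.map_isConj T.subtype h
  by_cases h : IsConj f h1
  · rw [if_pos h, if_pos (this.2 h)]
  · rw [if_neg h, if_neg (fun h' => h (this.1 h'))]

section germ

variable {A : AddSubgroup ℝ} {P : Subgroup ℝˣ}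

lemma IsBS.slope_mem {f : ℝ ≃o ℝ} (h : IsBS A P f) : ∃ p ∈ P, ∃ b : ℝ, AE 1 f (p : ℝ) b := by
  obtain ⟨a, b, hab⟩ := h.isPL.exists_pos
  obtain ⟨⟨S, _, hS⟩, _⟩ := h
  obtain ⟨N, hN⟩ := S.bddAbove
  obtain ⟨ha, M, hM⟩ := id hab
  obtain ⟨p, hp, c, hc⟩ := hS (max M N) (max M N + 1) (fun s hs hs' =>
    absurd hs'.1 (not_lt.2 ((hN hs).trans (le_max_right _ _))))
  have e1 := hM (max M N) (le_max_left _ _)
  have e2 := hM (max M N + 1) (by linarith [le_max_left M N])
  have e3 := hc (max M N) ⟨le_rfl, by linarith⟩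
  have e4 := hc (max M N + 1) ⟨by linarith, le_rfl⟩
  rw [one_mul] at e1 e2
  have h1 : (p : ℝ) = a := by linarith
  exact ⟨p, hp, b, by rw [h1]; exact hab⟩

/-- the germ at `+∞` -/
lemma exists_germ {l : ℝ} (hP : ∀ p ∈ P, ∃ n : ℤ, (p : ℝ) = l ^ n) (f : BSG A P) :
    ∃ (n : ℤ) (b : ℝ), AE 1 (f : ℝ ≃o ℝ) (l ^ n) b := by
  obtain ⟨p, hp, b, hb⟩ := IsBS.slope_mem f.2
  obtain ⟨n, hn⟩ := hP p hp
  exact ⟨n, b, by rw [← hn]; exact hb⟩

/-- the germ at `+∞` as a homomorphism -/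
noncomputable def germ {l : ℝ} [hl0 : Fact (0 < l)] (hl1 : 1 < l)
    (hP : ∀ p ∈ P, ∃ n : ℤ, (p : ℝ) = l ^ n) : BSG A P →* AG l where
  toFun f := ⟨(exists_germ hP f).choose, (exists_germ hP f).choose_spec.choose⟩
  map_one' := by
    have h1 := (exists_germ hP (1 : BSG A P)).choose_spec.choose_spec
    obtain ⟨e1, e2⟩ := h1.unique one_ne_zero (AE.one 1)
    ext
    · exact zpow_right_injective₀ hl0.out hl1.ne' (by simpa [AG.one_n] using e1)
    · exact e2
  map_mul' f g := by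
    have h1 := (exists_germ hP (f * g)).choose_spec.choose_spec
    have h2 := (exists_germ hP f).choose_spec.choose_spec
    have h3 := (exists_germ hP g).choose_spec.choose_spec
    obtain ⟨e1, e2⟩ := h1.unique one_ne_zero (h2.mul (by norm_num) h3)
    ext
    · refine zpow_right_injective₀ hl0.out hl1.ne' ?_
      simp only [AG.mul_n]
      rw [zpow_add₀ hl0.out.ne']
      exact e1
    · simp only [AG.mul_b]
      rw [e2]
      ring

lemma germ_spec {l : ℝ} [hl0 : Fact (0 < l)] (hl1 : 1 < l)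
    (hP : ∀ p ∈ P, ∃ n : ℤ, (p : ℝ) = l ^ n) (f : BSG A P) :
    AE 1 (f : ℝ ≃o ℝ) (l ^ (germ hl1 hP f).n) (germ hl1 hP f).b :=
  (exists_germ hP f).choose_spec.choose_spec

/-- translation lengths of elements conjugate to a proper power lie in `A` -/
lemma tr_mem {f : ℝ ≃o ℝ} (hf : IsBS A P f) (hno : ∀ x, f x ≠ x) {b : ℝ} (hb : AE 1 f 1 b) :
    b ∈ A := by
  obtain ⟨_, M, hM⟩ := hb
  obtain ⟨x0, hx0, hx00⟩ : ∃ x0 ∈ A, x0 ≠ 0 := by
    refine ⟨f 0, (hf.2 0).2 (zero_mem _), hno 0⟩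
  obtain ⟨x, hx, hxM⟩ : ∃ x ∈ A, M ≤ x := by
    obtain ⟨n, hn⟩ := exists_nat_gt (M / |x0|)
    rw [div_lt_iff₀ (abs_pos.2 hx00)] at hn
    have h1 : |x0| ∈ A := by
      rcases abs_choice x0 with h | h
      · rw [h]; exact hx0
      · rw [h]; exact neg_mem hx0
    refine ⟨n * |x0|, ?_, hn.le⟩
    have := AddSubgroup.nsmul_mem _ h1 n
    rwa [nsmul_eq_mul] at this
  have h1 := hM x hxM
  rw [one_mul, one_mul] at h1
  have h2 := (hf.2 x).2 hx
  rw [h1] at h2
  exact (A.add_mem_cancel_left hx).1 h2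

/-- multiplication by a positive unit -/
noncomputable def Mu (u : ℝ) (hu : 0 < u) : ℝ ≃o ℝ := OrderIso.mulLeft₀ u hu

lemma Mu_apply (u : ℝ) (hu : 0 < u) (x : ℝ) : Mu u hu x = u * x := rfl

lemma Mu_mem {p : ℝˣ} (hp : p ∈ P) (hp0 : 0 < (p : ℝ)) (hPA : ∀ p ∈ P, ∀ a ∈ A, (p : ℝ) * a ∈ A) :
    IsBS A P (Mu (p : ℝ) hp0) := by
  refine ⟨⟨∅, by simp, fun x y _ => ⟨p, hp, 0, fun z _ => by rw [Mu_apply, add_zero]⟩⟩,
    fun x => ⟨fun h => ?_, fun h => hPA p hp x h⟩⟩
  have h1 := hPA p⁻¹ (inv_mem hp) _ h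
  rw [Mu_apply, ← mul_assoc, ← Units.val_mul, inv_mul_cancel, Units.val_one, one_mul] at h1
  exact h1

/-- The rank vanishes on the group `G(ℝ; A, P)`, `P` cyclic, over finite fields. -/
theorem bs_vanish {k : Type*} [Field k] [Finite k] {p : ℕ} [hp : Fact p.Prime] [CharP k p]
    (hP0 : ∀ p ∈ P, 0 < (p : ℝ)) (hPA : ∀ p ∈ P, ∀ a ∈ A, (p : ℝ) * a ∈ A)
    (hcyc : ∃ u : ℝˣ, P = Subgroup.zpowers u) {n : ℕ}
    (X : Matrix (Fin n) (Fin n) (MonoidAlgebra k (BSG A P))) (hX : X * X = X) (g : BSG A P)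
    (hg : g ≠ 1) : tf (ind k g) X = 0 := by
  classical
  by_contra hne
  have hpu : ¬ IsUnit ((p : ℕ) : k) := by
    rw [CharP.cast_eq_zero]
    exact not_isUnit_zero
  -- periodic elements
  have hper : ∀ f : BSG A P, tf (ind k f) X ≠ 0 → ∃ j : ℕ, 1 ≤ j ∧ IsConj f (f ^ p ^ j) := by
    intro f hf
    by_contra hcon
    push Not at hcon
    exact hf (tf_zero_of_prime hp.out hpu X hX f hcon)
  have hstr : ∀ (f : BSG A P), f ≠ 1 → ∀ j : ℕ, 1 ≤ j → IsConj f (f ^ p ^ j) →
      ∃ b : ℝ, b ∈ A ∧ b ≠ 0 ∧ AE 1 (f : ℝ ≃o ℝ) 1 b ∧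
        (∃ v ∈ P, (v : ℝ) = (p : ℝ) ^ j) ∧ ∃ φ, IsBS A P φ ∧ φ * f * φ⁻¹ = Tr b := by
    intro f hf j hj hc
    obtain ⟨t, ht⟩ := isConj_iff.1 hc
    have e : (t : ℝ ≃o ℝ) * f * (t : ℝ ≃o ℝ)⁻¹ = (f : ℝ ≃o ℝ) ^ p ^ j := by
      have := congrArg (fun x : BSG A P => (x : ℝ ≃o ℝ)) ht
      simpa using this
    have hf' : (f : ℝ ≃o ℝ) ≠ 1 := fun h => hf (Subtype.ext h)
    have h2 : 2 ≤ p ^ j := hp.out.two_le.trans (Nat.le_self_pow (by omega) p)
    obtain ⟨a, b, hab⟩ := (IsBS.isPL f.2).exists_pos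
    obtain ⟨v, hv, d, hvd⟩ := IsBS.slope_mem t.2
    obtain ⟨ha, hb, hc'⟩ := slope_eq h2 e (IsBS.isPL f.2) (IsBS.isPL t.2) hf' 1 (Or.inl rfl) hab hvd
    subst ha
    have hno : ∀ x, (f : ℝ ≃o ℝ) x ≠ x := by
      intro x hx
      exact hf' (eq_one_of_fix h2 e (IsBS.isPL f.2).hasG (IsBS.isPL t.2).hasG
        (IsBS.isPL f.2).lam_right (IsBS.isPL f.2).lam_left hx)
    have hbA := tr_mem f.2 hno hab
    refine ⟨b, hbA, hb, hab, ⟨v, hv, by rw [hc']; push_cast; rfl⟩, ?_⟩
    exact conj_tr f.2 t.2 h2 e hf' hab hbA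
  obtain ⟨j, hj, hgj⟩ := hper g hne
  obtain ⟨b, hbA, hb0, hab, ⟨v, hv, hvp⟩, φ, hφ, hφg⟩ := hstr g hg j hj hgj
  -- the generator
  have hpj : (1 : ℝ) < (p : ℝ) ^ j := by
    apply one_lt_pow₀ _ (by omega)
    exact_mod_cast hp.out.one_lt
  obtain ⟨w, I0, hw, hI0, hwI⟩ : ∃ (w : ℝˣ) (I0 : ℕ), P = Subgroup.zpowers w ∧ 1 ≤ I0 ∧
      (w : ℝ) ^ I0 = (p : ℝ) ^ j := by
    obtain ⟨u, hu⟩ := hcyc
    have hv' := hv
    rw [hu] at hv'
    obtain ⟨i, hi⟩ := Subgroup.mem_zpowers_iff.1 hv'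
    have hi' : (u : ℝ) ^ i = (p : ℝ) ^ j := by
      rw [← hvp, ← hi]
      push_cast
      rfl
    rcases lt_trichotomy i 0 with h | h | h
    · refine ⟨u⁻¹, (-i).toNat, by rw [hu, Subgroup.zpowers_inv], by omega, ?_⟩
      have h1 : ((-i).toNat : ℤ) = -i := Int.toNat_of_nonneg (by omega)
      rw [← hi', ← zpow_natCast, h1, Units.val_inv_eq_inv_val, inv_zpow', neg_neg]
    · subst h
      rw [zpow_zero] at hi'
      linarith
    · refine ⟨u, i.toNat, hu, by omega, ?_⟩
      have h1 : (i.toNat : ℤ) = i := Int.toNat_of_nonneg (by omega)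
      rw [← hi', ← zpow_natCast, h1]
  set l : ℝ := (w : ℝ) with hl
  have hwP : w ∈ P := by rw [hw]; exact Subgroup.mem_zpowers w
  have hl0 : 0 < l := hP0 w hwP
  have hF0 : Fact (0 < l) := ⟨hl0⟩
  have hl1 : 1 < l := by
    by_contra hcon
    push Not at hcon
    have := pow_le_one₀ (n := I0) hl0.le hcon
    rw [hwI] at this
    linarith
  have hPl : ∀ q ∈ P, ∃ n : ℤ, (q : ℝ) = l ^ n := by
    intro q hq
    rw [hw] at hq
    obtain ⟨i, hi⟩ := Subgroup.mem_zpowers_iff.1 hq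
    exact ⟨i, by rw [← hi]; push_cast; rfl⟩
  -- the size of the field
  obtain ⟨e, he1, he⟩ : ∃ e : ℕ, 1 ≤ e ∧ Nat.card k = p ^ e := by
    have := Fintype.ofFinite k
    obtain ⟨e, _, he⟩ := FiniteField.card k p
    exact ⟨e, e.2, by rw [Nat.card_eq_fintype_card, he]⟩
  have hlI : l ^ (I0 * e) = ((Nat.card k ^ j : ℕ) : ℝ) := by
    rw [pow_mul, hwI, he]
    push_cast
    rw [← pow_mul, ← pow_mul, mul_comm]
  have hI : 1 ≤ I0 * e := Nat.mul_pos hI0 he1
  -- push to the affine group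
  set γ := germ (A := A) hl1 hPl with hγ
  have hγt : ∀ (f : BSG A P) (c : ℝ), AE 1 (f : ℝ ≃o ℝ) 1 c → (γ f).n = 0 ∧ (γ f).b = c := by
    intro f c hc
    obtain ⟨e1, e2⟩ := (germ_spec hl1 hPl f).unique one_ne_zero hc
    refine ⟨?_, e2⟩
    exact zpow_right_injective₀ hl0 hl1.ne' (by simpa using e1)
  obtain ⟨hγn, hγb⟩ := hγt g b hab
  have hpush : tf (ind k (γ g)) (X.map (mapDomainRingHom k γ)) = tf (ind k g) X := by
    rw [tf_apply, tf_apply, ← map_sum, ← map_sum]
    have h1 : ell (ind k (γ g)) (∑ i, (X.map (mapDomainRingHom k γ)) i i) =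
        ell (fun h => ind k (γ g) (γ h)) (∑ i, X i i) := by
      rw [map_sum, map_sum]
      refine Finset.sum_congr rfl fun i _ => ?_
      rw [Matrix.map_apply, ell_map]
    rw [h1]
    have h2 : (fun h => ind k (γ g) (γ h)) =
        fun h => ind k g h + (ind k (γ g) (γ h) - ind k g h) := by
      funext h
      ring
    rw [h2, ell_add']
    have h3 : ell (fun h => ind k (γ g) (γ h) - ind k g h) (∑ i, X i i) = 0 := by
      apply ell_class
      · intro a c hac
        have e1 : ind k (γ g) (γ a) = ind k (γ g) (γ c) := by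
          have hac' : IsConj (γ a) (γ c) := MonoidHom.map_isConj γ hac
          unfold ind
          by_cases h : IsConj (γ a) (γ g)
          · rw [if_pos h, if_pos (hac'.symm.trans h)]
          · rw [if_neg h, if_neg (fun h' => h (hac'.trans h'))]
        have e2 : ind k g a = ind k g c := by
          unfold ind
          by_cases h : IsConj a g
          · rw [if_pos h, if_pos (hac.symm.trans h)]
          · rw [if_neg h, if_neg (fun h' => h (hac.trans h'))]
        rw [e1, e2]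
      · intro h hh
        by_contra hcon
        rw [map_sum, ← tf_apply] at hcon
        apply hh
        have hiff : IsConj (γ h) (γ g) ↔ IsConj h g := by
          refine ⟨fun hc => ?_, fun hc => MonoidHom.map_isConj γ hc⟩
          have hh1 : h ≠ 1 := by
            rintro rfl
            rw [map_one, isConj_one_right] at hc
            apply hb0
            rw [← hγb, hc]
            rfl
          obtain ⟨j', hj', hhj⟩ := hper h hcon
          obtain ⟨b', hbA', hb0', hab', _, φ', hφ', hφh⟩ := hstr h hh1 j' hj' hhj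
          obtain ⟨hn', hb'⟩ := hγt h b' hab'
          obtain ⟨m, hm⟩ := (AG.isConj_iff' _ _ hn' hγn).1 hc
          rw [hb', hγb] at hm
          -- conjugate the translations
          have hwm : (((w ^ m : ℝˣ)) : ℝ) = l ^ m := by push_cast; rfl
          have hwm0 : 0 < (((w ^ m : ℝˣ)) : ℝ) := by rw [hwm]; positivity
          have hmu := Mu_mem (A := A) (P := P) (p := w ^ m) (zpow_mem hwP m) hwm0 hPA
          rw [isConj_iff]
          have e1 : Mu _ hwm0 * Tr b * (Mu _ hwm0)⁻¹ = Tr b' := by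
            ext x
            have h4 : Mu _ hwm0 ((Mu _ hwm0)⁻¹ x) = x := RelIso.apply_inv_self _ _
            rw [RelIso.mul_apply, RelIso.mul_apply, Tr_apply, Tr_apply, Mu_apply, mul_add,
              ← Mu_apply _ hwm0, h4, hwm, hm]
          refine ⟨⟨φ, hφ⟩⁻¹ * ⟨_, hmu⟩⁻¹ * ⟨φ', hφ'⟩, ?_⟩
          apply Subtype.ext
          simp only [Subgroup.coe_mul, Subgroup.coe_inv]
          have e2 : (g : ℝ ≃o ℝ) = φ⁻¹ * Tr b * φ := by rw [← hφg]; group
          rw [e2]
          calc φ⁻¹ * (Mu _ hwm0)⁻¹ * φ' * (h : ℝ ≃o ℝ) * (φ⁻¹ * (Mu _ hwm0)⁻¹ * φ')⁻¹ =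
              φ⁻¹ * (Mu _ hwm0)⁻¹ * (φ' * (h : ℝ ≃o ℝ) * φ'⁻¹) * Mu _ hwm0 * φ := by group
            _ = φ⁻¹ * (Mu _ hwm0)⁻¹ * (Mu _ hwm0 * Tr b * (Mu _ hwm0)⁻¹) * Mu _ hwm0 * φ := by
                rw [hφh, e1]
            _ = φ⁻¹ * Tr b * φ := by group
        unfold ind
        by_cases h5 : IsConj h g
        · rw [if_pos h5, if_pos (hiff.2 h5), sub_self]
        · rw [if_neg h5, if_neg (fun h6 => h5 (hiff.1 h6)), sub_self]
    rw [h3, add_zero, map_sum]
  apply hne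
  rw [← hpush]
  exact base_AG (k := k) (p := p) hl1 hI hj hlI (X.map (mapDomainRingHom k γ))
    (by rw [← Matrix.map_mul, hX]) (γ g) hγn (by rw [hγb]; exact hb0)

end germ

end Pool.Agent.K1H5.PL
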