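import Mathlib
import Pool.Agent.K1H5.PL.Fin
import Pool.Agent.K1H5.PL.Circle

set_option autoImplicit false

/-!
The Bass conjecture for the Bieri–Strebel groups `G(ℝ; A, P)` with `P` cyclic, over all domains.
-/

namespace Pool.Agent.K1H5.PL

open Set MonoidAlgebra
open Pool.Agent.H23R2.Cyc (ell tf tf_apply)
open Pool.Agent.H26R2.IdemLI (ch)
open Pool.Agent.H26R2.Bass

universe u

/-- **The Bass conjecture for `G(ℝ; A, P)`, `P` cyclic, over all domains.** -/
theorem bass_bs {R : Type u} [CommRing R] [IsDomain R] {A : AddSubgroup ℝ} {P : Subgroup ℝˣ}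
    (hP0 : ∀ p ∈ P, 0 < (p : ℝ)) (hPA : ∀ p ∈ P, ∀ a ∈ A, (p : ℝ) * a ∈ A)
    (hcyc : ∃ u : ℝˣ, P = Subgroup.zpowers u) {n : ℕ}
    (X : Matrix (Fin n) (Fin n) (MonoidAlgebra R (BSG A P))) (hX : X * X = X) (g : BSG A P)
    (hg : ¬ IsUnit ((orderOf g : ℕ) : R)) : tau X g = 0 := by
  classical
  by_cases h0 : orderOf g = 0
  swap
  · rw [tau_eq]
    exact tf_zero_of_finite X hX g h0 hg
  have hg1 : g ≠ 1 := by
    rintro rfl
    rw [orderOf_one] at h0
    exact one_ne_zero h0
  obtain ⟨p, hp⟩ := CharP.exists R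
  rcases CharP.char_is_prime_or_zero R p with hpp | hp0
  · rw [tau_eq]
    have hF : Fact p.Prime := ⟨hpp⟩
    let K := FractionRing R
    have hinj : Function.Injective (algebraMap R K) := IsFractionRing.injective R K
    have hK : CharP K p := charP_of_injective_algebraMap hinj p
    by_contra hne
    have h1 : tf (ind K g) (X.map (ch (algebraMap R K) (BSG A P))) ≠ 0 := by
      rw [tf_ch]
      intro h
      exact hne (hinj (by rw [h, map_zero]))
    obtain ⟨F, hFf, hFfin, hFalg, _, E', hE', hE'ne⟩ := Pool.Agent.K1H5.BassRed.to_finite (p := p)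
      (X.map (ch (algebraMap R K) (BSG A P))) (by rw [← Matrix.map_mul, hX]) g h1
    have hFp : CharP F p := charP_of_injective_algebraMap (algebraMap (ZMod p) F).injective p
    exact hE'ne (bs_vanish (p := p) hP0 hPA hcyc E' hE' g hg1)
  · subst hp0
    have h0 : CharZero R := CharP.charP_to_charZero R
    exact bass_line (BSG A P) (fun f hf => IsBS.isPL hf) (Or.inl h0) X hX g hg

end Pool.Agent.K1H5.PL
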